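import Mathlib
import Pool.Agent.Helper14.LC.Nm

/-!
PROJECT TA, block M (a transcendence measure in one variable), captain helper12. Definitions.
-/

namespace Pool.Agent.Helper12.TA

open Polynomial Complex

noncomputable section

/-- The theta function for the square lattice. -/
def th (z : ℂ) : ℂ := jacobiTheta₂ z I

/-- The sum of the absolute values of the coefficients. -/
def L1 (p : ℤ[X]) : ℝ := Pool.Agent.Helper14.LC.pN (fun z : ℤ => |(z : ℝ)|) p

/-- The Taylor coefficients of `th` at `0`, in the variable `u = mu z`, are polynomials in `β`. -/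
structure MB (β μ : ℂ) (b : ℕ → ℤ[X]) (C : ℝ) : Prop where
  hμ : μ ≠ 0
  hC : 1 ≤ C
  deg : ∀ m, (b m).natDegree ≤ m
  len : ∀ m, L1 (b m) ≤ C ^ (m + 1) * m.factorial
  der : ∀ m, iteratedDeriv m th 0 = th 0 * μ ^ m * aeval β (b m)

/-- The linear combination of derivatives of `th` with the coefficients of `q`. -/
def hq (q : ℂ[X]) (z : ℂ) : ℂ := ∑ k ∈ Finset.range (q.natDegree + 1), q.coeff k * iteratedDeriv k th z

/-- The polynomials `W m = ∑ c k * b (k + m)`. -/
def W (D : ℕ) (b c : ℕ → ℤ[X]) (m : ℕ) : ℤ[X] := ∑ k ∈ Finset.range D, c k * b (k + m)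

/-- The polynomial with the coefficients `c k (β) / μ ^ k`. -/
def qc (β μ : ℂ) (D : ℕ) (c : ℕ → ℤ[X]) : ℂ[X] :=
  ∑ k ∈ Finset.range D, monomial k (aeval β (c k) * (μ⁻¹) ^ k)

end

end Pool.Agent.Helper12.TA
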