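import Pool.Agent.Helper12.TA.Df

/-!
PROJECT TA, block M, part a: the Taylor coefficients of the theta function.
-/

namespace Pool.Agent.Helper12.TA

open Polynomial Complex

noncomputable section

/-! Piece M-a1: the Gaussian -/

/-- The Taylor coefficients of `exp (- β u ^ 2 / 2)`, as polynomials in `β`. -/
def ge : ℕ → ℤ[X]
  | 0 => 1
  | 1 => 0
  | (n + 2) => -((n + 1 : ℤ) • (X * ge n))

theorem ge_deg (n : ℕ) : (ge n).natDegree ≤ n := by
  induction n using Nat.twoStepInduction with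
  | zero => rw [ge, natDegree_one]
  | one =>
    rw [ge, natDegree_zero]
    exact Nat.zero_le 1
  | more n ih _ =>
    rw [ge, natDegree_neg]
    refine (natDegree_smul_le _ _).trans (natDegree_mul_le.trans ?_)
    have := natDegree_X_le (R := ℤ)
    omega

private theorem Ma1_nm : Pool.Agent.Helper14.LC.IsNm L1 :=
  Pool.Agent.Helper14.LC.isNm_pN Pool.Agent.Helper14.LC.isNm_int

/-- PROOF. Induction: `L1 (ge (n + 2)) ≤ (n + 1) * L1 (ge n)` (`isNm_pN isNm_int`, `pN_X`). -/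
theorem ge_len (n : ℕ) : L1 (ge n) ≤ n.factorial := by
  induction n using Nat.twoStepInduction with
  | zero =>
    rw [ge, Nat.factorial_zero, Nat.cast_one]
    exact Ma1_nm.one
  | one =>
    rw [ge, Ma1_nm.zero]
    positivity
  | more n ih _ =>
    rw [ge, Ma1_nm.neg]
    have h1 : ((n + 1 : ℤ) • (X * ge n) : ℤ[X]) = C ((n : ℤ) + 1) * (X * ge n) := by
      rw [smul_eq_C_mul]
    have h2 : L1 (C ((n : ℤ) + 1)) = (n : ℝ) + 1 := by
      have h3 := Pool.Agent.Helper14.LC.pN_C Pool.Agent.Helper14.LC.isNm_int ((n : ℤ) + 1)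
      have h4 : L1 (C ((n : ℤ) + 1)) = |(((n : ℤ) + 1 : ℤ) : ℝ)| := h3
      rw [h4]
      push_cast
      exact abs_of_nonneg (by positivity)
    have h5 : L1 (X * ge n) ≤ L1 (ge n) := by
      refine (Ma1_nm.mul _ _).trans ?_
      have h6 : L1 (X : ℤ[X]) ≤ 1 :=
        Pool.Agent.Helper14.LC.pN_X Pool.Agent.Helper14.LC.isNm_int
      calc L1 (X : ℤ[X]) * L1 (ge n) ≤ 1 * L1 (ge n) :=
            mul_le_mul_of_nonneg_right h6 (Ma1_nm.nn _)
        _ = L1 (ge n) := one_mul _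
    rw [h1]
    refine (Ma1_nm.mul _ _).trans ?_
    rw [h2]
    have h7 : ((n + 2).factorial : ℝ) = (n + 2) * ((n + 1) * n.factorial) := by
      rw [Nat.factorial_succ, Nat.factorial_succ]
      push_cast
      ring
    rw [h7]
    have h8 : (0 : ℝ) ≤ (n.factorial : ℝ) := by positivity
    have h9 : ((n : ℝ) + 1) * L1 (X * ge n) ≤ ((n : ℝ) + 1) * n.factorial :=
      mul_le_mul_of_nonneg_left (h5.trans ih) (by positivity)
    have h10 : (0 : ℝ) ≤ ((n : ℝ) + 1) * ((n : ℝ) + 1) * n.factorial := by positivity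
    nlinarith

private theorem Ma1_hasDeriv (z : ℂ) : HasDerivAt (fun z : ℂ => cexp (-(Real.pi * z ^ 2 / 2)))
    (-Real.pi * (z * cexp (-(Real.pi * z ^ 2 / 2)))) z := by
  have h1 : HasDerivAt (fun z : ℂ => -(Real.pi * z ^ 2 / 2)) (-(Real.pi * (2 * z) / 2)) z := by
    have h2 := (((hasDerivAt_pow 2 z).const_mul (Real.pi : ℂ)).div_const 2).neg
    refine h2.congr_deriv ?_
    simp
  refine h1.cexp.congr_deriv ?_
  ring

private theorem Ma1_diff (n : ℕ) :
    Differentiable ℂ (iteratedDeriv n (fun z : ℂ => cexp (-(Real.pi * z ^ 2 / 2)))) := by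
  have h1 : ContDiff ℂ ⊤ (fun z : ℂ => cexp (-(Real.pi * z ^ 2 / 2))) := by fun_prop
  exact h1.differentiable_iteratedDeriv n (by exact_mod_cast WithTop.coe_lt_top _)

private theorem Ma1_rec (n : ℕ) (z : ℂ) :
    iteratedDeriv (n + 2) (fun z : ℂ => cexp (-(Real.pi * z ^ 2 / 2))) z =
      -Real.pi * (z * iteratedDeriv (n + 1) (fun z : ℂ => cexp (-(Real.pi * z ^ 2 / 2))) z +
        (n + 1) * iteratedDeriv n (fun z : ℂ => cexp (-(Real.pi * z ^ 2 / 2))) z) := by
  induction n generalizing z with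
  | zero =>
    have h1 : iteratedDeriv 1 (fun z : ℂ => cexp (-(Real.pi * z ^ 2 / 2))) =
        fun z => -Real.pi * (z * cexp (-(Real.pi * z ^ 2 / 2))) := by
      rw [iteratedDeriv_one]
      funext w
      exact (Ma1_hasDeriv w).deriv
    rw [zero_add, zero_add, iteratedDeriv_succ, h1, iteratedDeriv_zero]
    have h2 := ((hasDerivAt_id z).mul (Ma1_hasDeriv z)).const_mul (-(Real.pi : ℂ))
    refine h2.deriv.trans ?_
    simp only [id]
    push_cast
    ring
  | succ n ih =>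
    rw [iteratedDeriv_succ]
    have h1 : iteratedDeriv (n + 2) (fun z : ℂ => cexp (-(Real.pi * z ^ 2 / 2))) =
        fun z => -Real.pi * (z * iteratedDeriv (n + 1)
          (fun z : ℂ => cexp (-(Real.pi * z ^ 2 / 2))) z +
          (n + 1) * iteratedDeriv n (fun z : ℂ => cexp (-(Real.pi * z ^ 2 / 2))) z) := by
      funext w
      exact ih w
    have h2 : HasDerivAt (iteratedDeriv (n + 1) (fun z : ℂ => cexp (-(Real.pi * z ^ 2 / 2))))
        (iteratedDeriv (n + 2) (fun z : ℂ => cexp (-(Real.pi * z ^ 2 / 2))) z) z := by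
      rw [iteratedDeriv_succ (n := n + 1)]
      exact (Ma1_diff (n + 1) z).hasDerivAt
    have h3 : HasDerivAt (iteratedDeriv n (fun z : ℂ => cexp (-(Real.pi * z ^ 2 / 2))))
        (iteratedDeriv (n + 1) (fun z : ℂ => cexp (-(Real.pi * z ^ 2 / 2))) z) z := by
      rw [iteratedDeriv_succ (n := n)]
      exact (Ma1_diff n z).hasDerivAt
    have h4 := (((hasDerivAt_id z).mul h2).add (h3.const_mul ((n : ℂ) + 1))).const_mul
      (-(Real.pi : ℂ))
    have h5 : deriv (iteratedDeriv (n + 2) (fun z : ℂ => cexp (-(Real.pi * z ^ 2 / 2)))) z =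
        -Real.pi * (1 * iteratedDeriv (n + 1) (fun z : ℂ => cexp (-(Real.pi * z ^ 2 / 2))) z +
          z * iteratedDeriv (n + 2) (fun z : ℂ => cexp (-(Real.pi * z ^ 2 / 2))) z +
          (n + 1) * iteratedDeriv (n + 1) (fun z : ℂ => cexp (-(Real.pi * z ^ 2 / 2))) z) := by
      exact (congrArg (fun F => deriv F z) h1).trans h4.deriv
    have h6 : n + 1 + 1 = n + 2 := rfl
    rw [h6, h5]
    push_cast
    ring

/-- PROOF. `G z = exp (-π z ^ 2 / 2)` satisfies `G' z = -π z G z`, so the `(n + 2)`-nd derivative of `G` at `0` is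
`-π (n + 1)` times the `n`-th one (the `(n + 1)`-st derivative of `z G z`: prove for all `z`
`G^(n + 2) z = -π (z G^(n + 1) z + (n + 1) G^(n) z)` by induction). With `μ ^ 2 * β = π`. -/
theorem ge_der (β μ : ℂ) (h : μ ^ 2 * β = Real.pi) (n : ℕ) :
    iteratedDeriv n (fun z : ℂ => cexp (-(Real.pi * z ^ 2 / 2))) 0 = μ ^ n * aeval β (ge n) := by
  induction n using Nat.twoStepInduction with
  | zero =>
    rw [iteratedDeriv_zero, ge]
    simp
  | one =>
    rw [iteratedDeriv_one, (Ma1_hasDeriv 0).deriv, ge]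
    simp
  | more n ih _ =>
    rw [Ma1_rec, ih, ge, zero_mul, zero_add, ← h, map_neg, map_zsmul, map_mul, aeval_X,
      zsmul_eq_mul]
    push_cast
    ring

/-! Piece M-a2: the product with a Hurwitz series -/

/-- The product of the Hurwitz series with the coefficients `a` and `ge`. -/
def bm (a : ℕ → ℤ) (m : ℕ) : ℤ[X] :=
  ∑ i ∈ Finset.range (m + 1), ((m.choose i : ℤ) * a i) • ge (m - i)

theorem bm_deg (a : ℕ → ℤ) (m : ℕ) : (bm a m).natDegree ≤ m := by
  unfold bm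
  refine natDegree_sum_le_of_forall_le _ _ fun i _ => ?_
  exact (natDegree_smul_le _ _).trans ((ge_deg _).trans (Nat.sub_le _ _))

/-- PROOF. Cauchy estimate on the circle of radius `1`: `|a n| = |S^(n)(0)| / |μ| ^ n ≤ n ! * sup / |μ| ^ n`. -/
theorem a_bound (μ : ℂ) (hμ : μ ≠ 0) (S : ℂ → ℂ) (hS : Differentiable ℂ S) (a : ℕ → ℤ)
    (ha : ∀ n, iteratedDeriv n S 0 = μ ^ n * a n) :
    ∃ C : ℝ, 1 ≤ C ∧ ∀ n, |(a n : ℝ)| ≤ C ^ (n + 1) * n.factorial := by
  obtain ⟨M, hM⟩ := (isCompact_sphere (0 : ℂ) 1).exists_bound_of_continuousOn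
    hS.continuous.continuousOn
  have hμ0 : 0 < ‖μ‖ := norm_pos_iff.2 hμ
  refine ⟨max 1 (max M ‖μ‖⁻¹), le_max_left _ _, fun n => ?_⟩
  set C : ℝ := max 1 (max M ‖μ‖⁻¹) with hC
  have hC0 : 0 ≤ C := zero_le_one.trans (le_max_left _ _)
  have hMC : M ≤ C := (le_max_left _ _).trans (le_max_right _ _)
  have hμC : ‖μ‖⁻¹ ≤ C := (le_max_right _ _).trans (le_max_right _ _)
  have h1 := norm_iteratedDeriv_le_of_forall_mem_sphere_norm_le n one_pos
    hS.diffContOnCl hM
  rw [ha, one_pow, div_one, norm_mul, norm_pow, Complex.norm_intCast] at h1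
  have h2 : |(a n : ℝ)| = (‖μ‖⁻¹) ^ n * (‖μ‖ ^ n * |(a n : ℝ)|) := by
    rw [← mul_assoc, ← mul_pow, inv_mul_cancel₀ hμ0.ne', one_pow, one_mul]
  rw [h2]
  have h3 : (‖μ‖⁻¹) ^ n ≤ C ^ n := pow_le_pow_left₀ (by positivity) hμC n
  have h4 : ‖μ‖ ^ n * |(a n : ℝ)| ≤ n.factorial * C :=
    h1.trans (mul_le_mul_of_nonneg_left hMC (by positivity))
  calc (‖μ‖⁻¹) ^ n * (‖μ‖ ^ n * |(a n : ℝ)|) ≤ C ^ n * (n.factorial * C) :=
        mul_le_mul h3 h4 (by positivity) (by positivity)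
    _ = C ^ (n + 1) * n.factorial := by ring

/-- PROOF. `L1 (bm a m) ≤ ∑ i, (m choose i) * C ^ (i + 1) * i ! * (m - i) ! ≤ m ! * (m + 1) * C ^ (m + 1)`. -/
theorem bm_len (a : ℕ → ℤ) (C : ℝ) (hC : 1 ≤ C) (ha : ∀ n, |(a n : ℝ)| ≤ C ^ (n + 1) * n.factorial)
    (m : ℕ) : L1 (bm a m) ≤ (2 * C) ^ (m + 1) * m.factorial := by
  have hN := Pool.Agent.Helper14.LC.isNm_int
  have hP := Pool.Agent.Helper14.LC.isNm_pN hN
  have hC0 : 0 ≤ C := zero_le_one.trans hC
  have h1 : ∀ i ∈ Finset.range (m + 1),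
      L1 (((m.choose i : ℤ) * a i) • ge (m - i)) ≤ C ^ (m + 1) * m.factorial := by
    intro i hi
    have him : i ≤ m := Nat.lt_succ_iff.1 (Finset.mem_range.1 hi)
    have h2 : L1 (((m.choose i : ℤ) * a i) • ge (m - i)) ≤
        |(((m.choose i : ℤ) * a i : ℤ) : ℝ)| * L1 (ge (m - i)) := by
      rw [smul_eq_C_mul]
      refine (hP.mul _ _).trans (le_of_eq ?_)
      rw [Pool.Agent.Helper14.LC.pN_C hN]
      rfl
    have h3 : |(((m.choose i : ℤ) * a i : ℤ) : ℝ)| = (m.choose i : ℝ) * |(a i : ℝ)| := by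
      push_cast
      rw [abs_mul, abs_of_nonneg (Nat.cast_nonneg _)]
    have h4 : (m.choose i : ℝ) * i.factorial * (m - i).factorial = m.factorial := by
      exact_mod_cast Nat.choose_mul_factorial_mul_factorial him
    have h5 : C ^ (i + 1) ≤ C ^ (m + 1) := pow_le_pow_right₀ hC (by omega)
    have h6 : (0 : ℝ) ≤ L1 (ge (m - i)) := hP.nn _
    calc L1 (((m.choose i : ℤ) * a i) • ge (m - i))
        ≤ (m.choose i : ℝ) * |(a i : ℝ)| * L1 (ge (m - i)) := by
          rw [← h3]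
          exact h2
      _ ≤ (m.choose i : ℝ) * (C ^ (i + 1) * i.factorial) * (m - i).factorial := by
          refine mul_le_mul (mul_le_mul_of_nonneg_left (ha i) (by positivity)) (ge_len _) h6
            (by positivity)
      _ = C ^ (i + 1) * ((m.choose i : ℝ) * i.factorial * (m - i).factorial) := by ring
      _ = C ^ (i + 1) * m.factorial := by rw [h4]
      _ ≤ C ^ (m + 1) * m.factorial := mul_le_mul_of_nonneg_right h5 (by positivity)
  have h7 : L1 (bm a m) ≤ ∑ i ∈ Finset.range (m + 1), C ^ (m + 1) * (m.factorial : ℝ) :=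
    (hP.sum_le _ _).trans (Finset.sum_le_sum h1)
  rw [Finset.sum_const, Finset.card_range, nsmul_eq_mul] at h7
  refine h7.trans ?_
  have h8 : ((m + 1 : ℕ) : ℝ) ≤ 2 ^ (m + 1) := by
    exact_mod_cast (Nat.lt_two_pow_self (n := m + 1)).le
  calc ((m + 1 : ℕ) : ℝ) * (C ^ (m + 1) * (m.factorial : ℝ))
      ≤ 2 ^ (m + 1) * (C ^ (m + 1) * (m.factorial : ℝ)) :=
        mul_le_mul_of_nonneg_right h8 (by positivity)
    _ = (2 * C) ^ (m + 1) * m.factorial := by rw [mul_pow]; ring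

/-- PROOF. Leibniz rule for `th z = (th 0) * (S z) * exp (-π z ^ 2 / 2)` and `ge_der`. -/
theorem bm_der (β μ : ℂ) (h : μ ^ 2 * β = Real.pi) (S : ℂ → ℂ) (hS : Differentiable ℂ S)
    (hth : ∀ z, th z = th 0 * S z * cexp (-(Real.pi * z ^ 2 / 2))) (a : ℕ → ℤ)
    (ha : ∀ n, iteratedDeriv n S 0 = μ ^ n * a n) (m : ℕ) :
    iteratedDeriv m th 0 = th 0 * μ ^ m * aeval β (bm a m) := by
  have hG : Differentiable ℂ fun z : ℂ => cexp (-(Real.pi * z ^ 2 / 2)) := by fun_prop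
  have h1 : th = fun z => th 0 * (S z * cexp (-(Real.pi * z ^ 2 / 2))) := by
    funext z
    rw [hth z]
    ring
  have h2 : iteratedDeriv m th 0 =
      th 0 * iteratedDeriv m (fun z => S z * cexp (-(Real.pi * z ^ 2 / 2))) 0 := by
    conv_lhs => rw [h1]
    exact iteratedDeriv_const_mul_field (th 0) _
  rw [h2, iteratedDeriv_fun_mul hS.contDiff.contDiffAt hG.contDiff.contDiffAt, mul_assoc]
  congr 1
  unfold bm
  rw [map_sum, Finset.mul_sum]
  refine Finset.sum_congr rfl fun i hi => ?_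
  have h3 : μ ^ m = μ ^ i * μ ^ (m - i) := by
    rw [← pow_add, Nat.add_sub_cancel' (Nat.lt_succ_iff.1 (Finset.mem_range.1 hi))]
  rw [ha i, ge_der β μ h (m - i), h3, map_zsmul, zsmul_eq_mul]
  push_cast
  ring

/-! Conclusion of part a -/

theorem MB_of_Hurwitz (β μ : ℂ) (hμ : μ ≠ 0) (h : μ ^ 2 * β = Real.pi) (S : ℂ → ℂ)
    (hS : Differentiable ℂ S) (hth : ∀ z, th z = th 0 * S z * cexp (-(Real.pi * z ^ 2 / 2)))
    (a : ℕ → ℤ) (ha : ∀ n, iteratedDeriv n S 0 = μ ^ n * a n) :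
    ∃ (b : ℕ → ℤ[X]) (C : ℝ), MB β μ b C := by
  obtain ⟨C, hC, h1⟩ := a_bound μ hμ S hS a ha
  exact ⟨bm a, 2 * C, hμ, by linarith, bm_deg a, bm_len a C hC h1, bm_der β μ h S hS hth a ha⟩

end

end Pool.Agent.Helper12.TA
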