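import Pool.Agent.Helper12.TA.Df

/-!
PROJECT TA, block M, part b: the theta function on the line and its derivatives.
-/

namespace Pool.Agent.Helper12.TA

open Polynomial Complex

noncomputable section

/-! Piece M-b1: growth -/

theorem th_diff : Differentiable ℂ th := fun z =>
  differentiableAt_jacobiTheta₂_fst z (by simp)

theorem th_add_one (z : ℂ) : th (z + 1) = th z := jacobiTheta₂_add_left z I

/-- PROOF. `norm_jacobiTheta_sub_one_le` at `I` (`jacobiTheta_eq_jacobiTheta₂`): `2 / (1 - exp (-π)) * exp (-π) < 1`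
(`exp π > 3` suffices, as `exp (-π) < 1 / 4`). -/
theorem th_zero_ne : th 0 ≠ 0 := by
  intro h0
  have h0' : jacobiTheta₂ 0 I = 0 := h0
  have hpos : 0 < (I : ℂ).im := by simp
  have h1 := norm_jacobiTheta_sub_one_le hpos
  rw [jacobiTheta_eq_jacobiTheta₂, h0'] at h1
  have hpi := Real.pi_gt_three
  have him : (I : ℂ).im = 1 := I_im
  rw [him, mul_one] at h1
  have h2 : Real.exp (-Real.pi) < 1 / 3 := by
    rw [Real.exp_neg, ← one_div]
    have h5 := Real.add_one_le_exp Real.pi
    apply one_div_lt_one_div_of_lt (by norm_num)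
    linarith
  have h6 : (0 : ℝ) < Real.exp (-Real.pi) := Real.exp_pos _
  have h7 : 2 / (1 - Real.exp (-Real.pi)) * Real.exp (-Real.pi) < 1 := by
    rw [div_mul_eq_mul_div, div_lt_one (by linarith)]
    linarith
  have h8 : ‖(0 : ℂ) - 1‖ = 1 := by
    rw [zero_sub, norm_neg, norm_one]
  rw [h8] at h1
  linarith

/-- PROOF. The norm of the `n`-th term is `exp (-π n ^ 2 - 2 π n y) ≤ exp (2 π y ^ 2) * exp (-(π / 2) n ^ 2)`
(`norm_jacobiTheta₂_term`). -/
theorem th_growth : ∃ C : ℝ, 1 ≤ C ∧ ∀ z : ℂ, ‖th z‖ ≤ C * Real.exp (2 * Real.pi * z.im ^ 2) := by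
  have hs0 := summable_pow_mul_jacobiTheta₂_term_bound 0 (T := 1 / 2) (by norm_num) 0
  have hs : Summable (fun n : ℤ => Real.exp (-(Real.pi / 2) * (n : ℝ) ^ 2)) := by
    refine hs0.congr (fun n => ?_)
    rw [pow_zero, one_mul]
    congr 1
    ring
  refine ⟨1 + ∑' n : ℤ, Real.exp (-(Real.pi / 2) * (n : ℝ) ^ 2), ?_, ?_⟩
  · have : 0 ≤ ∑' n : ℤ, Real.exp (-(Real.pi / 2) * (n : ℝ) ^ 2) :=
      tsum_nonneg (fun n : ℤ => (Real.exp_pos (-(Real.pi / 2) * (n : ℝ) ^ 2)).le)
    linarith
  · intro z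
    have hle : ∀ n : ℤ, ‖jacobiTheta₂_term n z I‖ ≤
        Real.exp (2 * Real.pi * z.im ^ 2) * Real.exp (-(Real.pi / 2) * (n : ℝ) ^ 2) := by
      intro n
      rw [norm_jacobiTheta₂_term, ← Real.exp_add, Real.exp_le_exp, I_im]
      have hpi := Real.pi_pos
      nlinarith [mul_nonneg hpi.le (sq_nonneg ((n : ℝ) + 2 * z.im))]
    have hs2 := hs.mul_left (Real.exp (2 * Real.pi * z.im ^ 2))
    have h1 : ‖th z‖ ≤ ∑' n : ℤ, Real.exp (2 * Real.pi * z.im ^ 2) *
        Real.exp (-(Real.pi / 2) * (n : ℝ) ^ 2) := by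
      show ‖∑' n : ℤ, jacobiTheta₂_term n z I‖ ≤ _
      exact tsum_of_norm_bounded hs2.hasSum hle
    rw [tsum_mul_left] at h1
    have h2 := Real.exp_pos (2 * Real.pi * z.im ^ 2)
    nlinarith

/-- PROOF. Cauchy estimate on the circle of radius `1` around `z`
(`Complex.norm_iteratedDeriv_le_of_forall_mem_sphere_norm_le`); `(|y| + 1) ^ 2 ≤ 2 y ^ 2 + 2`. -/
theorem th_der_growth : ∃ C : ℝ, 1 ≤ C ∧ ∀ (k : ℕ) (z : ℂ),
    ‖iteratedDeriv k th z‖ ≤ C * k.factorial * Real.exp (4 * Real.pi * z.im ^ 2) := by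
  obtain ⟨C, hC, hb⟩ := th_growth
  have hpi := Real.pi_pos
  refine ⟨C * Real.exp (4 * Real.pi), ?_, ?_⟩
  · have h1 : 1 ≤ Real.exp (4 * Real.pi) := Real.one_le_exp (by positivity)
    nlinarith
  · intro k z
    have h2 : ∀ w ∈ Metric.sphere z 1, ‖th w‖ ≤
        C * Real.exp (4 * Real.pi) * Real.exp (4 * Real.pi * z.im ^ 2) := by
      intro w hw
      refine (hb w).trans ?_
      rw [mul_assoc C, ← Real.exp_add]
      apply mul_le_mul_of_nonneg_left _ (by linarith)
      rw [Real.exp_le_exp]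
      have h3 : |(w - z).im| ≤ 1 := by
        refine (Complex.abs_im_le_norm (w - z)).trans ?_
        rw [← dist_eq_norm]
        exact le_of_eq hw
      rw [sub_im] at h3
      have h4 : (w.im - z.im) ^ 2 ≤ 1 := by
        rw [← sq_abs]
        nlinarith [abs_nonneg (w.im - z.im)]
      have h5 : w.im ^ 2 ≤ 2 * z.im ^ 2 + 2 := by
        nlinarith [sq_nonneg (w.im - 2 * z.im)]
      nlinarith
    have h6 := Complex.norm_iteratedDeriv_le_of_forall_mem_sphere_norm_le k (zero_lt_one)
      th_diff.diffContOnCl h2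
    rw [one_pow, div_one] at h6
    refine h6.trans (le_of_eq ?_)
    ring

/-! Piece M-b2: linear combinations of derivatives -/

theorem der_diff (k : ℕ) : Differentiable ℂ (iteratedDeriv k th) := by
  have h : ContDiff ℂ (k + 1 : ℕ) th := th_diff.contDiff
  exact h.differentiable_iteratedDeriv k (by exact_mod_cast Nat.lt_succ_self k)

theorem der_add_one (k : ℕ) (z : ℂ) : iteratedDeriv k th (z + 1) = iteratedDeriv k th z := by
  have h : (fun z : ℂ => th (z + 1)) = th := funext th_add_one
  have h2 := congrFun (iteratedDeriv_comp_add_const k th 1) z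
  rw [h] at h2
  exact h2.symm

theorem hq_diff (q : ℂ[X]) : Differentiable ℂ (hq q) := by
  unfold hq
  exact Differentiable.fun_sum fun k _ => (der_diff k).const_mul _

theorem hq_add_one (q : ℂ[X]) (z : ℂ) : hq q (z + 1) = hq q z := by
  unfold hq
  exact Finset.sum_congr rfl fun k _ => by rw [der_add_one]

theorem hq_der (q : ℂ[X]) (m : ℕ) (z : ℂ) :
    iteratedDeriv m (hq q) z =
      ∑ k ∈ Finset.range (q.natDegree + 1), q.coeff k * iteratedDeriv (k + m) th z := by
  induction m generalizing z with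
  | zero =>
    rw [iteratedDeriv_zero]
    rfl
  | succ m ih =>
    rw [iteratedDeriv_succ, funext ih]
    rw [deriv_fun_sum fun k _ => ((der_diff (k + m)).const_mul _).differentiableAt]
    refine Finset.sum_congr rfl fun k _ => ?_
    rw [deriv_const_mul _ (der_diff (k + m)).differentiableAt, ← iteratedDeriv_succ, add_assoc]

theorem hq_growth : ∃ C : ℝ, 1 ≤ C ∧ ∀ (q : ℂ[X]) (z : ℂ),
    ‖hq q z‖ ≤ C * (∑ k ∈ Finset.range (q.natDegree + 1), ‖q.coeff k‖) * q.natDegree.factorial *
      Real.exp (4 * Real.pi * z.im ^ 2) := by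
  obtain ⟨C, hC, h⟩ := th_der_growth
  refine ⟨C, hC, fun q z => ?_⟩
  have h1 : ∀ k ∈ Finset.range (q.natDegree + 1), ‖q.coeff k * iteratedDeriv k th z‖ ≤
      ‖q.coeff k‖ * (C * q.natDegree.factorial * Real.exp (4 * Real.pi * z.im ^ 2)) := by
    intro k hk
    rw [norm_mul]
    refine mul_le_mul_of_nonneg_left ((h k z).trans ?_) (norm_nonneg _)
    have h2 : (k.factorial : ℝ) ≤ q.natDegree.factorial := by
      exact_mod_cast Nat.factorial_le (Nat.lt_succ_iff.1 (Finset.mem_range.1 hk))
    have h3 := (Real.exp_pos (4 * Real.pi * z.im ^ 2)).le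
    gcongr
  refine (norm_sum_le _ _).trans ((Finset.sum_le_sum h1).trans ?_)
  rw [← Finset.sum_mul]
  exact le_of_eq (by ring)

/-! Piece M-b3: Fourier coefficients -/

/-- PROOF. Termwise integration (`intervalIntegral.hasSum_integral_of_summable_norm` or the like): the terms are
`exp (2 π i n x - π n ^ 2)`, the sum of the sup norms is finite; `∫ exp (2 π i k x) = 0` for `k ≠ 0`
(`integral_exp_mul_complex`). -/
theorem th_fourier (n : ℤ) :
    ∫ x in (0 : ℝ)..1, th x * cexp (-(2 * Real.pi * I * n * x)) = cexp (-(Real.pi * n ^ 2)) := by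
  have hterm : ∀ (m : ℤ) (x : ℝ), jacobiTheta₂_term m x I * cexp (-(2 * Real.pi * I * n * x)) =
      cexp (-(Real.pi * m ^ 2)) * cexp (2 * Real.pi * I * ((m : ℂ) - n) * x) := by
    intro m x
    rw [jacobiTheta₂_term, ← Complex.exp_add, ← Complex.exp_add]
    congr 1
    linear_combination ((Real.pi : ℂ) * (m : ℂ) ^ 2) * I_sq
  have hnorm : ∀ (m : ℤ) (x : ℝ), ‖jacobiTheta₂_term m x I * cexp (-(2 * Real.pi * I * n * x))‖ =
      Real.exp (-(Real.pi * m ^ 2)) := by
    intro m x
    rw [hterm, norm_mul, Complex.norm_exp, Complex.norm_exp]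
    have h1 : (-((Real.pi : ℂ) * (m : ℂ) ^ 2)).re = -(Real.pi * m ^ 2) := by
      rw [← Complex.ofReal_intCast, ← Complex.ofReal_pow, ← Complex.ofReal_mul, Complex.neg_re,
        Complex.ofReal_re]
    have h2 : (2 * Real.pi * I * ((m : ℂ) - n) * x).re = 0 := by
      have h3 : 2 * Real.pi * I * ((m : ℂ) - n) * x =
          ((2 * Real.pi * ((m : ℝ) - n) * x : ℝ) : ℂ) * I := by
        push_cast
        ring
      rw [h3, Complex.re_ofReal_mul, Complex.I_re, mul_zero]
    rw [h1, h2, Real.exp_zero, mul_one]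
  have hsum : Summable fun m : ℤ => Real.exp (-(Real.pi * m ^ 2)) := by
    have h1 := ((summable_jacobiTheta₂_term_iff 0 I).2 (by simp)).norm
    refine h1.congr fun m => ?_
    rw [norm_jacobiTheta₂_term]
    congr 1
    simp
  have hint : ∀ m : ℤ, ∫ x in (0 : ℝ)..1,
      jacobiTheta₂_term m x I * cexp (-(2 * Real.pi * I * n * x)) =
      if m = n then cexp (-(Real.pi * n ^ 2)) else 0 := by
    intro m
    simp only [hterm]
    rw [intervalIntegral.integral_const_mul]
    split_ifs with hmn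
    · subst hmn
      simp
    · have hc : 2 * Real.pi * I * ((m : ℂ) - n) ≠ 0 := by
        refine mul_ne_zero two_pi_I_ne_zero ?_
        rw [sub_ne_zero]
        exact_mod_cast hmn
      rw [integral_exp_mul_complex hc]
      have h1 : 2 * Real.pi * I * ((m : ℂ) - n) * ((1 : ℝ) : ℂ) =
          ((m - n : ℤ) : ℂ) * (2 * Real.pi * I) := by
        push_cast
        ring
      rw [h1, Complex.exp_int_mul_two_pi_mul_I]
      simp
  have h := intervalIntegral.hasSum_integral_of_dominated_convergence (μ := MeasureTheory.volume)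
    (a := 0) (b := 1)
    (F := fun (m : ℤ) (x : ℝ) => jacobiTheta₂_term m x I * cexp (-(2 * Real.pi * I * n * x)))
    (f := fun x : ℝ => th x * cexp (-(2 * Real.pi * I * n * x)))
    (fun (m : ℤ) (_ : ℝ) => Real.exp (-(Real.pi * m ^ 2)))
    (fun m => by
      refine Continuous.aestronglyMeasurable ?_
      simp only [hterm]
      fun_prop)
    (fun m => Filter.Eventually.of_forall fun x _ => (hnorm m x).le)
    (Filter.Eventually.of_forall fun x _ => hsum)
    intervalIntegrable_const
    (Filter.Eventually.of_forall fun x _ =>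
      (hasSum_jacobiTheta₂_term (x : ℂ) (by simp)).mul_right _)
  simp only [hint] at h
  exact h.unique (hasSum_ite_eq n _)

/-- PROOF. Induction on `k`: integration by parts (`intervalIntegral.integral_mul_deriv_eq_deriv_mul`), the
boundary terms cancel (`der_add_one`). -/
theorem der_fourier (k : ℕ) (n : ℤ) :
    ∫ x in (0 : ℝ)..1, iteratedDeriv k th x * cexp (-(2 * Real.pi * I * n * x)) =
      (2 * Real.pi * I * n) ^ k * cexp (-(Real.pi * n ^ 2)) := by
  induction k with
  | zero =>
    simp only [iteratedDeriv_zero, pow_zero, one_mul]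
    exact th_fourier n
  | succ k ih =>
    have hu : ∀ x : ℝ, HasDerivAt (fun y : ℝ => cexp (-(2 * Real.pi * I * n * y)))
        (-(2 * Real.pi * I * n) * cexp (-(2 * Real.pi * I * n * x))) x := by
      intro x
      have h1 : HasDerivAt (fun z : ℂ => -(2 * Real.pi * I * n * z)) (-(2 * Real.pi * I * n))
          (x : ℂ) := by
        have h2 := ((hasDerivAt_id (x : ℂ)).const_mul (2 * Real.pi * I * n)).neg
        rw [mul_one] at h2
        exact h2
      have h3 := h1.cexp.comp_ofReal
      convert h3 using 1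
      ring
    have hv : ∀ x : ℝ, HasDerivAt (fun y : ℝ => iteratedDeriv k th y)
        (iteratedDeriv (k + 1) th x) x := by
      intro x
      have h1 := (der_diff k (x : ℂ)).hasDerivAt
      rw [← iteratedDeriv_succ] at h1
      exact h1.comp_ofReal
    have hu' : Continuous fun x : ℝ => cexp (-(2 * Real.pi * I * n * x)) := by fun_prop
    have hv' : Continuous fun x : ℝ => iteratedDeriv (k + 1) th x :=
      (der_diff (k + 1)).continuous.comp Complex.continuous_ofReal
    have h := intervalIntegral.integral_mul_deriv_eq_deriv_mul (a := 0) (b := 1)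
      (fun x _ => hu x) (fun x _ => hv x)
      ((continuous_const.mul hu').intervalIntegrable _ _) (hv'.intervalIntegrable _ _)
    have h1 : cexp (-(2 * Real.pi * I * n * ((1 : ℝ) : ℂ))) = 1 := by
      have h2 : -(2 * Real.pi * I * n * ((1 : ℝ) : ℂ)) = ((-n : ℤ) : ℂ) * (2 * Real.pi * I) := by
        push_cast
        ring
      rw [h2, Complex.exp_int_mul_two_pi_mul_I]
    have h2 : cexp (-(2 * Real.pi * I * n * ((0 : ℝ) : ℂ))) = 1 := by simp
    have h3 : iteratedDeriv k th ((1 : ℝ) : ℂ) = iteratedDeriv k th ((0 : ℝ) : ℂ) := by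
      have h4 := der_add_one k 0
      rw [zero_add] at h4
      rw [Complex.ofReal_one, Complex.ofReal_zero]
      exact h4
    rw [h1, h2, h3, sub_self, zero_sub] at h
    have h5 : (∫ x in (0 : ℝ)..1, iteratedDeriv (k + 1) th x * cexp (-(2 * Real.pi * I * n * x))) =
        ∫ x in (0 : ℝ)..1, cexp (-(2 * Real.pi * I * n * x)) * iteratedDeriv (k + 1) th x := by
      refine intervalIntegral.integral_congr fun x _ => ?_
      exact mul_comm _ _
    have h6 : (∫ x in (0 : ℝ)..1, -(2 * Real.pi * I * n) * cexp (-(2 * Real.pi * I * n * x)) *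
        iteratedDeriv k th x) = -(2 * Real.pi * I * n) * ∫ x in (0 : ℝ)..1,
          iteratedDeriv k th x * cexp (-(2 * Real.pi * I * n * x)) := by
      rw [← intervalIntegral.integral_const_mul]
      refine intervalIntegral.integral_congr fun x _ => ?_
      ring
    rw [h5, h, h6, ih]
    ring

/-- PROOF. `q.eval (2 π i n) * exp (-π n ^ 2) = ∫ hq q x * exp (-2 π i n x)`, of norm at most `M`. -/
theorem hq_coef (q : ℂ[X]) (M : ℝ) (hM : ∀ x : ℝ, ‖hq q x‖ ≤ M) (n : ℤ) :
    ‖q.eval (2 * Real.pi * I * n)‖ ≤ M * Real.exp (Real.pi * n ^ 2) := by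
  have hcont : ∀ k, Continuous fun x : ℝ => iteratedDeriv k th x := fun k =>
    (der_diff k).continuous.comp Complex.continuous_ofReal
  have hu' : Continuous fun x : ℝ => cexp (-(2 * Real.pi * I * n * x)) := by fun_prop
  have h1 : (∫ x in (0 : ℝ)..1, hq q x * cexp (-(2 * Real.pi * I * n * x))) =
      q.eval (2 * Real.pi * I * n) * cexp (-(Real.pi * n ^ 2)) := by
    have h2 : ∀ x : ℝ, hq q x * cexp (-(2 * Real.pi * I * n * x)) =
        ∑ k ∈ Finset.range (q.natDegree + 1), q.coeff k *
          (iteratedDeriv k th x * cexp (-(2 * Real.pi * I * n * x))) := by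
      intro x
      unfold hq
      rw [Finset.sum_mul]
      exact Finset.sum_congr rfl fun k _ => mul_assoc _ _ _
    simp only [h2]
    rw [intervalIntegral.integral_finsetSum fun k _ => Continuous.intervalIntegrable
      (show Continuous fun x : ℝ => q.coeff k *
          (iteratedDeriv k th x * cexp (-(2 * Real.pi * I * n * x))) from
        continuous_const.mul ((hcont k).mul hu')) _ _]
    rw [Polynomial.eval_eq_sum_range, Finset.sum_mul]
    refine Finset.sum_congr rfl fun k _ => ?_
    rw [intervalIntegral.integral_const_mul, der_fourier]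
    ring
  have hexp : ∀ x : ℝ, ‖cexp (-(2 * Real.pi * I * n * x))‖ = 1 := by
    intro x
    have h3 : -(2 * Real.pi * I * n * x) = ((-(2 * Real.pi * n * x) : ℝ) : ℂ) * I := by
      push_cast
      ring
    rw [h3, Complex.norm_exp_ofReal_mul_I]
  have h4 : ‖∫ x in (0 : ℝ)..1, hq q x * cexp (-(2 * Real.pi * I * n * x))‖ ≤
      M * |(1 : ℝ) - 0| :=
    intervalIntegral.norm_integral_le_of_norm_le_const fun x _ => by
      rw [norm_mul, hexp, mul_one]
      exact hM x
  rw [h1, norm_mul, Complex.norm_exp] at h4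
  have h5 : (-((Real.pi : ℂ) * (n : ℂ) ^ 2)).re = -(Real.pi * n ^ 2) := by
    rw [← Complex.ofReal_intCast, ← Complex.ofReal_pow, ← Complex.ofReal_mul, Complex.neg_re,
      Complex.ofReal_re]
  rw [h5, sub_zero, abs_one, mul_one, Real.exp_neg] at h4
  have h6 : 0 < Real.exp (Real.pi * n ^ 2) := Real.exp_pos _
  rwa [← div_eq_mul_inv, div_le_iff₀ h6] at h4

end

end Pool.Agent.Helper12.TA
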