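import Mathlib

/-!
PROJECT TA, block M, part c: the three lines theorem and the Schwarz lemma for periodic functions.
-/

namespace Pool.Agent.Helper12.TA

open Complex

noncomputable section

/-! Piece M-c1 -/

/-- PROOF. Three lines theorem (`Complex.HadamardThreeLines.norm_le_interp_of_mem_verticalClosedStrip'` or the variant
for the strip `[0, 1]`) for `w ↦ h (x + i Y w)` or `w ↦ h (- i Y w)`, both for `Y` and `-Y`; the function is bounded in
the strip by `hK`. `‖h z‖ ≤ M ^ (1 - |y| / Y) * K ^ (|y| / Y) = M * (K / M) ^ (|y| / Y)`, and `K / M ≥ 1`. -/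
theorem three (h : ℂ → ℂ) (hh : Differentiable ℂ h) (M K Y : ℝ) (hY : 0 < Y) (hM : 0 < M)
    (hMK : M ≤ K) (h0 : ∀ x : ℝ, ‖h x‖ ≤ M) (hK : ∀ z : ℂ, |z.im| ≤ Y → ‖h z‖ ≤ K) (z : ℂ) (r : ℝ)
    (hr : r ≤ Y) (hz : |z.im| ≤ r) : ‖h z‖ ≤ M * (K / M) ^ (r / Y) := by
  have hK0 : 0 < K := hM.trans_le hMK
  have main : ∀ σ : ℂ, (σ = 1 ∨ σ = -1) → (-(σ * I) * z).re = |z.im| →
      ‖h z‖ ≤ M * (K / M) ^ (r / Y) := by
    intro σ hσ hre
    have hσ2 : (σ * I) * (-(σ * I) * z) = z := by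
      rcases hσ with rfl | rfl
      · linear_combination (-z) * Complex.I_sq
      · linear_combination (-z) * Complex.I_sq
    have him : ∀ w : ℂ, |((σ * I) * w).im| = |w.re| := by
      intro w
      rcases hσ with rfl | rfl
      · simp
      · simp
    have hd : Differentiable ℂ (fun w => h ((σ * I) * w)) :=
      hh.comp (differentiable_id.const_mul _)
    have h1 := Complex.HadamardThreeLines.norm_le_interp_of_mem_verticalClosedStrip'
      (f := fun w => h ((σ * I) * w)) (z := -(σ * I) * z) (a := M) (b := K) hY ?_ hd.diffContOnCl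
      ?_ ?_ ?_
    · beta_reduce at h1
      rw [hσ2, hre, sub_zero, sub_zero] at h1
      have e1 : M ^ (1 - |z.im| / Y) * K ^ (|z.im| / Y) = M * (K / M) ^ (|z.im| / Y) := by
        rw [Real.div_rpow hK0.le hM.le, Real.rpow_sub hM, Real.rpow_one]
        ring
      rw [e1] at h1
      refine h1.trans (mul_le_mul_of_nonneg_left ?_ hM.le)
      exact Real.rpow_le_rpow_of_exponent_le ((one_le_div hM).2 hMK)
        (div_le_div_of_nonneg_right hz hY.le)
    · rw [Complex.HadamardThreeLines.verticalClosedStrip, Set.mem_preimage, hre]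
      exact ⟨abs_nonneg _, hz.trans hr⟩
    · refine ⟨K, ?_⟩
      rintro _ ⟨w, hw, rfl⟩
      rw [Complex.HadamardThreeLines.verticalClosedStrip, Set.mem_preimage] at hw
      refine hK _ ?_
      rw [him, abs_of_nonneg hw.1]
      exact hw.2
    · intro w hw
      have hw0 : w.re = 0 := hw
      have e2 : (σ * I) * w = ((((σ * I) * w).re : ℝ) : ℂ) := by
        have e3 : ((σ * I) * w).im = 0 := by
          have := him w
          rwa [hw0, abs_zero, abs_eq_zero] at this
        exact Complex.ext (by simp) (by rw [Complex.ofReal_im]; exact e3)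
      beta_reduce
      rw [e2]
      exact h0 _
    · intro w hw
      have hw0 : w.re = Y := hw
      refine hK _ ?_
      rw [him, hw0, abs_of_pos hY]
  rcases le_total 0 z.im with hy | hy
  · refine main 1 (Or.inl rfl) ?_
    rw [abs_of_nonneg hy]
    simp
  · refine main (-1) (Or.inr rfl) ?_
    rw [abs_of_nonpos hy]
    simp

/-! Piece M-c2 -/

/-- PROOF. The Taylor polynomial `p` of degree `< T` at `0` is bounded by `ε * 2 ^ T` for `|z| = 2` and by `2 ε` for
`|z| ≤ 1 / 2`; `h - p` vanishes to the order `T` at `0`: `|h z - p z| ≤ (|z| / 2) ^ T * sup`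
(maximum principle for `(h - p) / z ^ T`, e.g. with `Helper12` or Mathlib lemmas on the order of vanishing; or by
induction on `T` with `Complex.norm_dslope_le_div_of_mapsTo_ball`-like lemmas; `dslope`). -/
theorem schwarz (h : ℂ → ℂ) (hh : Differentiable ℂ h) (G ε : ℝ) (T : ℕ) (hε : 0 ≤ ε)
    (hG : ∀ z : ℂ, ‖z‖ = 2 → ‖h z‖ ≤ G) (hT : ∀ m < T, ‖iteratedDeriv m h 0‖ ≤ ε * m.factorial)
    (z : ℂ) (hz : ‖z‖ ≤ 1 / 2) : ‖h z‖ ≤ 3 * ε + G / 4 ^ T := by
  have hmax : ∀ (q : ℂ → ℂ) (B : ℝ), Differentiable ℂ q → (∀ w : ℂ, ‖w‖ = 2 → ‖q w‖ ≤ B) →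
      ∀ w : ℂ, ‖w‖ < 2 → ‖q w‖ ≤ B := by
    intro q B hq hB w hw
    refine Complex.norm_le_of_forall_mem_frontier_norm_le (U := Metric.ball 0 2)
      Metric.isBounded_ball hq.diffContOnCl (fun u hu => hB u ?_)
      (subset_closure (mem_ball_zero_iff.2 hw))
    rw [frontier_ball _ two_ne_zero, mem_sphere_zero_iff_norm] at hu
    exact hu
  cases T with
  | zero =>
    have h1 := hmax h G hh hG z (by linarith)
    rw [pow_zero, div_one]
    linarith
  | succ n =>
    set a : ℕ → ℂ := fun m => iteratedDeriv m h 0 / (m.factorial : ℂ) with ha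
    have hae : ∀ m ∈ Finset.range (n + 1), ‖a m‖ ≤ ε := by
      intro m hm
      rw [ha]
      simp only
      rw [norm_div, Complex.norm_natCast, div_le_iff₀ (Nat.cast_pos.2 m.factorial_pos)]
      exact hT m (Finset.mem_range.1 hm)
    set P : ℂ → ℂ := fun w => ∑ m ∈ Finset.range (n + 1), a m * w ^ m with hP
    have hPn : ∀ w, ‖P w‖ ≤ ε * ∑ m ∈ Finset.range (n + 1), ‖w‖ ^ m := by
      intro w
      rw [hP, Finset.mul_sum]
      refine norm_sum_le_of_le _ fun m hm => ?_
      rw [norm_mul, norm_pow]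
      exact mul_le_mul_of_nonneg_right (hae m hm) (pow_nonneg (norm_nonneg _) _)
    have hPd : Differentiable ℂ P := by
      rw [hP]
      exact Differentiable.fun_sum fun m _ => (differentiable_id.pow m).const_mul (a m)
    set q : ℂ → ℂ := fun w => h w - P w with hq
    have hqd : Differentiable ℂ q := hh.sub hPd
    have hser := (hh.analyticAt 0).hasFPowerSeriesAt
    have hO := hser.isBigO_sub_partialSum_pow (n + 1)
    have hpart : ∀ w : ℂ, (FormalMultilinearSeries.ofScalars ℂ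
        (fun n => iteratedDeriv n h 0 / (n.factorial : ℂ))).partialSum (n + 1) w = P w := by
      intro w
      unfold FormalMultilinearSeries.partialSum
      rw [hP]
      refine Finset.sum_congr rfl fun m _ => ?_
      rw [FormalMultilinearSeries.ofScalars_apply_eq, smul_eq_mul]
    have hO2 : q =O[nhds 0] fun w : ℂ => ‖w‖ ^ (n + 1) := by
      refine hO.congr_left fun w => ?_
      rw [hpart, zero_add]
    have hP0 : P 0 = h 0 := by
      rw [hP]
      simp only
      rw [Finset.sum_range_succ', Finset.sum_eq_zero fun m _ => by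
        rw [pow_succ, mul_zero, mul_zero]]
      rw [pow_zero, mul_one, zero_add, ha]
      simp
    have hq0 : q 0 = 0 := by
      rw [hq]
      simp only
      rw [hP0, sub_self]
    have ho : (fun w => q w - q 0) =o[nhds 0] fun w : ℂ => ‖w - 0‖ ^ n := by
      simp only [hq0, sub_zero]
      exact hO2.trans_isLittleO (Asymptotics.isLittleO_norm_pow_norm_pow (Nat.lt_succ_self n))
    have hsph : ∀ w : ℂ, ‖w‖ = 2 → ‖q w‖ ≤ G + ε * 2 ^ (n + 1) := by
      intro w hw
      have h2 := hPn w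
      rw [hw, geom_sum_eq (by norm_num)] at h2
      have h3 : ε * ((2 ^ (n + 1) - 1) / (2 - 1)) ≤ ε * 2 ^ (n + 1) := by
        refine mul_le_mul_of_nonneg_left ?_ hε
        rw [div_le_iff₀ (by norm_num)]
        linarith
      calc ‖q w‖ ≤ ‖h w‖ + ‖P w‖ := norm_sub_le _ _
        _ ≤ G + ε * 2 ^ (n + 1) := add_le_add (hG w hw) (h2.trans h3)
    have hmaps : Set.MapsTo q (Metric.ball 0 2) (Metric.closedBall (q 0) (G + ε * 2 ^ (n + 1))) := by
      intro w hw
      rw [hq0, mem_closedBall_zero_iff]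
      exact hmax q _ hqd hsph w (mem_ball_zero_iff.1 hw)
    have hz2 : z ∈ Metric.ball (0 : ℂ) 2 := mem_ball_zero_iff.2 (by linarith)
    have hS := Complex.dist_le_mul_div_pow_of_mapsTo_ball_of_isLittleO hqd.differentiableOn
      hmaps ho hz2
    rw [hq0, dist_zero_right, dist_zero_right] at hS
    have hG0 : 0 ≤ G := by
      have h2 := hG 2 (by norm_num)
      exact (norm_nonneg _).trans h2
    have h4 : (‖z‖ / 2) ^ (n + 1) ≤ (1 / 4) ^ (n + 1) :=
      pow_le_pow_left₀ (by positivity) (by linarith) _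
    have h5 : ‖q z‖ ≤ (G + ε * 2 ^ (n + 1)) * (1 / 4) ^ (n + 1) :=
      hS.trans (mul_le_mul_of_nonneg_left h4 (by positivity))
    have h6 : (2 : ℝ) ^ (n + 1) * (1 / 4) ^ (n + 1) ≤ 1 := by
      rw [← mul_pow]
      exact pow_le_one₀ (by norm_num) (by norm_num)
    have h7 : ‖P z‖ ≤ 2 * ε := by
      refine (hPn z).trans ?_
      have h8 : ∑ m ∈ Finset.range (n + 1), ‖z‖ ^ m ≤ 2 := by
        refine le_trans (Finset.sum_le_sum fun m _ => ?_) (sum_geometric_two_le (n + 1))
        exact pow_le_pow_left₀ (norm_nonneg _) hz m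
      nlinarith
    have h8 : h z = q z + P z := by
      rw [hq]
      simp
    calc ‖h z‖ ≤ ‖q z‖ + ‖P z‖ := by
          rw [h8]
          exact norm_add_le _ _
      _ ≤ (G + ε * 2 ^ (n + 1)) * (1 / 4) ^ (n + 1) + 2 * ε := add_le_add h5 h7
      _ = G / 4 ^ (n + 1) + ε * (2 ^ (n + 1) * (1 / 4) ^ (n + 1)) + 2 * ε := by
          rw [one_div, inv_pow]
          ring
      _ ≤ G / 4 ^ (n + 1) + ε * 1 + 2 * ε := by
          have := mul_le_mul_of_nonneg_left h6 hε
          linarith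
      _ = 3 * ε + G / 4 ^ (n + 1) := by ring

/-! Piece M-c3: conclusion -/

/-- The bound in the strip `|Im z| ≤ 2`. -/
private theorem mc3_strip (B : ℝ) (hB : 0 ≤ B) (h : ℂ → ℂ) (hh : Differentiable ℂ h) (A : ℝ) (T : ℕ)
    (hb : ∀ z, ‖h z‖ ≤ Real.exp (A + B * z.im ^ 2)) (hA : A ≤ 1 / (512 * (B + 1)) * T ^ 2)
    (hT : 32 * (B + 1) ≤ T) (M : ℝ) (hM : Real.exp (-(1 / (512 * (B + 1)) * T ^ 2)) ≤ M)
    (h0 : ∀ x : ℝ, ‖h x‖ ≤ M) (z : ℂ) (hz : |z.im| ≤ 2) : ‖h z‖ ≤ M * Real.exp (T / 4) := by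
  have hB1 : 0 < B + 1 := by linarith
  have hTpos : (0 : ℝ) < T := by linarith
  obtain ⟨Y, hY⟩ : ∃ Y : ℝ, Y = T / (16 * (B + 1)) := ⟨_, rfl⟩
  have hY2 : 2 ≤ Y := by
    rw [hY, le_div_iff₀ (by positivity)]
    linarith
  have hY0 : 0 < Y := by linarith
  have hM0 : 0 < M := (Real.exp_pos _).trans_le hM
  obtain ⟨K, hK⟩ : ∃ K : ℝ, K = Real.exp (A + B * Y ^ 2) := ⟨_, rfl⟩
  have hKb : ∀ z : ℂ, |z.im| ≤ Y → ‖h z‖ ≤ K := by
    intro z hz
    refine (hb z).trans ?_
    rw [hK]
    apply Real.exp_le_exp.2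
    have h1 : z.im ^ 2 ≤ Y ^ 2 := sq_le_sq' (by linarith [(abs_le.1 hz).1]) (abs_le.1 hz).2
    have h2 := mul_le_mul_of_nonneg_left h1 hB
    linarith
  have hexp : 1 ≤ Real.exp ((T : ℝ) / 4) := Real.one_le_exp (by positivity)
  rcases le_or_gt M K with hMK | hMK
  · have h1 := three h hh M K Y hY0 hM0 hMK h0 hKb z 2 hY2 hz
    refine h1.trans (mul_le_mul_of_nonneg_left ?_ hM0.le)
    have hK0 : 0 < K := by
      rw [hK]
      exact Real.exp_pos _
    have h2 : K / M ≤ Real.exp (A + B * Y ^ 2 + 1 / (512 * (B + 1)) * T ^ 2) := by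
      rw [div_le_iff₀ hM0]
      calc K = Real.exp (A + B * Y ^ 2 + 1 / (512 * (B + 1)) * T ^ 2) *
            Real.exp (-(1 / (512 * (B + 1)) * T ^ 2)) := by
              rw [← Real.exp_add, hK]
              congr 1
              ring
        _ ≤ _ := mul_le_mul_of_nonneg_left hM (Real.exp_pos _).le
    calc (K / M) ^ (2 / Y) ≤
        Real.exp (A + B * Y ^ 2 + 1 / (512 * (B + 1)) * T ^ 2) ^ (2 / Y) :=
          Real.rpow_le_rpow (by positivity) h2 (by positivity)
      _ = Real.exp ((A + B * Y ^ 2 + 1 / (512 * (B + 1)) * T ^ 2) * (2 / Y)) := by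
          rw [← Real.exp_mul]
      _ ≤ Real.exp ((T : ℝ) / 4) := by
          apply Real.exp_le_exp.2
          rw [mul_div_assoc', div_le_iff₀ hY0]
          have e1 : (T : ℝ) = 16 * (B + 1) * Y := by
            rw [hY]
            field_simp
          have e2 : 1 / (512 * (B + 1)) * (T : ℝ) ^ 2 = (B + 1) / 2 * Y ^ 2 := by
            rw [e1]
            field_simp
            ring
          rw [e2] at hA ⊢
          rw [e1]
          nlinarith [sq_nonneg Y]
  · calc ‖h z‖ ≤ K := hKb z (by linarith)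
      _ ≤ M * 1 := by linarith
      _ ≤ M * Real.exp (T / 4) := mul_le_mul_of_nonneg_left hexp hM0.le

/-- PROOF. `δ = 1 / (16 (B + 1))`, `η = δ / 32 * ...`: Let `x0 ∈ [0, 1]` maximise `‖h x‖` on the real line (compactness and
periodicity), `M = ‖h x0‖`; we may take `|x0| ≤ 1 / 2`. Suppose `M > exp (-η T ^ 2)`. With `Y = δ T ≥ 2` and
`K = exp (A + B Y ^ 2)` `three` gives `‖h z‖ ≤ M * exp ((2 / Y) (2 η T ^ 2 + B Y ^ 2)) ≤ M * exp (T / 4)` for
`|Im z| ≤ 2`. `schwarz` at `x0` with `G = M * exp (T / 4)`: `M ≤ 3 ε + M / 2`. So `M ≤ 6 ε`. The second claim: Cauchy estimate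
on the circle of radius `1`, with `three` for the bound `M' = max (exp (-η T ^ 2)) (6 ε)` of `‖h x‖`. (If `M' > K` then use
`K` itself: `‖h z‖ ≤ exp (A + B) ≤ M'`... simply: `M' ≤ K` or `‖h z‖ ≤ K < M'` for all `z` with `|Im z| ≤ Y`.) -/
theorem periodic_main (B : ℝ) (hB : 0 ≤ B) : ∃ (η : ℝ) (T₁ : ℕ), 0 < η ∧
    ∀ (h : ℂ → ℂ) (A ε : ℝ) (T : ℕ), Differentiable ℂ h → (∀ z, h (z + 1) = h z) →
      (∀ z, ‖h z‖ ≤ Real.exp (A + B * z.im ^ 2)) → 0 ≤ A → A ≤ η * T ^ 2 → T₁ ≤ T → 0 ≤ ε →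
      (∀ m < T, ‖iteratedDeriv m h 0‖ ≤ ε * m.factorial) →
      (∀ x : ℝ, ‖h x‖ ≤ max (Real.exp (-(η * T ^ 2))) (6 * ε)) ∧
      ‖iteratedDeriv T h 0‖ ≤
        T.factorial * max (Real.exp (-(η * T ^ 2))) (6 * ε) * Real.exp (T / 4) := by
  have hB1 : 0 < B + 1 := by linarith
  refine ⟨1 / (512 * (B + 1)), ⌈32 * (B + 1)⌉₊, by positivity, ?_⟩
  intro h A ε T hh hper hb _ hA hT hε hm
  have hTr : 32 * (B + 1) ≤ (T : ℝ) := (Nat.le_ceil _).trans (by exact_mod_cast hT)
  have hT1 : 1 ≤ T := by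
    have : (0 : ℝ) < T := by linarith
    exact_mod_cast this
  have hreal : ∀ x : ℝ, ‖h x‖ ≤ max (Real.exp (-(1 / (512 * (B + 1)) * T ^ 2))) (6 * ε) := by
    -- a maximum on the real line
    have hcont : Continuous fun x : ℝ => ‖h x‖ := (hh.continuous.comp continuous_ofReal).norm
    obtain ⟨x0, hx0, hmax⟩ := (isCompact_Icc (a := -(1 / 2 : ℝ)) (b := 1 / 2)).exists_isMaxOn
      ⟨0, by norm_num⟩ hcont.continuousOn
    have hmax' : ∀ x : ℝ, ‖h x‖ ≤ ‖h x0‖ := by
      intro x
      have h1 : h x = h ((x - round x : ℝ) : ℂ) := by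
        have h2 : Function.Periodic h 1 := hper
        have h3 := h2.sub_int_mul_eq (x := (x : ℂ)) (round x)
        rw [mul_one] at h3
        rw [← h3]
        push_cast
        rfl
      rw [h1]
      have h4 := abs_le.1 (abs_sub_round x)
      exact hmax ⟨h4.1, h4.2⟩
    intro x
    refine (hmax' x).trans ?_
    rcases le_or_gt ‖h x0‖ (Real.exp (-(1 / (512 * (B + 1)) * T ^ 2))) with hle | hgt
    · exact hle.trans (le_max_left _ _)
    · refine le_trans ?_ (le_max_right _ _)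
      have hG : ∀ z : ℂ, ‖z‖ = 2 → ‖h z‖ ≤ ‖h x0‖ * Real.exp (T / 4) := by
        intro z hz
        exact mc3_strip B hB h hh A T hb hA hTr _ hgt.le hmax' z
          ((Complex.abs_im_le_norm z).trans hz.le)
      have h1 := schwarz h hh _ ε T hε hG hm x0 (by
        rw [Complex.norm_real, Real.norm_eq_abs]
        exact abs_le.2 hx0)
      have h2 : Real.exp ((T : ℝ) / 4) ≤ 2 ^ T := by
        have h3 : Real.exp (1 / 4) ≤ 2 := by
          calc Real.exp (1 / 4) ≤ Real.exp (Real.log 2) := by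
                apply Real.exp_le_exp.2
                linarith [Real.log_two_gt_d9]
            _ = 2 := Real.exp_log (by norm_num)
        calc Real.exp ((T : ℝ) / 4) = Real.exp (1 / 4) ^ T := by
              rw [← Real.exp_nat_mul]
              congr 1
              ring
          _ ≤ 2 ^ T := pow_le_pow_left₀ (Real.exp_pos _).le h3 T
      have h4 : ‖h x0‖ * Real.exp ((T : ℝ) / 4) / 4 ^ T ≤ ‖h x0‖ / 2 := by
        have h5 : (2 : ℝ) ^ T ≥ 2 := by
          calc (2 : ℝ) = 2 ^ 1 := by norm_num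
            _ ≤ 2 ^ T := pow_le_pow_right₀ (by norm_num) hT1
        have h6 : (4 : ℝ) ^ T = 2 ^ T * 2 ^ T := by
          rw [← mul_pow]
          norm_num
        rw [div_le_iff₀ (by positivity), h6]
        calc ‖h x0‖ * Real.exp ((T : ℝ) / 4) ≤ ‖h x0‖ * 2 ^ T :=
              mul_le_mul_of_nonneg_left h2 (norm_nonneg _)
          _ = ‖h x0‖ / 2 * (2 ^ T * 2) := by ring
          _ ≤ ‖h x0‖ / 2 * (2 ^ T * 2 ^ T) := by
              apply mul_le_mul_of_nonneg_left _ (by positivity)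
              exact mul_le_mul_of_nonneg_left h5 (by positivity)
      linarith
  refine ⟨hreal, ?_⟩
  have h1 := Complex.norm_iteratedDeriv_le_of_forall_mem_sphere_norm_le (c := 0) (R := 1)
    (f := h) (C := max (Real.exp (-(1 / (512 * (B + 1)) * T ^ 2))) (6 * ε) * Real.exp (T / 4)) T
    one_pos hh.diffContOnCl (fun z hz => by
      refine mc3_strip B hB h hh A T hb hA hTr _ (le_max_left _ _) hreal z ?_
      have h2 : ‖z‖ = 1 := by simpa using hz
      exact (Complex.abs_im_le_norm z).trans (by rw [h2]; norm_num))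
  rw [one_pow, div_one] at h1
  rw [mul_assoc]
  exact h1

end

end Pool.Agent.Helper12.TA
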