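import Mathlib

/-!
PROJECT TA, block M, part d: Lagrange interpolation.
-/

namespace Pool.Agent.Helper12.TA

open Polynomial Complex

noncomputable section

/-! Piece M-d1 -/

/-- PROOF. Induction on the finite set: the coefficients of `(X - C a) * p` are `p (k - 1) - a p k`. -/
theorem coeff_prod_le (s : Finset ℕ) (x : ℕ → ℂ) (R : ℝ) (hR : ∀ j ∈ s, 1 + ‖x j‖ ≤ R) (k : ℕ) :
    ‖(∏ j ∈ s, (X - C (x j))).coeff k‖ ≤ R ^ s.card := by
  classical
  induction s using Finset.induction_on generalizing k with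
  | empty =>
    rw [Finset.prod_empty, coeff_one, Finset.card_empty, pow_zero]
    split_ifs
    · rw [norm_one]
    · rw [norm_zero]
      exact zero_le_one
  | insert a s ha ih =>
    have hRa := hR a (Finset.mem_insert_self a s)
    have hR1 : 1 ≤ R := le_trans (le_add_of_nonneg_right (norm_nonneg _)) hRa
    have hR0 : 0 ≤ R := zero_le_one.trans hR1
    have ih' := ih (fun j hj => hR j (Finset.mem_insert_of_mem hj))
    rw [Finset.prod_insert ha, Finset.card_insert_of_notMem ha, sub_mul, coeff_sub, coeff_C_mul]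
    have h1 : ‖(X * ∏ j ∈ s, (X - C (x j))).coeff k‖ ≤ R ^ s.card := by
      cases k with
      | zero =>
        rw [coeff_zero_eq_eval_zero, eval_mul, eval_X, zero_mul, norm_zero]
        exact pow_nonneg hR0 _
      | succ k =>
        rw [coeff_X_mul]
        exact ih' k
    calc _ ≤ ‖(X * ∏ j ∈ s, (X - C (x j))).coeff k‖ +
          ‖x a * (∏ j ∈ s, (X - C (x j))).coeff k‖ := norm_sub_le _ _
      _ ≤ R ^ s.card + ‖x a‖ * R ^ s.card := by
          rw [norm_mul]
          exact add_le_add h1 (mul_le_mul_of_nonneg_left (ih' k) (norm_nonneg _))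
      _ = (1 + ‖x a‖) * R ^ s.card := by ring
      _ ≤ R * R ^ s.card := mul_le_mul_of_nonneg_right hRa (pow_nonneg hR0 _)
      _ = R ^ (s.card + 1) := by ring

private theorem Md1_node (m n : ℕ) (h : m ≠ n) :
    1 ≤ ‖(2 * Real.pi * I * (m : ℂ)) - 2 * Real.pi * I * (n : ℂ)‖ := by
  have e : (2 * Real.pi * I * (m : ℂ)) - 2 * Real.pi * I * (n : ℂ) =
      ((2 * Real.pi : ℝ) : ℂ) * I * (((m : ℤ) - (n : ℤ) : ℤ) : ℂ) := by
    push_cast
    ring
  have h1 : (1 : ℝ) ≤ |(((m : ℤ) - (n : ℤ) : ℤ) : ℝ)| := by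
    have h2 : (1 : ℤ) ≤ |(m : ℤ) - (n : ℤ)| := by
      refine Int.one_le_abs ?_
      omega
    exact_mod_cast h2
  rw [e, norm_mul, norm_mul, norm_I, mul_one, Complex.norm_real, Complex.norm_intCast,
    Real.norm_of_nonneg (by positivity)]
  nlinarith [Real.pi_gt_three]

/-- PROOF. Lagrange interpolation (`Lagrange.eq_interpolate`, `Lagrange.basis`) at the nodes `2 π i n`, `n < D`:
`q = ∑ n, C (q (2 π i n)) * ∏_(m ≠ n) (X - C (2 π i m)) / (2 π i (n - m))`. The denominators have norm at least `1`, so by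
`coeff_prod_le` the coefficients of `q` are at most `D * M * exp (π D ^ 2) * (1 + 2 π D) ^ D`, and
`D ≤ exp D`, `1 + 2 π D ≤ exp (2 π D)`: `C = 3 π + 1` is enough. -/
theorem lag : ∃ C : ℝ, 1 ≤ C ∧ ∀ (q : ℂ[X]) (D : ℕ) (M : ℝ), q.natDegree < D →
    (∀ n : ℕ, n < D → ‖q.eval (2 * Real.pi * I * n)‖ ≤ M * Real.exp (Real.pi * n ^ 2)) →
    ∀ k, ‖q.coeff k‖ ≤ M * Real.exp (C * D ^ 2) := by
  classical
  refine ⟨3 * Real.pi + 1, by nlinarith [Real.pi_pos], fun q D M hq hM k => ?_⟩
  have hD : 0 < D := (Nat.zero_le _).trans_lt hq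
  have hM0 : 0 ≤ M := by
    have h0 := hM 0 hD
    have e0 : Real.exp (Real.pi * ((0 : ℕ) : ℝ) ^ 2) = 1 := by simp
    rw [e0, mul_one] at h0
    exact (norm_nonneg _).trans h0
  set v : ℕ → ℂ := fun n => 2 * Real.pi * I * (n : ℂ) with hv
  set R : ℝ := 1 + 2 * Real.pi * D with hRdef
  have hR1 : 1 ≤ R := by
    rw [hRdef]
    have := Real.pi_pos
    nlinarith [mul_nonneg Real.pi_pos.le (Nat.cast_nonneg (α := ℝ) D)]
  have hinj : Set.InjOn v (Finset.range D) := by
    intro m _ n _ hmn
    by_contra hne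
    have h1 := Md1_node m n hne
    have h2 : 2 * Real.pi * I * (m : ℂ) = 2 * Real.pi * I * (n : ℂ) := hmn
    rw [h2, sub_self, norm_zero] at h1
    linarith
  have hdeg : q.degree < (Finset.range D).card := by
    rw [Finset.card_range]
    exact (degree_le_natDegree).trans_lt (by exact_mod_cast hq)
  have hq2 := Lagrange.eq_interpolate hinj hdeg
  have hnorm : ∀ n ∈ Finset.range D, ‖v n‖ ≤ 2 * Real.pi * D := by
    intro n hn
    have e : v n = ((2 * Real.pi : ℝ) : ℂ) * I * ((n : ℝ) : ℂ) := by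
      rw [hv]
      push_cast
      ring
    rw [e, norm_mul, norm_mul, norm_I, mul_one, Complex.norm_real, Complex.norm_real,
      Real.norm_of_nonneg (by positivity), Real.norm_of_nonneg (Nat.cast_nonneg n)]
    have h3 : (n : ℝ) ≤ D := by exact_mod_cast (Finset.mem_range.1 hn).le
    exact mul_le_mul_of_nonneg_left h3 (by positivity)
  have hbasis : ∀ n ∈ Finset.range D, ‖(Lagrange.basis (Finset.range D) v n).coeff k‖ ≤ R ^ D := by
    intro n hn
    have e1 : Lagrange.basis (Finset.range D) v n =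
        C (∏ j ∈ (Finset.range D).erase n, (v n - v j)⁻¹) *
          ∏ j ∈ (Finset.range D).erase n, (X - C (v j)) := by
      unfold Lagrange.basis Lagrange.basisDivisor
      rw [Finset.prod_mul_distrib, ← map_prod]
    rw [e1, coeff_C_mul, norm_mul, norm_prod]
    have h1 : ∏ j ∈ (Finset.range D).erase n, ‖(v n - v j)⁻¹‖ ≤ 1 := by
      refine Finset.prod_le_one (fun j _ => norm_nonneg _) fun j hj => ?_
      rw [norm_inv]
      exact inv_le_one_of_one_le₀ (Md1_node n j (Finset.ne_of_mem_erase hj).symm)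
    have h2 := coeff_prod_le ((Finset.range D).erase n) v R (fun j hj => by
      have := hnorm j (Finset.mem_of_mem_erase hj)
      rw [hRdef]
      linarith) k
    have h3 : R ^ ((Finset.range D).erase n).card ≤ R ^ D := by
      refine pow_le_pow_right₀ hR1 ?_
      have := Finset.card_erase_le (s := Finset.range D) (a := n)
      rwa [Finset.card_range] at this
    calc _ ≤ 1 * R ^ D := mul_le_mul h1 (h2.trans h3) (norm_nonneg _) zero_le_one
      _ = R ^ D := one_mul _
  have hsum : ‖q.coeff k‖ ≤ ∑ n ∈ Finset.range D, M * Real.exp (Real.pi * D ^ 2) * R ^ D := by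
    rw [hq2, Lagrange.interpolate_apply, finsetSum_coeff]
    refine norm_sum_le_of_le _ fun n hn => ?_
    rw [coeff_C_mul, norm_mul]
    have h3 : (n : ℝ) ≤ D := by exact_mod_cast (Finset.mem_range.1 hn).le
    have h4 : ‖q.eval (v n)‖ ≤ M * Real.exp (Real.pi * D ^ 2) := by
      refine (hM n (Finset.mem_range.1 hn)).trans (mul_le_mul_of_nonneg_left ?_ hM0)
      refine Real.exp_le_exp.2 (mul_le_mul_of_nonneg_left ?_ Real.pi_pos.le)
      exact pow_le_pow_left₀ (Nat.cast_nonneg n) h3 2
    exact mul_le_mul h4 (hbasis n hn) (norm_nonneg _) (by positivity)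
  refine hsum.trans ?_
  rw [Finset.sum_const, Finset.card_range, nsmul_eq_mul]
  have h5 : (D : ℝ) ≤ Real.exp (D ^ 2) := by
    have h6 : (1 : ℝ) ≤ D := by exact_mod_cast hD
    have h7 := Real.add_one_le_exp ((D : ℝ) ^ 2)
    nlinarith
  have h6 : R ^ D ≤ Real.exp (2 * Real.pi * D ^ 2) := by
    have h7 : R ≤ Real.exp (2 * Real.pi * D) := by
      have := Real.add_one_le_exp (2 * Real.pi * D)
      rw [hRdef]
      linarith
    calc R ^ D ≤ (Real.exp (2 * Real.pi * D)) ^ D := pow_le_pow_left₀ (by linarith) h7 D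
      _ = Real.exp (2 * Real.pi * D ^ 2) := by
          rw [← Real.exp_nat_mul]
          congr 1
          ring
  calc (D : ℝ) * (M * Real.exp (Real.pi * D ^ 2) * R ^ D)
      = M * (D * (Real.exp (Real.pi * D ^ 2) * R ^ D)) := by ring
    _ ≤ M * (Real.exp (D ^ 2) * (Real.exp (Real.pi * D ^ 2) * Real.exp (2 * Real.pi * D ^ 2))) := by
        refine mul_le_mul_of_nonneg_left ?_ hM0
        exact mul_le_mul h5 (mul_le_mul_of_nonneg_left h6 (Real.exp_pos _).le) (by positivity)
          (Real.exp_pos _).le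
    _ = M * Real.exp ((3 * Real.pi + 1) * D ^ 2) := by
        rw [← Real.exp_add, ← Real.exp_add]
        congr 2
        ring

end

end Pool.Agent.Helper12.TA
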