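import Pool.Agent.Helper12.TA.Df
import Pool.Agent.Helper14.LC.Sub

/-!
PROJECT TA, block M, part e: integer polynomials (resultants, Siegel lemma, Mahler measure).
-/

namespace Pool.Agent.Helper12.TA

open Polynomial Complex

noncomputable section

/-! Piece M-e1: the resultant -/

/-- PROOF. `P` is primitive and irreducible over `ℚ` (Gauss: `IsPrimitive.Int.irreducible_iff_irreducible_map_cast`,
`Irreducible.isPrimitive`), it does not divide `V` over `ℚ` (`IsPrimitive.Int.dvd_iff_map_cast_dvd_map_cast`; divide `V`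
by its content or use `IsPrimitive.dvd_iff_fraction_map_dvd_fraction_map`), so it is coprime to `V` over `ℚ` and the resultant is
not `0`. -/
theorem res_ne (P V : ℤ[X]) (hP : Irreducible P) (hd : 0 < P.natDegree) (hV : ¬ P ∣ V) :
    resultant P V P.natDegree V.natDegree ≠ 0 := by
  have hprim : P.IsPrimitive := hP.isPrimitive hd.ne'
  have h1 : Irreducible (P.map (Int.castRingHom ℚ)) :=
    (IsPrimitive.Int.irreducible_iff_irreducible_map_cast hprim).1 hP
  have h2 : ¬ P.map (Int.castRingHom ℚ) ∣ V.map (Int.castRingHom ℚ) := fun h =>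
    hV ((IsPrimitive.Int.dvd_iff_map_cast_dvd_map_cast P V hprim).2 h)
  have h3 : IsCoprime (P.map (Int.castRingHom ℚ)) (V.map (Int.castRingHom ℚ)) :=
    (h1.coprime_iff_not_dvd).2 h2
  have h4 := resultant_ne_zero _ _ h3
  intro h5
  apply h4
  have hinj : Function.Injective (Int.castRingHom ℚ) := (Int.castRingHom ℚ).injective_int
  rw [natDegree_map_eq_of_injective hinj, natDegree_map_eq_of_injective hinj, resultant_map_map,
    h5, map_zero]

private theorem me1_key {R : Type} [CommRing R] {N : R → ℝ} (hN : Pool.Agent.Helper14.LC.IsNm N)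
    (p : R[X]) (a d K : ℕ) : ∑ i : Fin K,
      N (if (i : ℕ) ∈ Set.Icc a (a + d) then p.coeff (i - a) else 0) ≤
        Pool.Agent.Helper14.LC.pN N p := by
  classical
  rw [Fin.sum_univ_eq_sum_range (fun i : ℕ =>
    N (if i ∈ Set.Icc a (a + d) then p.coeff (i - a) else 0)) K]
  have h1 : ∀ i ∈ Finset.range K,
      N (if i ∈ Set.Icc a (a + d) then p.coeff (i - a) else 0) =
      if i ∈ Set.Icc a (a + d) then N (p.coeff (i - a)) else 0 := by
    intro i _
    split_ifs
    · rfl
    · exact hN.zero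
  rw [Finset.sum_congr rfl h1, ← Finset.sum_filter]
  refine le_trans (le_of_eq ?_) (Pool.Agent.Helper14.LC.sum_coeff_le_pN hN p
    (((Finset.range K).filter fun i => i ∈ Set.Icc a (a + d)).image fun i => i - a))
  rw [Finset.sum_image]
  intro x hx y hy hxy
  simp only [Finset.coe_filter, Finset.mem_range, Set.mem_Icc, Set.mem_ofPred_eq] at hx hy
  simp only at hxy
  omega

private theorem me1_L1 (P : ℤ[X]) :
    Pool.Agent.Helper14.LC.pN (fun z : ℂ => ‖z‖) (P.map (Int.castRingHom ℂ)) ≤ L1 P := by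
  unfold L1
  refine le_trans (le_of_eq ?_) (Pool.Agent.Helper14.LC.sum_coeff_le_pN
    Pool.Agent.Helper14.LC.isNm_int P (P.map (Int.castRingHom ℂ)).support)
  unfold Pool.Agent.Helper14.LC.pN
  refine Finset.sum_congr rfl fun i _ => ?_
  rw [coeff_map, eq_intCast]
  exact Complex.norm_intCast _

private theorem me1_eval (P : ℤ[X]) (β : ℂ) :
    (P.map (Int.castRingHom ℂ)).eval β = aeval β P := by
  rw [eval_map, aeval_def]
  rfl

private theorem me1_L1_nn (P : ℤ[X]) : 0 ≤ L1 P :=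
  Finset.sum_nonneg fun _ _ => abs_nonneg _

/-- PROOF. As `Pool.Agent.Helper14.LC.Rs_small` (file Helper14/LC/Bnd.lean): `IsNm.det_small` for the transpose of the
Sylvester matrix over `ℂ` and `sylvester_vec`; the rows with the coefficients of `P` (there are `V.natDegree` of them)
have sums at most `bP`, the others (`P.natDegree` of them) at most `bV` (refine `sylvester_col`: the inner statement
`key` of its proof). The resultant is an integer, not `0` (`res_ne`); `resultant_map_map` or the like. -/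
theorem res_small (P V : ℤ[X]) (hP : Irreducible P) (hd : 0 < P.natDegree) (hV : ¬ P ∣ V) (β : ℂ)
    (t : ℝ) (ht : 1 ≤ t) (hβ : ‖β‖ ≤ t) :
    1 ≤ (‖aeval β P‖ + ‖aeval β V‖) *
      ((P.natDegree + V.natDegree : ℕ) * t ^ (P.natDegree + V.natDegree)) *
      ((1 + L1 P) ^ V.natDegree * (1 + L1 V) ^ P.natDegree) := by
  classical
  have hres := res_ne P V hP hd hV
  obtain ⟨m, hm⟩ : ∃ m, m = P.natDegree := ⟨_, rfl⟩
  obtain ⟨n, hn⟩ : ∃ n, n = V.natDegree := ⟨_, rfl⟩
  rw [← hm, ← hn] at hres ⊢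
  obtain ⟨f, hf⟩ : ∃ f, f = P.map (Int.castRingHom ℂ) := ⟨_, rfl⟩
  obtain ⟨g, hg⟩ : ∃ g, g = V.map (Int.castRingHom ℂ) := ⟨_, rfl⟩
  have hfd : f.natDegree ≤ m := by rw [hf, hm]; exact natDegree_map_le
  have hgd : g.natDegree ≤ n := by rw [hg, hn]; exact natDegree_map_le
  have h1 : 1 ≤ ‖resultant f g m n‖ := by
    rw [hf, hg, resultant_map_map, eq_intCast, Complex.norm_intCast]
    exact_mod_cast Int.one_le_abs hres
  have hpos : 0 < m + n := by omega
  have hfe : f.eval β = aeval β P := by rw [hf]; exact me1_eval P β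
  have hge : g.eval β = aeval β V := by rw [hg]; exact me1_eval V β
  have hfN : Pool.Agent.Helper14.LC.pN (fun z : ℂ => ‖z‖) f ≤ L1 P := by
    rw [hf]; exact me1_L1 P
  have hgN : Pool.Agent.Helper14.LC.pN (fun z : ℂ => ‖z‖) g ≤ L1 V := by
    rw [hg]; exact me1_L1 V
  rw [resultant, ← Matrix.det_transpose] at h1
  have h3 := Pool.Agent.Helper14.LC.isNm_norm.det_small (sylvester f g m n).transpose
    (fun i => β ^ (i : ℕ)) ⟨0, hpos⟩ (by simp)
  refine (h1.trans h3).trans ?_
  have hpw : ∀ k : ℕ, k ≤ m + n → ‖β‖ ^ k ≤ t ^ (m + n) := fun k hk =>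
    (pow_le_pow_left₀ (norm_nonneg _) hβ k).trans (pow_le_pow_right₀ ht hk)
  have ht0 : 0 ≤ t ^ (m + n) := pow_nonneg (by linarith) _
  have hLP := me1_L1_nn P
  have hLV := me1_L1_nn V
  refine mul_le_mul ?_ ?_ (Finset.prod_nonneg fun k _ =>
    add_nonneg zero_le_one (Finset.sum_nonneg fun _ _ => norm_nonneg _))
    (mul_nonneg (add_nonneg (norm_nonneg _) (norm_nonneg _))
      (mul_nonneg (Nat.cast_nonneg _) ht0))
  · rw [Fin.sum_univ_add]
    have ha : ∑ i : Fin m, ‖((sylvester f g m n).transpose.mulVec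
        fun i => β ^ (i : ℕ)) (Fin.castAdd n i)‖ ≤ (m : ℝ) * (t ^ (m + n) * ‖aeval β V‖) := by
      calc _ ≤ ∑ i : Fin m, t ^ (m + n) * ‖aeval β V‖ := by
            refine Finset.sum_le_sum fun i _ => ?_
            rw [Pool.Agent.Helper14.LC.sylvester_vec f g m n hfd hgd β,
              Fin.addCases_left, hge, norm_mul, norm_pow]
            exact mul_le_mul_of_nonneg_right (hpw _ (by omega)) (norm_nonneg _)
        _ = (m : ℝ) * (t ^ (m + n) * ‖aeval β V‖) := by simp
    have hc : ∑ i : Fin n, ‖((sylvester f g m n).transpose.mulVec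
        fun i => β ^ (i : ℕ)) (Fin.natAdd m i)‖ ≤ (n : ℝ) * (t ^ (m + n) * ‖aeval β P‖) := by
      calc _ ≤ ∑ i : Fin n, t ^ (m + n) * ‖aeval β P‖ := by
            refine Finset.sum_le_sum fun i _ => ?_
            rw [Pool.Agent.Helper14.LC.sylvester_vec f g m n hfd hgd β,
              Fin.addCases_right, hfe, norm_mul, norm_pow]
            exact mul_le_mul_of_nonneg_right (hpw _ (by omega)) (norm_nonneg _)
        _ = (n : ℝ) * (t ^ (m + n) * ‖aeval β P‖) := by simp
    refine (add_le_add ha hc).trans ?_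
    have hA : 0 ≤ t ^ (m + n) * ‖aeval β V‖ := mul_nonneg ht0 (norm_nonneg _)
    have hB : 0 ≤ t ^ (m + n) * ‖aeval β P‖ := mul_nonneg ht0 (norm_nonneg _)
    have hm0 : (0 : ℝ) ≤ (m : ℝ) := Nat.cast_nonneg _
    have hn0 : (0 : ℝ) ≤ (n : ℝ) := Nat.cast_nonneg _
    push_cast
    nlinarith [mul_nonneg hm0 hB, mul_nonneg hn0 hA]
  · rw [Fin.prod_univ_add]
    have ha : ∏ k : Fin m, (1 + ∑ j, ‖(sylvester f g m n).transpose (Fin.castAdd n k) j‖) ≤
        (1 + L1 V) ^ m := by
      calc _ ≤ ∏ _k : Fin m, (1 + L1 V) := by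
            refine Finset.prod_le_prod (fun k _ =>
              add_nonneg zero_le_one (Finset.sum_nonneg fun _ _ => norm_nonneg _)) fun k _ => ?_
            have h5 := me1_key Pool.Agent.Helper14.LC.isNm_norm g (k : ℕ) n (m + n)
            have h6 : ∑ j, ‖(sylvester f g m n).transpose (Fin.castAdd n k) j‖ =
                ∑ i : Fin (m + n), ‖(if (i : ℕ) ∈ Set.Icc (k : ℕ) ((k : ℕ) + n) then
                  g.coeff (i - k) else 0)‖ := by
              refine Finset.sum_congr rfl fun i _ => ?_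
              rw [Matrix.transpose_apply, sylvester, Matrix.of_apply, Fin.addCases_left]
            rw [h6]
            linarith
        _ = _ := by simp
    have hc : ∏ k : Fin n, (1 + ∑ j, ‖(sylvester f g m n).transpose (Fin.natAdd m k) j‖) ≤
        (1 + L1 P) ^ n := by
      calc _ ≤ ∏ _k : Fin n, (1 + L1 P) := by
            refine Finset.prod_le_prod (fun k _ =>
              add_nonneg zero_le_one (Finset.sum_nonneg fun _ _ => norm_nonneg _)) fun k _ => ?_
            have h5 := me1_key Pool.Agent.Helper14.LC.isNm_norm f (k : ℕ) m (m + n)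
            have h6 : ∑ j, ‖(sylvester f g m n).transpose (Fin.natAdd m k) j‖ =
                ∑ i : Fin (m + n), ‖(if (i : ℕ) ∈ Set.Icc (k : ℕ) ((k : ℕ) + m) then
                  f.coeff (i - k) else 0)‖ := by
              refine Finset.sum_congr rfl fun i _ => ?_
              rw [Matrix.transpose_apply, sylvester, Matrix.of_apply, Fin.addCases_right]
            rw [h6]
            linarith
        _ = _ := by simp
    rw [mul_comm ((1 + L1 P) ^ n)]
    exact mul_le_mul ha hc (Finset.prod_nonneg fun k _ =>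
      add_nonneg zero_le_one (Finset.sum_nonneg fun _ _ => norm_nonneg _))
      (pow_nonneg (by linarith) _)

private theorem me3_nn (P : ℤ[X]) : 0 ≤ L1 P :=
  Finset.sum_nonneg fun _ _ => abs_nonneg _

private theorem me3_L1 (P : ℤ[X]) :
    (P.map (Int.castRingHom ℂ)).sum (fun _ a => ‖a‖) ≤ L1 P := by
  unfold L1
  refine le_trans (le_of_eq ?_) (Pool.Agent.Helper14.LC.sum_coeff_le_pN
    Pool.Agent.Helper14.LC.isNm_int P (P.map (Int.castRingHom ℂ)).support)
  unfold Polynomial.sum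
  refine Finset.sum_congr rfl fun i _ => ?_
  rw [coeff_map, eq_intCast]
  exact Complex.norm_intCast _

private theorem me3_L1_sum (P : ℤ[X]) : L1 P = ∑ i ∈ P.support, |(P.coeff i : ℝ)| := rfl

/-- PROOF. Logarithmic form of `res_small` with `t = max 1 ‖β‖`; `n ≤ exp n`, `1 + exp S ≤ exp (S + 1)`. -/
theorem res_log (β : ℂ) : ∃ C : ℝ, 1 ≤ C ∧ ∀ (P V : ℤ[X]) (S N : ℕ) (E : ℝ), Irreducible P →
    0 < P.natDegree → P.natDegree ≤ S → L1 P ≤ Real.exp S → ¬ P ∣ V → 1 ≤ N → V.natDegree ≤ N →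
    0 ≤ E → L1 V ≤ Real.exp E →
    1 ≤ (‖aeval β P‖ + ‖aeval β V‖) * Real.exp (C * (N * S + S * (E + 1))) := by
  have ht : (1 : ℝ) ≤ max 1 ‖β‖ := le_max_left _ _
  obtain ⟨t, htd⟩ : ∃ t, t = max 1 ‖β‖ := ⟨_, rfl⟩
  rw [← htd] at ht
  have ht0 : 0 < t := by linarith
  have hlog : 0 ≤ Real.log t := Real.log_nonneg ht
  refine ⟨4 + 2 * Real.log t, by linarith, ?_⟩
  intro P V S N E hP hd hdS hLP hV hN hVN hE hLV
  have h1 := res_small P V hP hd hV β t ht (htd ▸ le_max_right _ _)
  have hLP0 := me3_nn P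
  have hLV0 := me3_nn V
  have hS1 : (1 : ℝ) ≤ S := by exact_mod_cast (by omega : 1 ≤ S)
  have hN1 : (1 : ℝ) ≤ N := by exact_mod_cast hN
  refine h1.trans ?_
  rw [mul_assoc]
  refine mul_le_mul_of_nonneg_left ?_ (by positivity)
  have hpv : ((P.natDegree + V.natDegree : ℕ) : ℝ) ≤ (S : ℝ) + N := by
    exact_mod_cast (by omega : P.natDegree + V.natDegree ≤ S + N)
  have e1 : ((P.natDegree + V.natDegree : ℕ) : ℝ) ≤ Real.exp ((S : ℝ) + N) :=
    hpv.trans ((le_add_of_nonneg_right zero_le_one).trans (Real.add_one_le_exp _))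
  have e2 : t ^ (P.natDegree + V.natDegree) ≤ Real.exp (Real.log t * ((S : ℝ) + N)) := by
    calc t ^ (P.natDegree + V.natDegree) ≤ t ^ (S + N) := pow_le_pow_right₀ ht (by omega)
      _ = Real.exp (Real.log t * ((S : ℝ) + N)) := by
          rw [mul_comm, ← Nat.cast_add, Real.exp_nat_mul, Real.exp_log ht0]
  have e3 : (1 + L1 P) ^ V.natDegree ≤ Real.exp (((S : ℝ) + 1) * N) := by
    have h2 : 1 + L1 P ≤ Real.exp ((S : ℝ) + 1) := by
      have h3 : (1 : ℝ) ≤ Real.exp S := Real.one_le_exp (by linarith)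
      have h4 : (2 : ℝ) ≤ Real.exp 1 := by
        have := Real.add_one_le_exp (1 : ℝ)
        linarith
      rw [Real.exp_add]
      nlinarith
    calc (1 + L1 P) ^ V.natDegree ≤ (1 + L1 P) ^ N := pow_le_pow_right₀ (by linarith) hVN
      _ ≤ (Real.exp ((S : ℝ) + 1)) ^ N := pow_le_pow_left₀ (by linarith) h2 N
      _ = Real.exp (((S : ℝ) + 1) * N) := by rw [mul_comm, Real.exp_nat_mul]
  have e4 : (1 + L1 V) ^ P.natDegree ≤ Real.exp ((E + 1) * S) := by
    have h2 : 1 + L1 V ≤ Real.exp (E + 1) := by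
      have h3 : (1 : ℝ) ≤ Real.exp E := Real.one_le_exp hE
      have h4 : (2 : ℝ) ≤ Real.exp 1 := by
        have := Real.add_one_le_exp (1 : ℝ)
        linarith
      rw [Real.exp_add]
      nlinarith
    calc (1 + L1 V) ^ P.natDegree ≤ (1 + L1 V) ^ S := pow_le_pow_right₀ (by linarith) hdS
      _ ≤ (Real.exp (E + 1)) ^ S := pow_le_pow_left₀ (by linarith) h2 S
      _ = Real.exp ((E + 1) * S) := by rw [mul_comm, Real.exp_nat_mul]
  have e5 : ((P.natDegree + V.natDegree : ℕ) : ℝ) * t ^ (P.natDegree + V.natDegree) *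
      ((1 + L1 P) ^ V.natDegree * (1 + L1 V) ^ P.natDegree) ≤
      (Real.exp ((S : ℝ) + N) * Real.exp (Real.log t * ((S : ℝ) + N))) *
      (Real.exp (((S : ℝ) + 1) * N) * Real.exp ((E + 1) * S)) := by
    gcongr
  refine e5.trans ?_
  rw [← Real.exp_add, ← Real.exp_add, ← Real.exp_add]
  refine Real.exp_le_exp.2 ?_
  have h5 : (S : ℝ) + N ≤ 2 * (N * S) := by nlinarith
  have h6 : Real.log t * ((S : ℝ) + N) ≤ Real.log t * (2 * (N * S)) :=
    mul_le_mul_of_nonneg_left h5 hlog
  have h7 : (N : ℝ) ≤ N * S := by nlinarith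
  have h8 : 0 ≤ (S : ℝ) * (E + 1) := by positivity
  have h9 : 0 ≤ Real.log t * ((S : ℝ) * (E + 1)) := mul_nonneg hlog h8
  nlinarith

/-! Piece M-e2: Siegel lemma -/

section Me2

attribute [local instance] Matrix.seminormedAddCommGroup

private theorem Me2_siegel {α β : Type} [Fintype α] [Fintype β] (A : Matrix α β ℤ) (L : ℝ)
    (hL : 1 ≤ L) (hA : ∀ i j, |((A i j : ℤ) : ℝ)| ≤ L)
    (hc : 2 * Fintype.card α ≤ Fintype.card β) (hα : 0 < Fintype.card α) :
    ∃ t : β → ℤ, t ≠ 0 ∧ (∀ i, ∑ j, A i j * t j = 0) ∧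
      ∀ j, |((t j : ℤ) : ℝ)| ≤ Fintype.card β * L := by
  obtain ⟨t, h0, h1, h2⟩ := Int.Matrix.exists_ne_zero_int_vec_norm_le A (by omega) hα
  refine ⟨t, h0, fun i => congrFun h1 i, fun j => ?_⟩
  have hα' : (0 : ℝ) < Fintype.card α := by exact_mod_cast hα
  have hc' : 2 * (Fintype.card α : ℝ) ≤ Fintype.card β := by exact_mod_cast hc
  have hα1 : (1 : ℝ) ≤ Fintype.card α := by exact_mod_cast hα
  have hAL : ‖A‖ ≤ L := by
    rw [Matrix.norm_le_iff (by linarith)]
    intro i j
    rw [Int.norm_eq_abs]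
    exact hA i j
  have hmax : max 1 ‖A‖ ≤ L := max_le hL hAL
  have hmax1 : (1 : ℝ) ≤ max 1 ‖A‖ := le_max_left _ _
  have hb1 : (1 : ℝ) ≤ Fintype.card β * max 1 ‖A‖ := by nlinarith
  have he : (Fintype.card α : ℝ) / (Fintype.card β - Fintype.card α) ≤ 1 := by
    rw [div_le_one (by linarith)]
    linarith
  have h3 := Real.rpow_le_rpow_of_exponent_le hb1 he
  rw [Real.rpow_one] at h3
  have h4 : ‖t j‖ ≤ ‖t‖ := norm_le_pi_norm t j
  rw [Int.norm_eq_abs] at h4
  exact h4.trans (h2.trans (h3.trans (mul_le_mul_of_nonneg_left hmax (by positivity))))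

end Me2

/-- PROOF. `Int.Matrix.exists_ne_zero_int_vec_norm_le`: the unknowns are the coefficients `i < D` of the `c k`, `k < D`;
the equations are the coefficients `j < 3 D` of `W D b c m`, `m < T`: `3 D * T ≤ D ^ 2 / 2`. The entries are coefficients
of the `b (k + m)`, at most `H` in absolute value. Take `c k = 0` for `k ≥ D`. (If the matrix is zero take the constant
polynomial `c 0 = 1`.) -/
theorem siegel (D T : ℕ) (b : ℕ → ℤ[X]) (H : ℝ) (hD : 1 ≤ D) (hT : 6 * T ≤ D) (hH : 1 ≤ H)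
    (hdeg : ∀ m, (b m).natDegree ≤ m) (hb : ∀ m < 2 * D, ∀ i, |((b m).coeff i : ℝ)| ≤ H) :
    ∃ c : ℕ → ℤ[X], (∀ k, (c k).natDegree < D) ∧ (∀ k, D ≤ k → c k = 0) ∧
      (∀ k i, |((c k).coeff i : ℝ)| ≤ D ^ 2 * H) ∧ (∃ k, c k ≠ 0) ∧ ∀ m < T, W D b c m = 0 := by
  classical
  have hDH : (1 : ℝ) ≤ (D : ℝ) ^ 2 * H := by
    have h1 : (1 : ℝ) ≤ D := by exact_mod_cast hD
    nlinarith
  rcases Nat.eq_zero_or_pos T with hT0 | hT0
  · subst hT0
    refine ⟨fun k => if k = 0 then 1 else 0, fun k => ?_, fun k hk => if_neg (by omega),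
      fun k i => ?_, ⟨0, ?_⟩, fun m hm => absurd hm (Nat.not_lt_zero m)⟩
    · change (if k = 0 then (1 : ℤ[X]) else 0).natDegree < D
      by_cases h : k = 0
      · rw [if_pos h, natDegree_one]
        omega
      · rw [if_neg h, natDegree_zero]
        omega
    · have h1 : |(((if k = 0 then (1 : ℤ[X]) else 0).coeff i : ℤ) : ℝ)| ≤ 1 := by
        by_cases h : k = 0
        · rw [if_pos h, coeff_one]
          by_cases h2 : i = 0
          · simp [h2]
          · simp [h2]
        · rw [if_neg h, coeff_zero]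
          simp
      exact h1.trans hDH
    · change (if (0 : ℕ) = 0 then (1 : ℤ[X]) else 0) ≠ 0
      rw [if_pos rfl]
      exact one_ne_zero
  · obtain ⟨A, hA⟩ : ∃ A : Matrix (Fin T × Fin (3 * D)) (Fin D × Fin D) ℤ, ∀ x y, A x y =
        if (y.2 : ℕ) ≤ x.2 then (b (y.1 + x.1)).coeff (x.2 - y.2) else 0 :=
      ⟨fun x y => if (y.2 : ℕ) ≤ x.2 then (b (y.1 + x.1)).coeff (x.2 - y.2) else 0,
        fun _ _ => rfl⟩
    have hcα : Fintype.card (Fin T × Fin (3 * D)) = T * (3 * D) := by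
      rw [Fintype.card_prod, Fintype.card_fin, Fintype.card_fin]
    have hcβ : Fintype.card (Fin D × Fin D) = D * D := by
      rw [Fintype.card_prod, Fintype.card_fin]
    have hle : 2 * (T * (3 * D)) ≤ D * D := by
      calc 2 * (T * (3 * D)) = (6 * T) * D := by ring
        _ ≤ D * D := Nat.mul_le_mul_right _ hT
    obtain ⟨t, ht0, htA, htn⟩ := Me2_siegel A H hH (fun x y => by
      rw [hA]
      by_cases h : (y.2 : ℕ) ≤ x.2
      · rw [if_pos h]
        refine hb _ ?_ _
        have h1 := y.1.2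
        have h2 := x.1.2
        omega
      · rw [if_neg h]
        simp
        linarith) (by rw [hcα, hcβ]; exact hle) (by rw [hcα]; positivity)
    rw [hcβ] at htn
    obtain ⟨c, hc⟩ : ∃ c : ℕ → ℤ[X], ∀ k, c k = ∑ y : Fin D × Fin D,
        if (y.1 : ℕ) = k then C (t y) * X ^ (y.2 : ℕ) else 0 := ⟨_, fun _ => rfl⟩
    have hcoef : ∀ k i : ℕ, (c k).coeff i =
        if h : k < D ∧ i < D then t (⟨k, h.1⟩, ⟨i, h.2⟩) else 0 := by
      intro k i
      rw [hc, finsetSum_coeff]
      by_cases h : k < D ∧ i < D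
      · rw [dif_pos h, Finset.sum_eq_single ((⟨k, h.1⟩, ⟨i, h.2⟩) : Fin D × Fin D)]
        · rw [if_pos rfl, coeff_C_mul_X_pow, if_pos rfl]
        · intro y _ hy
          by_cases h1 : (y.1 : ℕ) = k
          · rw [if_pos h1, coeff_C_mul_X_pow, if_neg]
            intro h2
            exact hy (Prod.ext (Fin.ext h1) (Fin.ext h2.symm))
          · rw [if_neg h1, coeff_zero]
        · intro h1
          exact absurd (Finset.mem_univ _) h1
      · rw [dif_neg h]
        refine Finset.sum_eq_zero fun y _ => ?_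
        by_cases h1 : (y.1 : ℕ) = k
        · rw [if_pos h1, coeff_C_mul_X_pow, if_neg]
          intro h2
          exact h ⟨h1 ▸ y.1.2, h2 ▸ y.2.2⟩
        · rw [if_neg h1, coeff_zero]
    have hdegc : ∀ k, (c k).natDegree ≤ D - 1 := by
      intro k
      rw [natDegree_le_iff_coeff_eq_zero]
      intro N hN
      rw [hcoef, dif_neg]
      omega
    refine ⟨c, fun k => ?_, fun k hk => ?_, fun k i => ?_, ?_, fun m hm => ?_⟩
    · have := hdegc k
      omega
    · ext i
      rw [hcoef, dif_neg (by omega), coeff_zero]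
    · rw [hcoef]
      by_cases h : k < D ∧ i < D
      · rw [dif_pos h]
        have h1 := htn (⟨k, h.1⟩, ⟨i, h.2⟩)
        push_cast at h1
        rw [sq]
        exact h1
      · rw [dif_neg h]
        simp
        linarith
    · obtain ⟨y, hy⟩ : ∃ y, t y ≠ 0 := by
        by_contra hcon
        push Not at hcon
        exact ht0 (funext hcon)
      refine ⟨y.1, fun h0 => hy ?_⟩
      have h1 := hcoef y.1 y.2
      rw [dif_pos ⟨y.1.2, y.2.2⟩, h0, coeff_zero] at h1
      exact h1.symm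
    · have hsum : W D b c m = ∑ y : Fin D × Fin D,
          C (t y) * X ^ (y.2 : ℕ) * b (y.1 + m) := by
        unfold W
        have h1 : ∀ k, c k * b (k + m) = ∑ y : Fin D × Fin D,
            if (y.1 : ℕ) = k then C (t y) * X ^ (y.2 : ℕ) * b (y.1 + m) else 0 := by
          intro k
          rw [hc, Finset.sum_mul]
          refine Finset.sum_congr rfl fun y _ => ?_
          by_cases h2 : (y.1 : ℕ) = k
          · rw [if_pos h2, if_pos h2, h2]
          · rw [if_neg h2, if_neg h2, zero_mul]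
        simp only [h1]
        rw [Finset.sum_comm]
        refine Finset.sum_congr rfl fun y _ => ?_
        rw [Finset.sum_ite_eq, if_pos (Finset.mem_range.2 y.1.2)]
      rw [hsum]
      ext j
      rw [finsetSum_coeff, coeff_zero]
      have h2 : ∀ y : Fin D × Fin D, (C (t y) * X ^ (y.2 : ℕ) * b (y.1 + m)).coeff j =
          (if (y.2 : ℕ) ≤ j then (b (y.1 + m)).coeff (j - y.2) else 0) * t y := by
        intro y
        rw [mul_assoc, coeff_C_mul, coeff_X_pow_mul', mul_comm]
      simp only [h2]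
      by_cases hj : j < 3 * D
      · have h3 := htA (⟨m, hm⟩, ⟨j, hj⟩)
        simp only [hA] at h3
        exact h3
      · refine Finset.sum_eq_zero fun y _ => ?_
        have h4 : (b (y.1 + m)).coeff (j - y.2) = 0 := by
          refine coeff_eq_zero_of_natDegree_lt (lt_of_le_of_lt (hdeg _) ?_)
          have h5 := y.1.2
          have h6 := y.2.2
          omega
        rw [h4]
        simp

/-! Piece M-e3: Mahler measure, powers of a polynomial -/

/-- PROOF. `L1 Q ≤ (natDegree Q + 1) * 2 ^ natDegree Q * M(Q)` (`norm_coeff_le_choose_mul_mahlerMeasure`; or the sum of the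
binomial coefficients, then without the factor `natDegree Q + 1`), `M(Q) ≤ M(P) M(Q) = M(P * Q) ≤ L1 (P * Q)`
(`one_le_mahlerMeasure_of_ne_zero`, `mahlerMeasure_le_sum_norm_coeff`). -/
theorem L1_quot (P Q : ℤ[X]) (hP : P ≠ 0) (N : ℕ) (hN : Q.natDegree ≤ N) :
    L1 Q ≤ 4 ^ N * L1 (P * Q) := by
  have hM : (Q.map (Int.castRingHom ℂ)).mahlerMeasure ≤ L1 (P * Q) := by
    have h1 := one_le_mahlerMeasure_of_ne_zero hP
    have h2 := mahlerMeasure_le_sum_norm_coeff ((P * Q).map (Int.castRingHom ℂ))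
    rw [Polynomial.map_mul, mahlerMeasure_mul, ← Polynomial.map_mul] at h2
    have h3 : ((P * Q).map (Int.castRingHom ℂ)).sum (fun _ a => ‖a‖) ≤ L1 (P * Q) := me3_L1 (P * Q)
    have h4 : 0 ≤ (Q.map (Int.castRingHom ℂ)).mahlerMeasure := mahlerMeasure_nonneg _
    nlinarith
  have hM0 : 0 ≤ (Q.map (Int.castRingHom ℂ)).mahlerMeasure := mahlerMeasure_nonneg _
  have hinj : Function.Injective (Int.castRingHom ℂ) := (Int.castRingHom ℂ).injective_int
  have h5 : L1 Q ≤ ∑ i ∈ Finset.range (Q.natDegree + 1),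
      (Q.natDegree.choose i : ℝ) * (Q.map (Int.castRingHom ℂ)).mahlerMeasure := by
    rw [me3_L1_sum]
    refine (Finset.sum_le_sum_of_subset_of_nonneg (t := Finset.range (Q.natDegree + 1)) ?_
      fun _ _ _ => abs_nonneg _).trans (Finset.sum_le_sum fun i _ => ?_)
    · exact supp_subset_range_natDegree_succ
    · have h6 := norm_coeff_le_choose_mul_mahlerMeasure i (Q.map (Int.castRingHom ℂ))
      rw [natDegree_map_eq_of_injective hinj, coeff_map, eq_intCast, Complex.norm_intCast] at h6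
      exact h6
  rw [← Finset.sum_mul] at h5
  have h7 : ∑ i ∈ Finset.range (Q.natDegree + 1), (Q.natDegree.choose i : ℝ) = 2 ^ Q.natDegree := by
    exact_mod_cast Nat.sum_range_choose Q.natDegree
  rw [h7] at h5
  refine h5.trans (mul_le_mul ?_ hM hM0 (by positivity))
  calc (2 : ℝ) ^ Q.natDegree ≤ 2 ^ N := pow_le_pow_right₀ (by norm_num) hN
    _ ≤ 4 ^ N := pow_le_pow_left₀ (by norm_num) (by norm_num) N

/-- PROOF. Let `e` be the least multiplicity of `P` in the nonzero `c k` (or: induction on the degree of a nonzero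
`c k0`: while `P` divides all `c k` divide all of them by `P`). -/
theorem divide (c : ℕ → ℤ[X]) (hc : ∃ k, c k ≠ 0) (P : ℤ[X]) (hd : 0 < P.natDegree) :
    ∃ (c' : ℕ → ℤ[X]) (e : ℕ), (∀ k, c k = P ^ e * c' k) ∧ ∃ k, ¬ P ∣ c' k := by
  classical
  obtain ⟨k0, hk0⟩ := hc
  have hb : ∀ e, (∀ k, P ^ e ∣ c k) → e ≤ (c k0).natDegree := by
    intro e he
    have h1 := natDegree_le_of_dvd (he k0) hk0
    rw [natDegree_pow] at h1
    nlinarith
  have h0 : ∀ k, P ^ 0 ∣ c k := fun k => by rw [pow_zero]; exact one_dvd _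
  have h1 := Nat.findGreatest_spec (P := fun e => ∀ k, P ^ e ∣ c k) (Nat.zero_le (c k0).natDegree) h0
  obtain ⟨e, he⟩ : ∃ e, e = Nat.findGreatest (fun e => ∀ k, P ^ e ∣ c k) (c k0).natDegree := ⟨_, rfl⟩
  rw [← he] at h1
  choose c' hc' using h1
  refine ⟨c', e, hc', ?_⟩
  by_contra hcon
  push Not at hcon
  have h2 : ∀ k, P ^ (e + 1) ∣ c k := by
    intro k
    obtain ⟨d, hd⟩ := hcon k
    refine ⟨d, ?_⟩
    rw [hc' k, hd, pow_succ]
    ring
  have h3 := Nat.le_findGreatest (P := fun e => ∀ k, P ^ e ∣ c k) (hb _ h2) h2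
  omega

end

end Pool.Agent.Helper12.TA
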