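import Pool.Agent.Helper12.TA.Mb
import Pool.Agent.Helper12.TA.Mc
import Pool.Agent.Helper12.TA.Md
import Pool.Agent.Helper12.TA.Me

/-!
PROJECT TA, block M, part f: the auxiliary function.
-/

namespace Pool.Agent.Helper12.TA

open Polynomial Complex

noncomputable section

/-! Piece M-f1 -/

private theorem mf1_pow (t : ℝ) (ht : 1 ≤ t) (D : ℕ) (hD : 2 ≤ D) :
    t ^ D ≤ Real.exp (2 * Real.log t * (D * Real.log D)) := by
  have h0 : 0 < t := by linarith
  have h1 : 0 ≤ Real.log t := Real.log_nonneg ht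
  have hD' : (2 : ℝ) ≤ D := by exact_mod_cast hD
  have h2 : (1 : ℝ) / 2 ≤ Real.log D := by
    have h3 : Real.log 2 ≤ Real.log D := Real.log_le_log (by norm_num) hD'
    have h4 := Real.log_two_gt_d9
    linarith
  have h5 : t ^ D = Real.exp (D * Real.log t) := by
    rw [← Real.rpow_natCast, Real.rpow_def_of_pos h0, mul_comm]
  rw [h5]
  apply Real.exp_le_exp.2
  have h6 : 0 ≤ (D : ℝ) * Real.log t := by positivity
  nlinarith

private theorem mf1_L1 (p : ℤ[X]) (D : ℕ) (B : ℝ) (hp : p.natDegree < D)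
    (hB : ∀ i, |(p.coeff i : ℝ)| ≤ B) : L1 p ≤ D * B := by
  have hB0 : 0 ≤ B := (abs_nonneg _).trans (hB 0)
  unfold L1 Pool.Agent.Helper14.LC.pN
  have h1 : ∑ i ∈ p.support, |(p.coeff i : ℝ)| ≤ ∑ _i ∈ p.support, B :=
    Finset.sum_le_sum fun i _ => hB i
  refine h1.trans ?_
  rw [Finset.sum_const, nsmul_eq_mul]
  refine mul_le_mul_of_nonneg_right ?_ hB0
  have h2 : p.support.card ≤ D := by
    have h3 := Polynomial.card_supp_le_succ_natDegree p
    omega
  exact_mod_cast h2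

private theorem mf1_coeff (p : ℤ[X]) (i : ℕ) : |(p.coeff i : ℝ)| ≤ L1 p :=
  Pool.Agent.Helper14.LC.coeff_le_pN Pool.Agent.Helper14.LC.isNm_int p i

private theorem mf1_bound (C0 : ℝ) (hC0 : 1 ≤ C0) (D : ℕ) (hD : 2 ≤ D) :
    4 ^ D * (D * (D ^ 2 * (C0 ^ (2 * D) * (2 * D).factorial))) ≤
      Real.exp ((2 * Real.log 4 + 3 + 4 * Real.log C0 + 4) * (D * Real.log D)) := by
  have hD' : (2 : ℝ) ≤ D := by exact_mod_cast hD
  have hD0 : (0 : ℝ) < D := by linarith
  have hl : 0 ≤ Real.log D := Real.log_nonneg (by linarith)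
  have hDe : (D : ℝ) ≤ Real.exp (D * Real.log D) := by
    calc (D : ℝ) = Real.exp (Real.log D) := (Real.exp_log hD0).symm
      _ ≤ _ := Real.exp_le_exp.2 (by nlinarith)
  have h1 := mf1_pow 4 (by norm_num) D hD
  have h2 : C0 ^ (2 * D) ≤ Real.exp (4 * Real.log C0 * (D * Real.log D)) := by
    have h3 := mf1_pow (C0 ^ 2) (one_le_pow₀ hC0) D hD
    rw [← pow_mul, Real.log_pow] at h3
    refine h3.trans (le_of_eq ?_)
    congr 1
    push_cast
    ring
  have h4 : ((2 * D).factorial : ℝ) ≤ Real.exp (4 * (D * Real.log D)) := by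
    have h5 : (2 * D).factorial ≤ D ^ (4 * D) := by
      calc (2 * D).factorial ≤ (2 * D) ^ (2 * D) := Nat.factorial_le_pow _
        _ ≤ (D * D) ^ (2 * D) := Nat.pow_le_pow_left (Nat.mul_le_mul_right D hD) _
        _ = D ^ (4 * D) := by
          rw [← pow_two, ← pow_mul]
          congr 1
          ring
    have h6 : ((2 * D).factorial : ℝ) ≤ (D : ℝ) ^ (4 * D) := by exact_mod_cast h5
    refine h6.trans (le_of_eq ?_)
    rw [← Real.rpow_natCast, Real.rpow_def_of_pos hD0]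
    congr 1
    push_cast
    ring
  have e : Real.exp ((2 * Real.log 4 + 3 + 4 * Real.log C0 + 4) * (D * Real.log D)) =
      Real.exp (2 * Real.log 4 * (D * Real.log D)) * (Real.exp (D * Real.log D) *
        (Real.exp (D * Real.log D) ^ 2 * (Real.exp (4 * Real.log C0 * (D * Real.log D)) *
          Real.exp (4 * (D * Real.log D))))) := by
    rw [← Real.exp_nat_mul, ← Real.exp_add, ← Real.exp_add, ← Real.exp_add, ← Real.exp_add]
    congr 1
    push_cast
    ring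
  rw [e]
  gcongr

/-- PROOF. `siegel` with `T = ` the number of `m` with `6 m < D` that is `(D + 5) / 6` is too large by one: use `T = D / 6`
(so the statement is for `6 (m + 1) ≤ D`), `H = C0 ^ (2 D) * (2 D) !`; then `divide`, `L1_quot` (`P ^ e ≠ 0`; the `c' k` have
degree at most that of the `c k`, `W D b c m = P ^ e * W D b c' m`). The bound: `4 ^ D * D * D ^ 2 * H ≤ exp (C D log D)`
(`D ≥ 2`, `(2 D) ! ≤ (2 D) ^ (2 D)`, `log (2 D) ≤ 2 log D`). -/
theorem exists_c {β μ : ℂ} {b : ℕ → ℤ[X]} {C0 : ℝ} (hb : MB β μ b C0) :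
    ∃ C : ℝ, 1 ≤ C ∧ ∀ (D : ℕ) (P : ℤ[X]), 2 ≤ D → 0 < P.natDegree →
      ∃ c : ℕ → ℤ[X], (∀ k, (c k).natDegree < D) ∧ (∀ k, D ≤ k → c k = 0) ∧
        (∀ k, L1 (c k) ≤ Real.exp (C * (D * Real.log D))) ∧ (∃ k, ¬ P ∣ c k) ∧
        ∀ m, 6 * (m + 1) ≤ D → W D b c m = 0 := by
  have hC0 := hb.hC
  have hlC := Real.log_nonneg hC0
  have hl4 : 0 ≤ Real.log 4 := Real.log_nonneg (by norm_num)
  refine ⟨2 * Real.log 4 + 3 + 4 * Real.log C0 + 4, by linarith, fun D P hD hP => ?_⟩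
  have hP0 : P ≠ 0 := by
    rintro rfl
    simp at hP
  have hfac : ∀ n : ℕ, (1 : ℝ) ≤ n.factorial := fun n => by
    exact_mod_cast Nat.one_le_iff_ne_zero.2 n.factorial_ne_zero
  have hH : 1 ≤ C0 ^ (2 * D) * ((2 * D).factorial : ℝ) := by
    have h1 := one_le_pow₀ hC0 (n := 2 * D)
    have h2 := hfac (2 * D)
    nlinarith
  obtain ⟨c, hc1, hc2, hc3, hc4, hc5⟩ := siegel D (D / 6) b
    (C0 ^ (2 * D) * ((2 * D).factorial : ℝ)) (by omega) (Nat.mul_div_le D 6) hH hb.deg (by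
      intro m hm i
      refine (mf1_coeff _ _).trans ((hb.len m).trans ?_)
      refine mul_le_mul (pow_le_pow_right₀ hC0 (by omega)) ?_ (by positivity) (by positivity)
      exact_mod_cast Nat.factorial_le hm.le)
  obtain ⟨c', e, h1, h2⟩ := divide c hc4 P hP
  have hPe : P ^ e ≠ 0 := pow_ne_zero _ hP0
  have hdeg : ∀ k, (c' k).natDegree < D := by
    intro k
    by_cases h0 : c' k = 0
    · rw [h0, natDegree_zero]
      omega
    · have h3 := hc1 k
      rw [h1 k, natDegree_mul hPe h0] at h3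
      omega
  refine ⟨c', hdeg, ?_, ?_, h2, ?_⟩
  · intro k hk
    have h3 := hc2 k hk
    rw [h1 k] at h3
    exact (mul_eq_zero.1 h3).resolve_left hPe
  · intro k
    refine (L1_quot (P ^ e) (c' k) hPe D (hdeg k).le).trans ?_
    rw [← h1 k]
    refine le_trans ?_ (mf1_bound C0 hC0 D hD)
    refine mul_le_mul_of_nonneg_left ?_ (by positivity)
    exact mf1_L1 (c k) D _ (hc1 k) (hc3 k)
  · intro m hm
    have h3 : W D b c m = 0 := hc5 m (by omega)
    have h4 : W D b c m = P ^ e * W D b c' m := by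
      unfold W
      rw [Finset.mul_sum]
      refine Finset.sum_congr rfl fun k _ => ?_
      rw [h1 k, mul_assoc]
    rw [h4] at h3
    exact (mul_eq_zero.1 h3).resolve_left hPe

/-! Piece M-f2 -/

theorem qc_coeff (β μ : ℂ) (D : ℕ) (c : ℕ → ℤ[X]) (k : ℕ) (hk : k < D) :
    (qc β μ D c).coeff k = aeval β (c k) * (μ⁻¹) ^ k := by
  unfold qc
  rw [Polynomial.finsetSum_coeff, Finset.sum_eq_single k]
  · rw [coeff_monomial, if_pos rfl]
  · intro j _ hj
    rw [coeff_monomial, if_neg hj]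
  · intro h
    exact absurd (Finset.mem_range.2 hk) h

theorem qc_deg (β μ : ℂ) (D : ℕ) (c : ℕ → ℤ[X]) (hD : 1 ≤ D) : (qc β μ D c).natDegree < D := by
  have h : (qc β μ D c).natDegree ≤ D - 1 := by
    unfold qc
    refine natDegree_sum_le_of_forall_le _ _ fun k hk => ?_
    refine (natDegree_monomial_le _).trans ?_
    have := Finset.mem_range.1 hk
    omega
  omega

/-- PROOF. `hq_der` (the sum may be taken over `k < D`), `MB.der`. -/
theorem hqc_der {β μ : ℂ} {b : ℕ → ℤ[X]} {C0 : ℝ} (hb : MB β μ b C0) (D : ℕ) (hD : 1 ≤ D)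
    (c : ℕ → ℤ[X]) (m : ℕ) :
    iteratedDeriv m (hq (qc β μ D c)) 0 = th 0 * μ ^ m * aeval β (W D b c m) := by
  have hd := qc_deg β μ D c hD
  have h1 : iteratedDeriv m (hq (qc β μ D c)) 0 =
      ∑ k ∈ Finset.range D, (qc β μ D c).coeff k * iteratedDeriv (k + m) th 0 := by
    rw [hq_der]
    refine Finset.sum_subset ?_ ?_
    · intro k hk
      rw [Finset.mem_range] at hk ⊢
      omega
    · intro k _ hk
      rw [Finset.mem_range, not_lt] at hk
      rw [coeff_eq_zero_of_natDegree_lt (by omega), zero_mul]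
  rw [h1]
  unfold W
  rw [map_sum, Finset.mul_sum]
  refine Finset.sum_congr rfl fun k hk => ?_
  rw [qc_coeff β μ D c k (Finset.mem_range.1 hk), hb.der, map_mul, pow_add]
  have h2 : (μ⁻¹) ^ k * μ ^ k = 1 := by rw [← mul_pow, inv_mul_cancel₀ hb.hμ, one_pow]
  calc aeval β (c k) * μ⁻¹ ^ k * (th 0 * (μ ^ k * μ ^ m) * aeval β (b (k + m))) =
      (μ⁻¹ ^ k * μ ^ k) * (th 0 * μ ^ m * (aeval β (c k) * aeval β (b (k + m)))) := by ring
    _ = _ := by rw [h2, one_mul]

/-- `|P (β)| ≤ L1 P * max 1 |β| ^ degree`. -/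
theorem aeval_le (β : ℂ) (t : ℝ) (ht : 1 ≤ t) (hβ : ‖β‖ ≤ t) (P : ℤ[X]) (N : ℕ)
    (hN : P.natDegree ≤ N) : ‖aeval β P‖ ≤ L1 P * t ^ N := by
  have h1 : aeval β P = ∑ i ∈ P.support, ((P.coeff i : ℤ) : ℂ) * β ^ i := by
    rw [aeval_def, eval₂_eq_sum, Polynomial.sum]
    rfl
  rw [h1]
  refine (norm_sum_le _ _).trans ?_
  unfold L1 Pool.Agent.Helper14.LC.pN
  rw [Finset.sum_mul]
  refine Finset.sum_le_sum fun i hi => ?_
  rw [norm_mul, norm_pow, Complex.norm_intCast]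
  have h2 : i ≤ N := (le_natDegree_of_mem_supp i hi).trans hN
  refine mul_le_mul_of_nonneg_left ?_ (abs_nonneg _)
  exact (pow_le_pow_left₀ (norm_nonneg _) hβ i).trans (pow_le_pow_right₀ ht h2)

/-! Piece M-f3 -/

private theorem mf3_pow (t : ℝ) (ht : 1 ≤ t) (D : ℕ) (hD : 2 ≤ D) :
    t ^ D ≤ Real.exp (2 * Real.log t * (D * Real.log D)) := by
  have h0 : 0 < t := by linarith
  have h1 : 0 ≤ Real.log t := Real.log_nonneg ht
  have hD' : (2 : ℝ) ≤ D := by exact_mod_cast hD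
  have h2 : (1 : ℝ) / 2 ≤ Real.log D := by
    have h3 : Real.log 2 ≤ Real.log D := Real.log_le_log (by norm_num) hD'
    have h4 := Real.log_two_gt_d9
    linarith
  have h5 : t ^ D = Real.exp (D * Real.log t) := by
    rw [← Real.rpow_natCast, Real.rpow_def_of_pos h0, mul_comm]
  rw [h5]
  apply Real.exp_le_exp.2
  have h6 : 0 ≤ (D : ℝ) * Real.log t := by positivity
  nlinarith

/-- PROOF. `hq_growth`, `aeval_le`. -/
theorem hqc_growth (β μ : ℂ) (C1 : ℝ) (hC1 : 0 ≤ C1) :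
    ∃ C : ℝ, 1 ≤ C ∧ ∀ (D : ℕ) (c : ℕ → ℤ[X]), 2 ≤ D → (∀ k, (c k).natDegree < D) →
      (∀ k, L1 (c k) ≤ Real.exp (C1 * (D * Real.log D))) → ∀ z : ℂ,
        ‖hq (qc β μ D c) z‖ ≤ Real.exp (C * (D * Real.log D) + 4 * Real.pi * z.im ^ 2) := by
  obtain ⟨C0, hC0, hg⟩ := hq_growth
  have ht : (1 : ℝ) ≤ max 1 ‖β‖ := le_max_left _ _
  have hs : (1 : ℝ) ≤ max 1 ‖μ⁻¹‖ := le_max_left _ _
  have hlt := Real.log_nonneg ht
  have hls := Real.log_nonneg hs
  have hlC := Real.log_nonneg hC0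
  refine ⟨Real.log C0 + 1 + C1 + 2 * Real.log (max 1 ‖β‖) + 2 * Real.log (max 1 ‖μ⁻¹‖) + 1,
    by linarith, fun D c hD hdeg hL z => ?_⟩
  have hD' : (2 : ℝ) ≤ D := by exact_mod_cast hD
  have hlogD : (1 : ℝ) / 2 ≤ Real.log D := by
    have h3 : Real.log 2 ≤ Real.log D := Real.log_le_log (by norm_num) hD'
    have h4 := Real.log_two_gt_d9
    linarith
  have hDl : 1 ≤ (D : ℝ) * Real.log D := by nlinarith
  have hq := qc_deg β μ D c (by omega)
  have hco : ∀ k ∈ Finset.range ((qc β μ D c).natDegree + 1), ‖(qc β μ D c).coeff k‖ ≤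
      Real.exp (C1 * (D * Real.log D)) * max 1 ‖β‖ ^ D * max 1 ‖μ⁻¹‖ ^ D := by
    intro k hk
    have hkD : k < D := by
      have := Finset.mem_range.1 hk
      omega
    rw [qc_coeff β μ D c k hkD, norm_mul, norm_pow]
    have h1 : ‖aeval β (c k)‖ ≤ Real.exp (C1 * (D * Real.log D)) * max 1 ‖β‖ ^ D := by
      refine (aeval_le β _ ht (le_max_right _ _) (c k) D (hdeg k).le).trans ?_
      exact mul_le_mul_of_nonneg_right (hL k) (by positivity)
    have h2 : ‖μ⁻¹‖ ^ k ≤ max 1 ‖μ⁻¹‖ ^ D :=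
      (pow_le_pow_left₀ (norm_nonneg _) (le_max_right _ _) k).trans
        (pow_le_pow_right₀ hs hkD.le)
    exact mul_le_mul h1 h2 (by positivity) (by positivity)
  have hsum : ∑ k ∈ Finset.range ((qc β μ D c).natDegree + 1), ‖(qc β μ D c).coeff k‖ ≤
      D * (Real.exp (C1 * (D * Real.log D)) * max 1 ‖β‖ ^ D * max 1 ‖μ⁻¹‖ ^ D) := by
    refine (Finset.sum_le_sum hco).trans ?_
    rw [Finset.sum_const, Finset.card_range, nsmul_eq_mul]
    refine mul_le_mul_of_nonneg_right ?_ (by positivity)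
    exact_mod_cast hq
  have hfac : ((qc β μ D c).natDegree.factorial : ℝ) ≤ Real.exp (D * Real.log D) := by
    have h1 : (qc β μ D c).natDegree.factorial ≤ D ^ D :=
      (Nat.factorial_le hq.le).trans (Nat.factorial_le_pow D)
    have h2 : ((qc β μ D c).natDegree.factorial : ℝ) ≤ (D : ℝ) ^ D := by exact_mod_cast h1
    refine h2.trans (le_of_eq ?_)
    rw [← Real.rpow_natCast, Real.rpow_def_of_pos (by linarith), mul_comm]
  have hC0' : C0 ≤ Real.exp (Real.log C0 * (D * Real.log D)) := by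
    calc C0 = Real.exp (Real.log C0) := (Real.exp_log (by linarith)).symm
      _ ≤ _ := Real.exp_le_exp.2 (by nlinarith)
  have hDe : (D : ℝ) ≤ Real.exp (D * Real.log D) := by
    calc (D : ℝ) = Real.exp (Real.log D) := (Real.exp_log (by linarith)).symm
      _ ≤ _ := Real.exp_le_exp.2 (by nlinarith)
  have hp1 := mf3_pow _ ht D hD
  have hp2 := mf3_pow _ hs D hD
  refine (hg (qc β μ D c) z).trans ?_
  have e : Real.exp ((Real.log C0 + 1 + C1 + 2 * Real.log (max 1 ‖β‖) +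
      2 * Real.log (max 1 ‖μ⁻¹‖) + 1) * (D * Real.log D) + 4 * Real.pi * z.im ^ 2) =
      Real.exp (Real.log C0 * (D * Real.log D)) * (Real.exp (D * Real.log D) *
        (Real.exp (C1 * (D * Real.log D)) * Real.exp (2 * Real.log (max 1 ‖β‖) *
          (D * Real.log D)) * Real.exp (2 * Real.log (max 1 ‖μ⁻¹‖) * (D * Real.log D)))) *
        Real.exp (D * Real.log D) * Real.exp (4 * Real.pi * z.im ^ 2) := by
    rw [← Real.exp_add, ← Real.exp_add, ← Real.exp_add, ← Real.exp_add, ← Real.exp_add,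
      ← Real.exp_add]
    congr 1
    ring
  rw [e]
  gcongr
  refine hsum.trans ?_
  gcongr

/-- PROOF. `hq_coef`, `lag` and `qc_coeff`; `‖μ‖ ^ k ≤ exp (C D)`. -/
theorem hqc_lower (β μ : ℂ) (hμ : μ ≠ 0) :
    ∃ C : ℝ, 1 ≤ C ∧ ∀ (D : ℕ) (c : ℕ → ℤ[X]) (M : ℝ), 1 ≤ D → (∀ k, D ≤ k → c k = 0) →
      (∀ x : ℝ, ‖hq (qc β μ D c) x‖ ≤ M) → ∀ k, ‖aeval β (c k)‖ ≤ M * Real.exp (C * D ^ 2) := by
  obtain ⟨C0, hC0, hl⟩ := lag
  have hs : (1 : ℝ) ≤ max 1 ‖μ‖ := le_max_left _ _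
  have hls := Real.log_nonneg hs
  refine ⟨C0 + Real.log (max 1 ‖μ‖), by linarith, fun D c M hD hc hM k => ?_⟩
  have hM0 : 0 ≤ M := (norm_nonneg _).trans (hM 0)
  rcases Nat.lt_or_ge k D with hk | hk
  · have h1 := hl (qc β μ D c) D M (qc_deg β μ D c hD) (fun n _ => by
      have h2 := hq_coef (qc β μ D c) M hM (n : ℤ)
      push_cast at h2
      exact h2) k
    have h3 := qc_coeff β μ D c k hk
    have h4 : aeval β (c k) = (qc β μ D c).coeff k * μ ^ k := by
      rw [h3, mul_assoc, ← mul_pow, inv_mul_cancel₀ hμ, one_pow, mul_one]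
    have hD' : (1 : ℝ) ≤ D := by exact_mod_cast hD
    have h5 : ‖μ‖ ^ k ≤ Real.exp (Real.log (max 1 ‖μ‖) * D ^ 2) := by
      calc ‖μ‖ ^ k ≤ max 1 ‖μ‖ ^ k := pow_le_pow_left₀ (norm_nonneg _) (le_max_right _ _) k
        _ ≤ max 1 ‖μ‖ ^ D := pow_le_pow_right₀ hs hk.le
        _ = Real.exp (Real.log (max 1 ‖μ‖) * D) := by
          rw [← Real.rpow_natCast, Real.rpow_def_of_pos (by linarith)]
        _ ≤ _ := by
          apply Real.exp_le_exp.2
          refine mul_le_mul_of_nonneg_left ?_ hls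
          nlinarith
    rw [h4, norm_mul, norm_pow]
    calc ‖(qc β μ D c).coeff k‖ * ‖μ‖ ^ k ≤
        (M * Real.exp (C0 * D ^ 2)) * Real.exp (Real.log (max 1 ‖μ‖) * D ^ 2) :=
          mul_le_mul h1 h5 (by positivity) (by positivity)
      _ = _ := by
        rw [mul_assoc, ← Real.exp_add]
        congr 2
        ring
  · rw [hc k hk, map_zero, norm_zero]
    positivity

private theorem mf4_log (D : ℕ) (hD : 2 ≤ D) : (D : ℝ) ≤ 2 * (D * Real.log D) := by
  have hD' : (2 : ℝ) ≤ D := by exact_mod_cast hD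
  have h2 : (1 : ℝ) / 2 ≤ Real.log D := by
    have h3 : Real.log 2 ≤ Real.log D := Real.log_le_log (by norm_num) hD'
    have h4 := Real.log_two_gt_d9
    linarith
  nlinarith

private theorem mf4_pow (t : ℝ) (ht : 1 ≤ t) (a D : ℕ) (hD : 2 ≤ D) :
    t ^ (a * D) ≤ Real.exp (2 * a * Real.log t * (D * Real.log D)) := by
  have h0 : 0 < t := by linarith
  have h1 : 0 ≤ Real.log t := Real.log_nonneg ht
  have h5 : t ^ (a * D) = Real.exp ((a * D : ℝ) * Real.log t) := by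
    rw [← Real.rpow_natCast, Real.rpow_def_of_pos h0, mul_comm]
    push_cast
    rfl
  rw [h5]
  apply Real.exp_le_exp.2
  have h6 : 0 ≤ (a : ℝ) * Real.log t := by positivity
  have h7 := mul_le_mul_of_nonneg_left (mf4_log D hD) h6
  linarith

private theorem mf4_fact (K D n : ℕ) (hD : 2 ≤ D) (hn : n ≤ (K + 1) * D) :
    (n.factorial : ℝ) ≤
      Real.exp ((K + 1) * (2 * Real.log (K + 1) + 1) * (D * Real.log D)) := by
  have hD' : (2 : ℝ) ≤ D := by exact_mod_cast hD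
  have h1 : n.factorial ≤ ((K + 1) * D) ^ ((K + 1) * D) :=
    (Nat.factorial_le hn).trans (Nat.factorial_le_pow _)
  have h2 : (n.factorial : ℝ) ≤ (((K + 1) * D : ℕ) : ℝ) ^ ((K + 1) * D) := by exact_mod_cast h1
  refine h2.trans ?_
  have hpos : (0 : ℝ) < (((K + 1) * D : ℕ) : ℝ) := by
    have h3 : 0 < (K + 1) * D := by positivity
    exact_mod_cast h3
  rw [← Real.rpow_natCast, Real.rpow_def_of_pos hpos]
  apply Real.exp_le_exp.2
  have hK : (0 : ℝ) < (K : ℝ) + 1 := by positivity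
  have h4 : Real.log (((K + 1) * D : ℕ) : ℝ) = Real.log (K + 1) + Real.log D := by
    push_cast
    exact Real.log_mul hK.ne' (by linarith)
  rw [h4]
  push_cast
  have h5 : 0 ≤ ((K : ℝ) + 1) * Real.log (K + 1) :=
    mul_nonneg hK.le (Real.log_nonneg (by linarith [Nat.cast_nonneg (α := ℝ) K]))
  have h6 := mul_le_mul_of_nonneg_left (mf4_log D hD) h5
  linarith

private theorem mf4_nm : Pool.Agent.Helper14.LC.IsNm L1 :=
  Pool.Agent.Helper14.LC.isNm_pN Pool.Agent.Helper14.LC.isNm_int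

private theorem mf4_sum (s : Finset ℕ) (p : ℕ → ℤ[X]) : L1 (∑ k ∈ s, p k) ≤ ∑ k ∈ s, L1 (p k) := by
  classical
  induction s using Finset.induction_on with
  | empty =>
    rw [Finset.sum_empty, Finset.sum_empty, mf4_nm.zero]
  | insert a s ha ih =>
    rw [Finset.sum_insert ha, Finset.sum_insert ha]
    exact (mf4_nm.add _ _).trans (add_le_add_right ih _)

/-- The size of the `W m` and of their values at `β`. PROOF. `L1 (W m) ≤ ∑ L1 (c k) * L1 (b (k + m))`
(`isNm_pN isNm_int`), `(k + m) ! ≤ ((K + 1) D) ^ ((K + 1) D)`, `log ((K + 1) D) ≤ (K + 1) log D * C`. For the last claim write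
`W m = P * Q`, `L1 Q ≤ 4 ^ ((K + 2) D) * L1 (W m)` (`L1_quot`), `aeval_le`. -/
theorem W_bound {β μ : ℂ} {b : ℕ → ℤ[X]} {C0 : ℝ} (hb : MB β μ b C0) (C1 : ℝ) (hC1 : 0 ≤ C1)
    (K : ℕ) : ∃ C : ℝ, 1 ≤ C ∧ ∀ (D : ℕ) (c : ℕ → ℤ[X]), 2 ≤ D → (∀ k, (c k).natDegree < D) →
      (∀ k, L1 (c k) ≤ Real.exp (C1 * (D * Real.log D))) → ∀ m, m < K * D →
        (W D b c m).natDegree ≤ (K + 2) * D ∧
        L1 (W D b c m) ≤ Real.exp (C * (D * Real.log D)) ∧
        ∀ P : ℤ[X], P ≠ 0 → P ∣ W D b c m →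
          ‖aeval β (W D b c m)‖ ≤ ‖aeval β P‖ * Real.exp (C * (D * Real.log D)) := by
  have ht : (1 : ℝ) ≤ max 1 ‖β‖ := le_max_left _ _
  obtain ⟨A, hA⟩ : ∃ A : ℝ, A = 1 + C1 + 2 * (K + 1 : ℕ) * Real.log C0 +
    (K + 1) * (2 * Real.log (K + 1) + 1) := ⟨_, rfl⟩
  obtain ⟨B, hB⟩ : ∃ B : ℝ, B = 2 * (K + 2 : ℕ) * Real.log 4 +
    2 * (K + 2 : ℕ) * Real.log (max 1 ‖β‖) := ⟨_, rfl⟩
  have hK1 : 0 ≤ Real.log ((K : ℝ) + 1) :=
    Real.log_nonneg (by linarith [Nat.cast_nonneg (α := ℝ) K])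
  have hlC := Real.log_nonneg hb.hC
  have hlt := Real.log_nonneg ht
  have hl4 : 0 ≤ Real.log 4 := Real.log_nonneg (by norm_num)
  have hA1 : 1 ≤ A := by
    rw [hA]
    have h1 : 0 ≤ 2 * ((K + 1 : ℕ) : ℝ) * Real.log C0 := by positivity
    have h2 : 0 ≤ ((K : ℝ) + 1) * (2 * Real.log (K + 1) + 1) := by positivity
    linarith
  have hB0 : 0 ≤ B := by
    rw [hB]
    positivity
  refine ⟨A + B, by linarith, fun D c hD hdeg hL m hm => ?_⟩
  have hD' : (2 : ℝ) ≤ D := by exact_mod_cast hD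
  have hDl0 : 0 ≤ (D : ℝ) * Real.log D := by
    have := mf4_log D hD
    linarith
  have hdegW : (W D b c m).natDegree ≤ (K + 2) * D := by
    unfold W
    refine natDegree_sum_le_of_forall_le _ _ fun k hk => ?_
    rw [Finset.mem_range] at hk
    refine natDegree_mul_le.trans ?_
    have h1 := hdeg k
    have h2 := hb.deg (k + m)
    nlinarith
  have hLW : L1 (W D b c m) ≤ Real.exp (A * (D * Real.log D)) := by
    unfold W
    refine (mf4_sum _ _).trans ?_
    have h1 : ∀ k ∈ Finset.range D, L1 (c k * b (k + m)) ≤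
        Real.exp (C1 * (D * Real.log D)) *
          (Real.exp (2 * (K + 1 : ℕ) * Real.log C0 * (D * Real.log D)) *
            Real.exp ((K + 1) * (2 * Real.log (K + 1) + 1) * (D * Real.log D))) := by
      intro k hk
      rw [Finset.mem_range] at hk
      refine (mf4_nm.mul _ _).trans ?_
      have hkm : k + m + 1 ≤ (K + 1) * D := by nlinarith
      have h2 : L1 (b (k + m)) ≤
          Real.exp (2 * (K + 1 : ℕ) * Real.log C0 * (D * Real.log D)) *
            Real.exp ((K + 1) * (2 * Real.log (K + 1) + 1) * (D * Real.log D)) := by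
        refine (hb.len (k + m)).trans ?_
        have h3 : C0 ^ (k + m + 1) ≤ C0 ^ ((K + 1) * D) := pow_le_pow_right₀ hb.hC hkm
        exact mul_le_mul (h3.trans (mf4_pow C0 hb.hC (K + 1) D hD))
          (mf4_fact K D (k + m) hD (by omega)) (by positivity) (by positivity)
      exact mul_le_mul (hL k) h2 (mf4_nm.nn _) (by positivity)
    refine (Finset.sum_le_sum h1).trans ?_
    rw [Finset.sum_const, Finset.card_range, nsmul_eq_mul]
    have h4 : (D : ℝ) ≤ Real.exp (D * Real.log D) := by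
      calc (D : ℝ) = Real.exp (Real.log D) := (Real.exp_log (by linarith)).symm
        _ ≤ _ := by
          apply Real.exp_le_exp.2
          have h5 : 0 ≤ Real.log D := Real.log_nonneg (by linarith)
          nlinarith
    refine (mul_le_mul_of_nonneg_right h4 (by positivity)).trans (le_of_eq ?_)
    rw [← Real.exp_add, ← Real.exp_add, ← Real.exp_add, hA]
    congr 1
    ring
  refine ⟨hdegW, hLW.trans (Real.exp_le_exp.2 ?_), fun P hP hdvd => ?_⟩
  · have := mul_nonneg hB0 hDl0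
    linarith
  · obtain ⟨Q, hQ⟩ := hdvd
    have hdegQ : Q.natDegree ≤ (K + 2) * D := by
      by_cases hQ0 : Q = 0
      · rw [hQ0, natDegree_zero]
        exact Nat.zero_le _
      · rw [hQ, natDegree_mul hP hQ0] at hdegW
        omega
    have h1 := L1_quot P Q hP ((K + 2) * D) hdegQ
    rw [← hQ] at h1
    have h2 := aeval_le β _ ht (le_max_right _ _) Q ((K + 2) * D) hdegQ
    have h3 : ‖aeval β Q‖ ≤ Real.exp ((A + B) * (D * Real.log D)) := by
      refine h2.trans ?_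
      have h4 := mf4_pow 4 (by norm_num) (K + 2) D hD
      have h5 := mf4_pow _ ht (K + 2) D hD
      calc L1 Q * max 1 ‖β‖ ^ ((K + 2) * D)
          ≤ (4 ^ ((K + 2) * D) * L1 (W D b c m)) * max 1 ‖β‖ ^ ((K + 2) * D) :=
            mul_le_mul_of_nonneg_right h1 (by positivity)
        _ ≤ (Real.exp (2 * (K + 2 : ℕ) * Real.log 4 * (D * Real.log D)) *
              Real.exp (A * (D * Real.log D))) *
              Real.exp (2 * (K + 2 : ℕ) * Real.log (max 1 ‖β‖) * (D * Real.log D)) := by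
            refine mul_le_mul (mul_le_mul h4 hLW (mf4_nm.nn _) (by positivity)) h5
              (by positivity) (by positivity)
        _ = _ := by
            rw [← Real.exp_add, ← Real.exp_add, hB]
            congr 1
            ring
    rw [hQ, map_mul, norm_mul]
    exact mul_le_mul_of_nonneg_left h3 (norm_nonneg _)

end

end Pool.Agent.Helper12.TA
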