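import Pool.Agent.Helper12.TA.Mf

/-!
PROJECT TA, block M, part g: irreducible polynomials.
-/

namespace Pool.Agent.Helper12.TA

open Polynomial Complex

noncomputable section

/-! Piece M-g1: numbers -/

/-- PROOF. `D = ⌈S ^ (6 / 5)⌉`: `D ≤ 2 S ^ (6 / 5)`, `log D ≤ 2 log S` for large `S`, and
`isLittleO_log_rpow_atTop`. -/
theorem num (C : ℝ) (hC : 1 ≤ C) : ∃ S₀ : ℕ, ∀ S : ℕ, S₀ ≤ S → ∃ D : ℕ, C ≤ S ∧ C ≤ D ∧ 3 ≤ D ∧
    C * (S * (Real.log D + 1)) ≤ D ∧ C * (D : ℝ) ^ 2 ≤ (S : ℝ) ^ (5 / 2 : ℝ) := by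
  refine ⟨⌈(14 * C) ^ 10⌉₊, fun S hS => ?_⟩
  have hS1 : (14 * C) ^ 10 ≤ (S : ℝ) := (Nat.le_ceil _).trans (Nat.cast_le.2 hS)
  obtain ⟨x, hx⟩ : ∃ x : ℝ, x = (S : ℝ) ^ (1 / 10 : ℝ) := ⟨_, rfl⟩
  have hx0 : 0 ≤ x := by rw [hx]; positivity
  have hx10 : x ^ 10 = S := by
    rw [hx, ← Real.rpow_natCast, ← Real.rpow_mul (Nat.cast_nonneg _)]
    norm_num
  have hx25 : (S : ℝ) ^ (5 / 2 : ℝ) = x ^ 25 := by
    rw [hx, ← Real.rpow_natCast, ← Real.rpow_mul (Nat.cast_nonneg _)]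
    norm_num
  have hxC : 14 * C ≤ x := by
    rw [← hx10] at hS1
    exact le_of_pow_le_pow_left₀ (by norm_num) hx0 hS1
  have hx14 : 14 ≤ x := by linarith
  have hD1 : x ^ 12 ≤ (⌈x ^ 12⌉₊ : ℝ) := Nat.le_ceil _
  have hD2 : (⌈x ^ 12⌉₊ : ℝ) ≤ 2 * x ^ 12 := by
    have h1 := (Nat.ceil_lt_add_one (pow_nonneg hx0 12)).le
    have h2 : 1 ≤ x ^ 12 := one_le_pow₀ (by linarith)
    linarith
  have hxx : x ≤ x ^ 12 := le_self_pow₀ (by linarith) (by norm_num)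
  generalize ⌈x ^ 12⌉₊ = D at hD1 hD2
  have hD0 : (0 : ℝ) < D := by linarith
  refine ⟨D, ?_, by linarith, ?_, ?_, ?_⟩
  · have h1 : x ≤ x ^ 10 := le_self_pow₀ (by linarith) (by norm_num)
    linarith
  · have h1 : (3 : ℝ) ≤ D := by linarith
    exact_mod_cast h1
  · have hlog : Real.log D + 1 ≤ 12 * x := by
      have h1 : Real.log D ≤ Real.log (2 * x ^ 12) := Real.log_le_log hD0 hD2
      rw [Real.log_mul (by norm_num) (by positivity), Real.log_pow] at h1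
      have h2 := Real.log_le_sub_one_of_pos (show (0 : ℝ) < x by linarith)
      have h3 := Real.log_le_sub_one_of_pos (show (0 : ℝ) < 2 by norm_num)
      push_cast at h1
      linarith
    calc C * (S * (Real.log D + 1)) ≤ C * (S * (12 * x)) := by gcongr
      _ = 12 * C * x ^ 11 := by rw [← hx10]; ring
      _ ≤ x * x ^ 11 := by gcongr; linarith
      _ = x ^ 12 := by ring
      _ ≤ D := hD1
  · rw [hx25]
    calc C * (D : ℝ) ^ 2 ≤ C * (2 * x ^ 12) ^ 2 := by gcongr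
      _ = 4 * C * x ^ 24 := by ring
      _ ≤ x * x ^ 24 := by gcongr; linarith
      _ = x ^ 25 := by ring

/-! Piece M-g2 (helper12) -/

private theorem g2_exp (x : ℝ) (n : ℕ) (hx : 0 ≤ x) : x ^ n ≤ Real.exp (n * x) := by
  rw [Real.exp_nat_mul]
  exact pow_le_pow_left₀ hx (by linarith [Real.add_one_le_exp x]) n

private theorem g2_fact (m N : ℕ) (x : ℝ) (K : ℕ) (D : ℕ) (hD : 1 ≤ D) (hx : x = Real.log D)
    (hm : m ≤ N) (hN : N = K * D) :
    (m.factorial : ℝ) ≤ Real.exp (N * (K + x)) := by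
  have hD0 : (0 : ℝ) < D := by exact_mod_cast hD
  have hx0 : 0 ≤ x := by
    rw [hx]; exact Real.log_nonneg (by exact_mod_cast hD)
  have h1 : (m.factorial : ℝ) ≤ (m : ℝ) ^ m := by exact_mod_cast Nat.factorial_le_pow m
  have h2 : (m : ℝ) ≤ Real.exp (K + x) := by
    rw [Real.exp_add, hx, Real.exp_log hD0]
    have h3 : (m : ℝ) ≤ K * D := by
      rw [hN] at hm
      exact_mod_cast hm
    refine h3.trans (mul_le_mul_of_nonneg_right ?_ hD0.le)
    linarith [Real.add_one_le_exp (K : ℝ)]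
  calc (m.factorial : ℝ) ≤ (m : ℝ) ^ m := h1
    _ ≤ Real.exp (K + x) ^ m := pow_le_pow_left₀ (Nat.cast_nonneg _) h2 m
    _ = Real.exp (m * (K + x)) := (Real.exp_nat_mul _ _).symm
    _ ≤ Real.exp (N * (K + x)) := Real.exp_le_exp.2
        (mul_le_mul_of_nonneg_right (by exact_mod_cast hm) (by positivity))

private theorem g2_n1 (c B s x d δ : ℝ) (hs : 1 ≤ s) (hx : 0 ≤ x) (hd : 0 ≤ d) (hB : 0 ≤ B)
    (hcB : c ≤ B) (h : B * (s * (x + 1)) ≤ δ * d) : c * (d * (x + 1)) ≤ δ * d ^ 2 := by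
  have g1 : x + 1 ≤ s * (x + 1) := le_mul_of_one_le_left (by linarith) hs
  have g2 : c * (x + 1) ≤ B * (s * (x + 1)) :=
    (mul_le_mul_of_nonneg_right hcB (by linarith)).trans (mul_le_mul_of_nonneg_left g1 hB)
  have g4 := mul_le_mul_of_nonneg_left (g2.trans h) hd
  calc c * (d * (x + 1)) = d * (c * (x + 1)) := by ring
    _ ≤ d * (δ * d) := g4
    _ = δ * d ^ 2 := by ring

private theorem g2_n2 (c B s x d δ : ℝ) (hs : 1 ≤ s) (hx : 0 ≤ x) (hd : 0 ≤ d)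
    (hcB : c ≤ B) (h : B * (s * (x + 1)) ≤ δ * d) : c * (s * (x + 1) * d) ≤ δ * d ^ 2 := by
  have g2 : c * (s * (x + 1)) ≤ B * (s * (x + 1)) :=
    mul_le_mul_of_nonneg_right hcB (by positivity)
  have g4 := mul_le_mul_of_nonneg_left (g2.trans h) hd
  calc c * (s * (x + 1) * d) = d * (c * (s * (x + 1))) := by ring
    _ ≤ d * (δ * d) := g4
    _ = δ * d ^ 2 := by ring

private theorem g2_n3 (k C s x d : ℝ) (hs : 0 ≤ s) (hx : 0 ≤ x) (hd : 1 ≤ d) (hC : 0 ≤ C)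
    (hk : 0 ≤ k) : k * d * s + s * (C * (d * x) + 1) ≤ (k + 1 + C) * (s * (x + 1) * d) := by
  have q2 : 0 ≤ k * (s * d * x) := by positivity
  have q1 : 0 ≤ s * d * x := by positivity
  have q3 : s ≤ s * d := le_mul_of_one_le_right hs hd
  have q5 : 0 ≤ C * (s * d) := by positivity
  linarith [show (k + 1 + C) * (s * (x + 1) * d) =
    k * d * s + k * (s * d * x) + s * d * x + s * d + C * (s * d) + s * (C * (d * x)) by ring]

private theorem g2_n4 (κ K v C m x d : ℝ) (hκ : 0 ≤ κ) (hK : 0 ≤ K) (hv : 0 ≤ v) (hx : 0 ≤ x)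
    (hd : 1 ≤ d) (hC : 0 ≤ C) (hm : m ≤ K * d) :
    κ + m * v + C * (d * x) ≤ (κ + K * v + C) * (d * (x + 1)) := by
  have r0 : 1 ≤ d * (x + 1) := one_le_mul_of_one_le_of_one_le hd (by linarith)
  have r1 : κ ≤ κ * (d * (x + 1)) := le_mul_of_one_le_right hκ r0
  have r2 : m * v ≤ K * d * v := mul_le_mul_of_nonneg_right hm hv
  have r3 : 0 ≤ K * v * d * x := by positivity
  have r4 : 0 ≤ C * d := by positivity
  linarith [show (κ + K * v + C) * (d * (x + 1)) =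
    κ * (d * (x + 1)) + K * d * v + K * v * d * x + C * (d * x) + C * d by ring]

private theorem g2_n5 (κ K v m x d δ t B s : ℝ) (hκ : 0 ≤ κ) (hK : 0 ≤ K) (hv : 0 ≤ v)
    (hx : 0 ≤ x) (hd : 1 ≤ d) (hm : m ≤ K * d) (hδ : 0 ≤ δ) (hs : 1 ≤ s) (hB0 : 0 ≤ B)
    (hB : K + K * (K + 1) + κ + K * v ≤ B) (h : B * (s * (x + 1)) ≤ δ * d)
    (ht : 4 * (δ * d ^ 2) ≤ t) :
    κ + m * v + (K * d * (K + x) + -t + m / 4) ≤ -(2 * δ * d ^ 2) := by
  have q1 := g2_n1 (K + K * (K + 1) + κ + K * v) B s x d δ hs hx (by linarith) hB0 hB h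
  have q2 := g2_n4 κ K v 0 m x d hκ hK hv hx hd le_rfl hm
  have r7 : 0 ≤ δ * d ^ 2 := by positivity
  have r3 : m / 4 ≤ K * (d * (x + 1)) := by
    have e1 : 0 ≤ K * d * x := by positivity
    have e2 : 0 ≤ K * d := by positivity
    linarith [show K * (d * (x + 1)) = K * d * x + K * d by ring]
  have r5 : K * d * (K + x) ≤ K * (K + 1) * (d * (x + 1)) := by
    have e1 : 0 ≤ K * d := by positivity
    have e3 : 0 ≤ K * K * d * x := by positivity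
    linarith [show K * (K + 1) * (d * (x + 1)) =
      K * K * d * x + K * K * d + K * d * x + K * d by ring,
      show K * d * (K + x) = K * K * d + K * d * x by ring]
  linarith [show (K + K * (K + 1) + κ + K * v) * (d * (x + 1)) =
    K * (d * (x + 1)) + K * (K + 1) * (d * (x + 1)) + (κ + K * v + 0) * (d * (x + 1)) by ring]

private theorem g2_half : Real.exp (-1) < 1 / 2 := by
  rw [Real.exp_neg, inv_lt_comm₀ (Real.exp_pos _) (by norm_num)]
  have := Real.exp_one_gt_d9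
  norm_num at this ⊢
  linarith

private theorem g2_six (Q t : ℝ) (h : t + 2 ≤ Q / 2) :
    6 * Real.exp (-(Q / 2)) ≤ Real.exp (-t) := by
  have q1 : (6 : ℝ) ≤ Real.exp 2 := by
    have q2 : Real.exp 2 = Real.exp 1 * Real.exp 1 := by rw [← Real.exp_add]; norm_num
    have q3 : (2.7 : ℝ) ≤ Real.exp 1 := by
      have := Real.exp_one_gt_d9
      linarith
    rw [q2]
    nlinarith
  calc 6 * Real.exp (-(Q / 2)) ≤ Real.exp 2 * Real.exp (-(Q / 2)) :=
        mul_le_mul_of_nonneg_right q1 (Real.exp_pos _).le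
    _ = Real.exp (2 + -(Q / 2)) := (Real.exp_add _ _).symm
    _ ≤ _ := Real.exp_le_exp.2 (by linarith)

private theorem g2_low (p q R e Q : ℝ) (h : 1 ≤ (p + q) * Real.exp R) (hR : R ≤ e) (he : 1 ≤ e)
    (hp : 0 ≤ p) (hq : 0 ≤ q) (hpQ : p ≤ Real.exp (-Q)) (hQ : 2 * e ≤ Q) :
    Real.exp (-(2 * e)) ≤ q := by
  have g5 : 1 ≤ (p + q) * Real.exp e :=
    h.trans (mul_le_mul_of_nonneg_left (Real.exp_le_exp.2 hR) (by positivity))
  have g6 : p * Real.exp e ≤ 1 / 2 := by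
    have q1 : p * Real.exp e ≤ Real.exp (-Q) * Real.exp e :=
      mul_le_mul_of_nonneg_right hpQ (Real.exp_pos _).le
    rw [← Real.exp_add] at q1
    exact q1.trans ((Real.exp_le_exp.2 (by linarith : -Q + e ≤ -1)).trans g2_half.le)
  have g8 : Real.exp (-1) ≤ q * Real.exp e := by
    rw [add_mul] at g5
    linarith [g2_half]
  have g9 := mul_le_mul_of_nonneg_right g8 (Real.exp_pos (-e)).le
  rw [mul_assoc, ← Real.exp_add, ← Real.exp_add, add_neg_cancel, Real.exp_zero, mul_one] at g9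
  exact le_trans (Real.exp_le_exp.2 (by linarith)) g9

private theorem g2_last (p w R e : ℝ) (h : 1 ≤ (p + w) * Real.exp R) (hR : R ≤ e) (he : 1 ≤ e)
    (hp : p ≤ Real.exp (-(2 * e))) (hw : w ≤ Real.exp (-(2 * e))) (hp0 : 0 ≤ p) (hw0 : 0 ≤ w) :
    False := by
  have g4 : (1 : ℝ) ≤ (Real.exp (-(2 * e)) + Real.exp (-(2 * e))) * Real.exp e :=
    h.trans (mul_le_mul (add_le_add hp hw) (Real.exp_le_exp.2 hR) (Real.exp_pos _).le
      (by positivity))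
  have g5 : (Real.exp (-(2 * e)) + Real.exp (-(2 * e))) * Real.exp e = 2 * Real.exp (-e) := by
    rw [← two_mul, mul_assoc, ← Real.exp_add]
    congr 2
    ring
  rw [g5] at g4
  have g6 : Real.exp (-e) ≤ Real.exp (-1) := Real.exp_le_exp.2 (by linarith)
  linarith [g2_half]

private theorem g2_sm (κ v p w E Q m' : ℝ) (m : ℕ) (hκ : 0 < κ) (hv : 0 < v) (hw0 : 0 ≤ w)
    (hp : p ≤ Real.exp (-Q)) (hw : w ≤ p * Real.exp E) (hm : m' = m)
    (h : κ + m' * v + E ≤ Q / 2) :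
    κ * v ^ m * w ≤ Real.exp (-(Q / 2)) * m.factorial := by
  have g2 : κ ≤ Real.exp κ := by linarith [Real.add_one_le_exp κ]
  have g3 : v ^ m ≤ Real.exp (m * v) := g2_exp v m hv.le
  have g4 : w ≤ Real.exp (-Q) * Real.exp E :=
    hw.trans (mul_le_mul_of_nonneg_right hp (Real.exp_pos _).le)
  have g5 : κ * v ^ m * w ≤ Real.exp κ * Real.exp (m * v) * (Real.exp (-Q) * Real.exp E) :=
    mul_le_mul (mul_le_mul g2 g3 (by positivity) (Real.exp_pos _).le) g4 hw0 (by positivity)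
  rw [← Real.exp_add, ← Real.exp_add, ← Real.exp_add] at g5
  rw [hm] at h
  refine g5.trans ((Real.exp_le_exp.2 (by linarith : _ ≤ -(Q / 2))).trans ?_)
  exact le_mul_of_one_le_right (Real.exp_pos _).le (by exact_mod_cast Nat.factorial_pos m)

private theorem g2_up (κ v w F t r : ℝ) (m : ℕ) (hκ : 0 < κ) (hv : 0 < v)
    (hF : (m.factorial : ℝ) ≤ Real.exp F)
    (h : κ * v ^ m * w ≤ m.factorial * Real.exp (-t) * Real.exp (m / 4))
    (hr : κ⁻¹ + m * v⁻¹ + (F + -t + m / 4) ≤ r) : w ≤ Real.exp r := by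
  have g2 : κ⁻¹ ≤ Real.exp κ⁻¹ := by linarith [Real.add_one_le_exp κ⁻¹]
  have g3 : (v⁻¹) ^ m ≤ Real.exp (m * v⁻¹) := g2_exp v⁻¹ m (inv_pos.2 hv).le
  have hki := inv_pos.2 hκ
  have hvi := inv_pos.2 hv
  have g4 : w = κ⁻¹ * (v⁻¹) ^ m * (κ * v ^ m * w) := by
    rw [inv_pow]
    field_simp
  have g5 : κ⁻¹ * (v⁻¹) ^ m * (κ * v ^ m * w) ≤
      Real.exp κ⁻¹ * Real.exp (m * v⁻¹) * (Real.exp F * Real.exp (-t) * Real.exp (m / 4)) := by
    refine (mul_le_mul_of_nonneg_left (h.trans (mul_le_mul_of_nonneg_right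
      (mul_le_mul_of_nonneg_right hF (Real.exp_pos _).le) (Real.exp_pos _).le))
      (by positivity)).trans ?_
    exact mul_le_mul_of_nonneg_right (mul_le_mul g2 g3 (by positivity) (Real.exp_pos _).le)
      (by positivity)
  rw [← g4, ← Real.exp_add, ← Real.exp_add, ← Real.exp_add, ← Real.exp_add] at g5
  exact g5.trans (Real.exp_le_exp.2 hr)

theorem irred_main {β μ : ℂ} {b : ℕ → ℤ[X]} {C0 : ℝ} (hb : MB β μ b C0) :
    ∃ S₀ : ℕ, ∀ (S : ℕ) (P : ℤ[X]), S₀ ≤ S → Irreducible P → 0 < P.natDegree →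
      P.natDegree ≤ S → L1 P ≤ Real.exp S →
      Real.exp (-(S : ℝ) ^ (5 / 2 : ℝ)) ≤ ‖aeval β P‖ := by
  classical
  obtain ⟨C1, hC1, h1⟩ := exists_c hb
  obtain ⟨C2, hC2, h2⟩ := hqc_growth β μ C1 (by linarith)
  obtain ⟨C3, hC3, h3⟩ := hqc_lower β μ hb.hμ
  obtain ⟨C4, hC4, h4⟩ := res_log β
  obtain ⟨η, T₁, hη, h5⟩ := periodic_main (4 * Real.pi) (by positivity)
  obtain ⟨K, hK⟩ : ∃ K : ℕ, (C3 + 3) / η ≤ K := exists_nat_ge _
  have hK1 : C3 + 3 ≤ η * K := by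
    rw [div_le_iff₀ hη] at hK
    linarith
  have hK0 : 1 ≤ K := by
    rcases Nat.eq_zero_or_pos K with h | h
    · exfalso
      rw [h, Nat.cast_zero, mul_zero] at hK1
      linarith
    · exact h
  have hK0' : (1 : ℝ) ≤ K := by exact_mod_cast hK0
  have hK2 : C3 + 3 ≤ η * K ^ 2 := by
    have h7 : η * K ≤ η * K ^ 2 := by
      refine mul_le_mul_of_nonneg_left ?_ hη.le
      rw [pow_two]
      exact le_mul_of_one_le_right (by linarith) hK0'
    linarith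
  obtain ⟨C6, hC6, h6⟩ := W_bound hb C1 (by linarith) K
  obtain ⟨κ, hκ⟩ : ∃ κ : ℝ, κ = ‖th 0‖ := ⟨_, rfl⟩
  obtain ⟨v, hv⟩ : ∃ v : ℝ, v = ‖μ‖ := ⟨_, rfl⟩
  have hκ0 : 0 < κ := by rw [hκ]; exact norm_pos_iff.2 th_zero_ne
  have hv0 : 0 < v := by rw [hv]; exact norm_pos_iff.2 hb.hμ
  have hκi : 0 < κ⁻¹ := inv_pos.2 hκ0
  have hvi : 0 < v⁻¹ := inv_pos.2 hv0
  obtain ⟨δ, hδ⟩ : ∃ δ : ℝ, δ = η / 1000 := ⟨_, rfl⟩
  have hδ0 : 0 < δ := by rw [hδ]; positivity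
  have hKK : (0 : ℝ) ≤ K := Nat.cast_nonneg _
  have hTT : (0 : ℝ) ≤ T₁ := Nat.cast_nonneg _
  obtain ⟨B, hB⟩ : ∃ B : ℝ, B = C4 * (1 + 1 + C1) + C2 + 12 * T₁ + 12 + (κ + K * v + C6) +
    2 * (η * K ^ 2 + 2) + C4 * (K + 2 + 1 + C6) + (K + K * (K + 1) + κ⁻¹ + K * v⁻¹) + η :=
    ⟨_, rfl⟩
  have p1 : 0 ≤ C4 * (1 + 1 + C1) := by positivity
  have p2 : 0 ≤ κ + K * v + C6 := by positivity
  have p3 : 0 ≤ η * (K : ℝ) ^ 2 := by positivity
  have p4 : 0 ≤ C4 * (K + 2 + 1 + C6) := by positivity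
  have p5 : 0 ≤ K + K * (K + 1) + κ⁻¹ + K * v⁻¹ := by positivity
  have b1 : C4 * (1 + 1 + C1) ≤ B := by rw [hB]; linarith
  have b2 : C2 ≤ B := by rw [hB]; linarith
  have b3 : 12 * (T₁ : ℝ) ≤ B := by rw [hB]; linarith
  have b4 : 12 ≤ B := by rw [hB]; linarith
  have b5 : κ + K * v + C6 ≤ B := by rw [hB]; linarith
  have b6 : 2 * (η * K ^ 2 + 2) ≤ B := by rw [hB]; linarith
  have b7 : C4 * (K + 2 + 1 + C6) ≤ B := by rw [hB]; linarith
  have b8 : K + K * (K + 1) + κ⁻¹ + K * v⁻¹ ≤ B := by rw [hB]; linarith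
  have b9 : η ≤ B := by rw [hB]; linarith
  clear hB
  have hBδ : 0 ≤ B / δ := by positivity
  have hi : 0 < 1 / δ := by positivity
  obtain ⟨S₀, hS₀⟩ := num (B + B / δ + 1 / δ) (by linarith)
  refine ⟨S₀, fun S P hS hP hd hdS hLP => ?_⟩
  by_contra hlt
  rw [not_le] at hlt
  obtain ⟨D, n1, n2, n3, n4, n5⟩ := hS₀ S hS
  obtain ⟨s, hs⟩ : ∃ s : ℝ, s = (S : ℝ) := ⟨_, rfl⟩
  obtain ⟨d, hd'⟩ : ∃ d : ℝ, d = (D : ℝ) := ⟨_, rfl⟩
  obtain ⟨x, hx⟩ : ∃ x : ℝ, x = Real.log D := ⟨_, rfl⟩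
  obtain ⟨Q, hQ⟩ : ∃ Q : ℝ, Q = (S : ℝ) ^ (5 / 2 : ℝ) := ⟨_, rfl⟩
  rw [← hQ] at hlt n5
  rw [← hx, ← hs, ← hd'] at n4
  rw [← hd'] at n5 n2
  rw [← hs] at n1
  have hd1 : 1 ≤ d := by rw [hd']; exact_mod_cast (by omega : 1 ≤ D)
  have hd0 : 0 ≤ d := by linarith
  have hs1 : 1 ≤ s := by linarith
  have hx0 : 0 ≤ x := by
    rw [hx]
    refine Real.log_nonneg ?_
    rw [← hd']; exact hd1
  have hsx : 0 ≤ s * (x + 1) := by positivity
  have hB0 : 0 ≤ B := by linarith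
  -- the basic inequalities
  have e1 : B * (s * (x + 1)) ≤ 1 * d := by
    have h7 : B * (s * (x + 1)) ≤ (B + B / δ + 1 / δ) * (s * (x + 1)) :=
      mul_le_mul_of_nonneg_right (by linarith) hsx
    linarith
  have e2 : B * (s * (x + 1)) ≤ δ * d := by
    have h7 : (B / δ) * (s * (x + 1)) ≤ (B + B / δ + 1 / δ) * (s * (x + 1)) :=
      mul_le_mul_of_nonneg_right (by linarith) hsx
    have h8 : (B / δ) * (s * (x + 1)) ≤ d := by linarith
    have h9 := mul_le_mul_of_nonneg_left h8 hδ0.le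
    have h10 : δ * (B / δ * (s * (x + 1))) = B * (s * (x + 1)) := by
      field_simp
    linarith
  have e3 : 1 ≤ δ * d := by
    have h8 : 1 / δ ≤ d := by linarith
    have h9 := mul_le_mul_of_nonneg_left h8 hδ0.le
    have h10 : δ * (1 / δ) = 1 := by field_simp
    linarith
  have e4 : B ≤ d := by linarith
  have hdd : 1 ≤ d ^ 2 := one_le_pow₀ hd1
  have hdd0 : 0 ≤ d ^ 2 := by positivity
  have e5 : B * d ^ 2 ≤ Q := by
    have h7 : B * d ^ 2 ≤ (B + B / δ + 1 / δ) * d ^ 2 :=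
      mul_le_mul_of_nonneg_right (by linarith) hdd0
    linarith
  have e6 : 2 * d ^ 2 ≤ Q := (mul_le_mul_of_nonneg_right (by linarith) hdd0).trans e5
  clear n1 n2 n4 n5
  -- the coefficients
  obtain ⟨c, hcdeg, hcz, hcL, ⟨k0, hk0⟩, hW0⟩ := h1 D P (by omega) hd
  -- lower bound for a coefficient
  have hlow : Real.exp (-(2 * d ^ 2)) ≤ ‖aeval β (c k0)‖ := by
    have g1 := h4 P (c k0) S D (C1 * (D * Real.log D)) hP hd hdS hLP hk0 (by omega)
      (hcdeg k0).le (by rw [← hx, ← hd']; positivity) (hcL k0)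
    rw [← hx, ← hd', ← hs] at g1
    refine g2_low _ _ _ (d ^ 2) Q g1 ?_ hdd (norm_nonneg _) (norm_nonneg _) hlt.le e6
    have g3 := g2_n3 1 C1 s x d (by linarith) hx0 hd1 (by linarith) (by norm_num)
    have g4 := g2_n2 (C4 * (1 + 1 + C1)) B s x d 1 hs1 hx0 hd0 b1 e1
    rw [one_mul] at g3 g4
    calc C4 * (d * s + s * (C1 * (d * x) + 1)) ≤ C4 * ((1 + 1 + C1) * (s * (x + 1) * d)) :=
          mul_le_mul_of_nonneg_left g3 (by linarith)
      _ = C4 * (1 + 1 + C1) * (s * (x + 1) * d) := by ring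
      _ ≤ d ^ 2 := g4
  -- the function
  obtain ⟨h, hh⟩ : ∃ h : ℂ → ℂ, h = hq (qc β μ D c) := ⟨_, rfl⟩
  have hdiff : Differentiable ℂ h := by rw [hh]; exact hq_diff _
  have hper : ∀ z, h (z + 1) = h z := by rw [hh]; exact hq_add_one _
  have hgr : ∀ z : ℂ, ‖h z‖ ≤ Real.exp (C2 * (d * x) + 4 * Real.pi * z.im ^ 2) := by
    rw [hh, hd', hx]
    exact h2 D c (by omega) hcdeg hcL
  have hder : ∀ m, iteratedDeriv m h 0 = th 0 * μ ^ m * aeval β (W D b c m) := by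
    intro m
    rw [hh]
    exact hqc_der hb D (by omega) c m
  have hA0 : 0 ≤ C2 * (d * x) := by positivity
  have hA : C2 * (d * x) ≤ δ * d ^ 2 := by
    refine le_trans ?_ (g2_n1 C2 B s x d δ hs1 hx0 hd0 hB0 b2 e2)
    refine mul_le_mul_of_nonneg_left (mul_le_mul_of_nonneg_left ?_ hd0) (by linarith)
    linarith
  have hε0 : 0 ≤ Real.exp (-(Q / 2)) := (Real.exp_pos _).le
  have hε6 : 6 * Real.exp (-(Q / 2)) ≤ Real.exp (-(η * (K * d) ^ 2)) := by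
    refine g2_six Q _ ?_
    have q4 : 2 * (η * K ^ 2 + 2) * d ^ 2 ≤ B * d ^ 2 := mul_le_mul_of_nonneg_right b6 hdd0
    have q5 : η * (K * d) ^ 2 = η * K ^ 2 * d ^ 2 := by ring
    rw [q5]
    linarith [show 2 * (η * K ^ 2 + 2) * d ^ 2 = 2 * (η * K ^ 2 * d ^ 2) + 4 * d ^ 2 by ring]
  have hsm : ∀ m, m < K * D → P ∣ W D b c m →
      ‖iteratedDeriv m h 0‖ ≤ Real.exp (-(Q / 2)) * m.factorial := by
    intro m hm hPW
    have g1 := (h6 D c (by omega) hcdeg hcL m hm).2.2 P hP.ne_zero hPW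
    rw [← hx, ← hd'] at g1
    have hmK : (m : ℝ) ≤ K * d := by
      rw [hd']; exact_mod_cast hm.le
    rw [hder m, norm_mul, norm_mul, norm_pow, ← hκ, ← hv]
    refine g2_sm κ v ‖aeval β P‖ _ (C6 * (d * x)) Q m m hκ0 hv0 (norm_nonneg _) hlt.le g1 rfl ?_
    have q1 := g2_n1 (κ + K * v + C6) B s x d 1 hs1 hx0 hd0 hB0 b5 e1
    have q2 := g2_n4 κ K v C6 m x d hκ0.le hKK hv0.le hx0 hd1 (by linarith) hmK
    rw [one_mul] at q1
    linarith
  have hKD : ((K * D : ℕ) : ℝ) = K * d := by rw [hd']; push_cast; ring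
  have hδη : δ ≤ η / 1000 := hδ.le
  -- not all `W m` are divisible by `P`
  have hex : ∃ m, m < K * D ∧ ¬ P ∣ W D b c m := by
    by_contra hno
    push Not at hno
    have t1 : C2 * (d * x) ≤ η * ((K * D : ℕ) : ℝ) ^ 2 := by
      rw [hKD]
      refine hA.trans ?_
      refine mul_le_mul (by linarith) ?_ hdd0 hη.le
      exact pow_le_pow_left₀ hd0 (le_mul_of_one_le_left hd0 hK0') 2
    have t2 : T₁ ≤ K * D := by
      have q1 : (T₁ : ℝ) ≤ K * d := by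
        have := le_mul_of_one_le_left hd0 hK0'
        linarith
      rw [← hKD] at q1
      exact_mod_cast q1
    have g1 := (h5 h (C2 * (d * x)) (Real.exp (-(Q / 2))) (K * D) hdiff hper hgr hA0 t1 t2 hε0
      (fun m hm => hsm m hm (hno m hm))).1
    rw [hKD, max_eq_left hε6, hh] at g1
    have g2 := h3 D c _ (by omega) hcz g1 k0
    rw [← hd', ← Real.exp_add] at g2
    have g3 := hlow.trans g2
    rw [Real.exp_le_exp] at g3
    have g4 : (C3 + 3) * d ^ 2 ≤ η * K ^ 2 * d ^ 2 := mul_le_mul_of_nonneg_right hK2 hdd0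
    linarith [show η * (K * d) ^ 2 = η * K ^ 2 * d ^ 2 by ring,
      show (C3 + 3) * d ^ 2 = C3 * d ^ 2 + 3 * d ^ 2 by ring]
  -- the first one
  obtain ⟨m, ⟨hm1, hm2⟩, hmin⟩ : ∃ m, (m < K * D ∧ ¬ P ∣ W D b c m) ∧
      ∀ m' < m, ¬ (m' < K * D ∧ ¬ P ∣ W D b c m') :=
    ⟨Nat.find hex, Nat.find_spec hex, fun m' hm' => Nat.find_min hex hm'⟩
  have hm3 : ∀ m' < m, P ∣ W D b c m' := by
    intro m' hm'
    have g1 := hmin m' hm'
    rw [not_and, not_not] at g1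
    exact g1 (hm'.trans hm1)
  have hm4 : D < 6 * (m + 1) := by
    by_contra hcon
    rw [not_lt] at hcon
    apply hm2
    rw [hW0 m hcon]
    exact dvd_zero P
  have hmK : (m : ℝ) ≤ K * d := by
    rw [hd']; exact_mod_cast hm1.le
  have hm5 : d / 12 ≤ m := by
    have q1 : d < 6 * ((m : ℝ) + 1) := by rw [hd']; exact_mod_cast hm4
    linarith
  have hm0 : (0 : ℝ) ≤ m := Nat.cast_nonneg _
  have hηm : 4 * (δ * d ^ 2) ≤ η * m ^ 2 := by
    have q1 : (d / 12) ^ 2 ≤ (m : ℝ) ^ 2 := pow_le_pow_left₀ (by positivity) hm5 2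
    have q2 := mul_le_mul_of_nonneg_left q1 hη.le
    have q3 : 0 ≤ η * d ^ 2 := by positivity
    rw [hδ]
    linarith [show η * (d / 12) ^ 2 = η * d ^ 2 / 144 by ring,
      show 4 * (η / 1000 * d ^ 2) = η * d ^ 2 / 250 by ring]
  have t1 : C2 * (d * x) ≤ η * (m : ℝ) ^ 2 := by
    have : 0 ≤ δ * d ^ 2 := by positivity
    linarith
  have t2 : T₁ ≤ m := by
    have q1 : (T₁ : ℝ) ≤ m := by linarith
    exact_mod_cast q1
  have hmder := (h5 h (C2 * (d * x)) (Real.exp (-(Q / 2))) m hdiff hper hgr hA0 t1 t2 hε0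
    (fun m' hm' => hsm m' (hm'.trans hm1) (hm3 m' hm'))).2
  have hmax : max (Real.exp (-(η * m ^ 2))) (6 * Real.exp (-(Q / 2))) =
      Real.exp (-(η * m ^ 2)) := by
    refine max_eq_left (hε6.trans (Real.exp_le_exp.2 (neg_le_neg ?_)))
    exact mul_le_mul_of_nonneg_left (pow_le_pow_left₀ hm0 hmK 2) hη.le
  rw [hmax, hder m, norm_mul, norm_mul, norm_pow, ← hκ, ← hv] at hmder
  -- upper bound for the value of `W m`
  have hWm : ‖aeval β (W D b c m)‖ ≤ Real.exp (-(2 * δ * d ^ 2)) := by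
    have g1 : (m.factorial : ℝ) ≤ Real.exp (K * d * (K + x)) := by
      have := g2_fact m (K * D) x K D (by omega) hx hm1.le rfl
      rwa [hKD] at this
    refine g2_up κ v _ _ (η * m ^ 2) _ m hκ0 hv0 g1 hmder ?_
    exact g2_n5 κ⁻¹ K v⁻¹ m x d δ (η * m ^ 2) B s hκi.le hKK hvi.le hx0 hd1 hmK hδ0.le hs1 hB0
      b8 e2 hηm
  -- the resultant
  have hWb := h6 D c (by omega) hcdeg hcL m hm1
  have hD1 : 1 ≤ D := by omega
  have hfin := h4 P (W D b c m) S ((K + 2) * D) (C6 * (D * Real.log D)) hP hd hdS hLP hm2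
    (Nat.one_le_iff_ne_zero.2 (Nat.mul_ne_zero (by omega) (by omega))) hWb.1
    (by rw [← hx, ← hd']; positivity) hWb.2.1
  rw [← hx, ← hs] at hfin
  push_cast at hfin
  rw [← hd'] at hfin
  refine g2_last _ _ _ (δ * d ^ 2) hfin ?_ ?_ ?_ ?_ (norm_nonneg _) (norm_nonneg _)
  · have g3 := g2_n3 (K + 2) C6 s x d (by linarith) hx0 hd1 (by linarith) (by linarith)
    have g4 := g2_n2 (C4 * (K + 2 + 1 + C6)) B s x d δ hs1 hx0 hd0 b7 e2
    calc C4 * ((K + 2) * d * s + s * (C6 * (d * x) + 1)) ≤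
          C4 * ((K + 2 + 1 + C6) * (s * (x + 1) * d)) :=
          mul_le_mul_of_nonneg_left g3 (by linarith)
      _ = C4 * (K + 2 + 1 + C6) * (s * (x + 1) * d) := by ring
      _ ≤ _ := g4
  · calc (1 : ℝ) ≤ δ * d := e3
      _ ≤ δ * d ^ 2 := mul_le_mul_of_nonneg_left (by
          rw [pow_two]; exact le_mul_of_one_le_right hd0 hd1) hδ0.le
  · refine hlt.le.trans (Real.exp_le_exp.2 (neg_le_neg ?_))
    refine le_trans ?_ e5
    rw [← mul_assoc]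
    exact mul_le_mul_of_nonneg_right (by linarith) hdd0
  · rw [← mul_assoc]
    exact hWm

end

end Pool.Agent.Helper12.TA
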