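import Pool.Agent.Helper12.TA.Ma
import Pool.Agent.Helper12.TA.Mg
import Pool.Agent.Helper49.TA.Df

/-!
PROJECT TA, block M, part h: all polynomials.
-/

namespace Pool.Agent.Helper12.TA

open Polynomial Complex

noncomputable section

/-! Piece M-h1 -/

/-- The size: additive. -/
def tz (P : ℤ[X]) : ℝ :=
  P.natDegree + Real.log ((P.map (Int.castRingHom ℂ)).mahlerMeasure)

private theorem tz_one_le (P : ℤ[X]) (hP : P ≠ 0) :
    1 ≤ (P.map (Int.castRingHom ℂ)).mahlerMeasure :=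
  Polynomial.one_le_mahlerMeasure_of_ne_zero hP

theorem tz_nonneg (P : ℤ[X]) (hP : P ≠ 0) : 0 ≤ tz P := by
  unfold tz
  have h1 := Real.log_nonneg (tz_one_le P hP)
  have h2 : (0 : ℝ) ≤ (P.natDegree : ℝ) := Nat.cast_nonneg _
  linarith

theorem tz_mul (P Q : ℤ[X]) (hP : P ≠ 0) (hQ : Q ≠ 0) : tz (P * Q) = tz P + tz Q := by
  unfold tz
  have h1 := tz_one_le P hP
  have h2 := tz_one_le Q hQ
  rw [natDegree_mul hP hQ, Polynomial.map_mul, mahlerMeasure_mul,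
    Real.log_mul (by linarith) (by linarith)]
  push_cast
  ring

private theorem tz_L1_norm (P : ℤ[X]) :
    L1 P = (P.map (Int.castRingHom ℂ)).sum fun _ a ↦ ‖a‖ := by
  have h1 : (P.map (Int.castRingHom ℂ)).support = P.support :=
    support_map_of_injective P (RingHom.injective_int (Int.castRingHom ℂ))
  unfold L1 Pool.Agent.Helper14.LC.pN
  rw [Polynomial.sum_def, h1]
  refine Finset.sum_congr rfl fun i _ => ?_
  rw [coeff_map, eq_intCast, Complex.norm_intCast]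

private theorem tz_exp (P : ℤ[X]) (hP : P ≠ 0) :
    Real.exp (tz P) = Real.exp (P.natDegree) * (P.map (Int.castRingHom ℂ)).mahlerMeasure := by
  unfold tz
  rw [Real.exp_add, Real.exp_log (by linarith [tz_one_le P hP])]

/-- PROOF. `L1 P ≤ 2 ^ natDegree * M(P)` (`norm_coeff_le_choose_mul_mahlerMeasure` and the sum of the binomial
coefficients), `log 2 < 1`. -/
theorem L1_le_tz (P : ℤ[X]) (hP : P ≠ 0) : L1 P ≤ Real.exp (tz P) := by
  have hd : (P.map (Int.castRingHom ℂ)).natDegree = P.natDegree :=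
    natDegree_map_eq_of_injective (RingHom.injective_int (Int.castRingHom ℂ)) P
  have hM : (0 : ℝ) ≤ (P.map (Int.castRingHom ℂ)).mahlerMeasure := by
    linarith [tz_one_le P hP]
  rw [tz_exp P hP, tz_L1_norm, Polynomial.sum_over_range _ (fun _ => norm_zero), hd]
  calc ∑ i ∈ Finset.range (P.natDegree + 1), ‖(P.map (Int.castRingHom ℂ)).coeff i‖
      ≤ ∑ i ∈ Finset.range (P.natDegree + 1), ((P.natDegree.choose i : ℕ) : ℝ) *
          (P.map (Int.castRingHom ℂ)).mahlerMeasure := by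
        refine Finset.sum_le_sum fun i _ => ?_
        have h1 := norm_coeff_le_choose_mul_mahlerMeasure i (P.map (Int.castRingHom ℂ))
        rwa [hd] at h1
    _ = (2 : ℝ) ^ P.natDegree * (P.map (Int.castRingHom ℂ)).mahlerMeasure := by
        rw [← Finset.sum_mul, ← Nat.cast_sum, Nat.sum_range_choose]
        push_cast
        ring
    _ ≤ Real.exp (P.natDegree) * (P.map (Int.castRingHom ℂ)).mahlerMeasure := by
        refine mul_le_mul_of_nonneg_right ?_ hM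
        have h2 : (2 : ℝ) ≤ Real.exp 1 := by
          have := Real.add_one_le_exp (1 : ℝ)
          linarith
        calc (2 : ℝ) ^ P.natDegree ≤ (Real.exp 1) ^ P.natDegree :=
              pow_le_pow_left₀ (by norm_num) h2 _
          _ = Real.exp (P.natDegree) := by rw [← Real.exp_nat_mul, mul_one]

theorem tz_le (P : ℤ[X]) (hP : P ≠ 0) (s : ℝ) (h1 : (P.natDegree : ℝ) ≤ s)
    (h2 : L1 P ≤ Real.exp s) : tz P ≤ 2 * s := by
  have h3 := tz_one_le P hP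
  have h4 : (P.map (Int.castRingHom ℂ)).mahlerMeasure ≤ Real.exp s := by
    refine (mahlerMeasure_le_sum_norm_coeff _).trans ?_
    rw [← tz_L1_norm]
    exact h2
  have h5 : Real.log ((P.map (Int.castRingHom ℂ)).mahlerMeasure) ≤ s := by
    have h6 := Real.log_le_log (by linarith) h4
    rwa [Real.log_exp] at h6
  unfold tz
  linarith

private theorem Mh2_deg_le (P : ℤ[X]) (hP : P ≠ 0) : (P.natDegree : ℝ) ≤ tz P := by
  unfold tz
  have h1 := Polynomial.one_le_mahlerMeasure_of_ne_zero hP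
  have h2 := Real.log_nonneg h1
  linarith

private theorem Mh2_const (β : ℂ) (P : ℤ[X]) (hP : P ≠ 0) (h0 : P.natDegree = 0) :
    1 ≤ ‖aeval β P‖ := by
  rw [eq_C_of_natDegree_eq_zero h0, aeval_C]
  have h1 : P.coeff 0 ≠ 0 := by
    intro h2
    rw [eq_C_of_natDegree_eq_zero h0, h2, C_0] at hP
    exact hP rfl
  have h3 : (1 : ℤ) ≤ |P.coeff 0| := Int.one_le_abs h1
  have h4 : ‖(algebraMap ℤ ℂ) (P.coeff 0)‖ = ((|P.coeff 0| : ℤ) : ℝ) := by
    rw [eq_intCast, Complex.norm_intCast, Int.cast_abs]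
  rw [h4]
  exact_mod_cast h3

/-- PROOF. `UniqueFactorizationMonoid.induction_on_prime`. Units: `aeval β P` has norm `1`. A prime factor `Q` of degree `0` is
an integer: norm at least `1`. A prime factor of positive degree: `tz Q ≥ 1`, and `irr` with `S = ⌈tz Q⌉ + S₀`, at most
`(S₀ + 2) * tz Q`. Superadditivity: `x ^ (5 / 2) + y ^ (5 / 2) ≤ (x + y) ^ (5 / 2)` (`Real.add_rpow_le_rpow_add` or the like). -/
theorem all_of_irred (β : ℂ) (S₀ : ℕ)
    (irr : ∀ (S : ℕ) (P : ℤ[X]), S₀ ≤ S → Irreducible P → 0 < P.natDegree →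
      P.natDegree ≤ S → L1 P ≤ Real.exp S →
      Real.exp (-(S : ℝ) ^ (5 / 2 : ℝ)) ≤ ‖aeval β P‖) (P : ℤ[X]) (hP : P ≠ 0) :
    Real.exp (-((S₀ + 2) ^ (5 / 2 : ℝ) * tz P ^ (5 / 2 : ℝ))) ≤ ‖aeval β P‖ := by
  set K : ℝ := ((S₀ : ℝ) + 2) ^ (5 / 2 : ℝ) with hK
  have hK0 : 0 ≤ K := by positivity
  have hbig : ∀ Q : ℤ[X], Q ≠ 0 → 1 ≤ ‖aeval β Q‖ →
      Real.exp (-(K * tz Q ^ (5 / 2 : ℝ))) ≤ ‖aeval β Q‖ := by
    intro Q hQ h1
    refine le_trans (Real.exp_le_one_iff.2 ?_) h1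
    have := Real.rpow_nonneg (tz_nonneg Q hQ) (5 / 2 : ℝ)
    have := mul_nonneg hK0 this
    linarith
  revert hP
  refine UniqueFactorizationMonoid.induction_on_prime
    (P := fun P : ℤ[X] => P ≠ 0 → Real.exp (-(K * tz P ^ (5 / 2 : ℝ))) ≤ ‖aeval β P‖) P ?_ ?_ ?_
  · intro h
    exact absurd rfl h
  · intro Q hu hQ
    exact hbig Q hQ (Mh2_const β Q hQ (natDegree_eq_zero_of_isUnit hu))
  · intro Q p hQ0 hp ih hpQ
    have hp0 : p ≠ 0 := hp.ne_zero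
    have ih' := ih hQ0
    have hpr : Real.exp (-(K * tz p ^ (5 / 2 : ℝ))) ≤ ‖aeval β p‖ := by
      by_cases hd : p.natDegree = 0
      · exact hbig p hp0 (Mh2_const β p hp0 hd)
      · have hd' : 0 < p.natDegree := Nat.pos_of_ne_zero hd
        have h1 : (1 : ℝ) ≤ tz p := by
          refine le_trans ?_ (Mh2_deg_le p hp0)
          exact_mod_cast hd'
        have h2 : tz p ≤ ((⌈tz p⌉₊ + S₀ : ℕ) : ℝ) := by
          push_cast
          have := Nat.le_ceil (tz p)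
          have : (0 : ℝ) ≤ S₀ := Nat.cast_nonneg _
          linarith
        have h3 := irr (⌈tz p⌉₊ + S₀) p (Nat.le_add_left _ _) hp.irreducible hd' (by
          have := (Mh2_deg_le p hp0).trans h2
          exact_mod_cast this) ((L1_le_tz p hp0).trans (Real.exp_le_exp.2 h2))
        refine le_trans (Real.exp_le_exp.2 (neg_le_neg ?_)) h3
        rw [hK, ← Real.mul_rpow (by positivity) (by linarith)]
        refine Real.rpow_le_rpow (Nat.cast_nonneg _) ?_ (by norm_num)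
        push_cast
        have h4 := (Nat.ceil_lt_add_one (by linarith : (0 : ℝ) ≤ tz p)).le
        have h5 : (0 : ℝ) ≤ S₀ := Nat.cast_nonneg _
        nlinarith
    rw [tz_mul p Q hp0 hQ0, map_mul, norm_mul]
    have h6 := Real.add_rpow_le_rpow_add (tz_nonneg p hp0) (tz_nonneg Q hQ0)
      (by norm_num : (1 : ℝ) ≤ 5 / 2)
    calc Real.exp (-(K * (tz p + tz Q) ^ (5 / 2 : ℝ)))
        ≤ Real.exp (-(K * tz p ^ (5 / 2 : ℝ)) + -(K * tz Q ^ (5 / 2 : ℝ))) := by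
          refine Real.exp_le_exp.2 ?_
          have := mul_le_mul_of_nonneg_left h6 hK0
          linarith
      _ = Real.exp (-(K * tz p ^ (5 / 2 : ℝ))) * Real.exp (-(K * tz Q ^ (5 / 2 : ℝ))) :=
          Real.exp_add _ _
      _ ≤ ‖aeval β p‖ * ‖aeval β Q‖ :=
          mul_le_mul hpr ih' (Real.exp_pos _).le (norm_nonneg _)

/-! Conclusion of block M -/

theorem M_main {β μ : ℂ} {b : ℕ → ℤ[X]} {C0 : ℝ} (hb : MB β μ b C0) :
    ∃ C : ℝ, 0 ≤ C ∧ ∀ (P : ℤ[X]) (s : ℝ), P ≠ 0 → (P.natDegree : ℝ) ≤ s → L1 P ≤ Real.exp s →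
      Real.exp (-(C * s ^ (5 / 2 : ℝ))) ≤ ‖aeval β P‖ := by
  obtain ⟨S₀, h⟩ := irred_main hb
  refine ⟨(S₀ + 2) ^ (5 / 2 : ℝ) * 2 ^ (5 / 2 : ℝ), by positivity, fun P s hP h1 h2 => ?_⟩
  have hs : 0 ≤ s := (Nat.cast_nonneg _).trans h1
  refine le_trans (Real.exp_le_exp.2 (neg_le_neg ?_)) (all_of_irred β S₀ h P hP)
  have h3 : tz P ^ (5 / 2 : ℝ) ≤ 2 ^ (5 / 2 : ℝ) * s ^ (5 / 2 : ℝ) := by
    rw [← Real.mul_rpow (by norm_num) hs]
    exact Real.rpow_le_rpow (tz_nonneg P hP) (tz_le P hP s h1 h2) (by norm_num)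
  calc ((S₀ : ℝ) + 2) ^ (5 / 2 : ℝ) * tz P ^ (5 / 2 : ℝ) ≤
        ((S₀ : ℝ) + 2) ^ (5 / 2 : ℝ) * (2 ^ (5 / 2 : ℝ) * s ^ (5 / 2 : ℝ)) :=
      mul_le_mul_of_nonneg_left h3 (by positivity)
    _ = _ := by ring

theorem M_Hurwitz (β μ : ℂ) (hμ : μ ≠ 0) (h : μ ^ 2 * β = Real.pi) (S : ℂ → ℂ)
    (hS : Differentiable ℂ S) (hth : ∀ z, th z = th 0 * S z * cexp (-(Real.pi * z ^ 2 / 2)))
    (a : ℕ → ℤ) (ha : ∀ n, iteratedDeriv n S 0 = μ ^ n * a n) :
    ∃ C : ℝ, 0 ≤ C ∧ ∀ (P : ℤ[X]) (s : ℝ), P ≠ 0 → (P.natDegree : ℝ) ≤ s → L1 P ≤ Real.exp s →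
      Real.exp (-(C * s ^ (5 / 2 : ℝ))) ≤ ‖aeval β P‖ := by
  obtain ⟨b, C, hb⟩ := MB_of_Hurwitz β μ hμ h S hS hth a ha
  exact M_main hb

/-! The target of the project -/

/-- PROOF. `M_Hurwitz` with `S = Sf I`; `L1 P ≤ (natDegree P + 1) * exp s ≤ exp (2 s)`. -/
theorem M_final {μ : ℂ} {a : ℕ → ℤ} (h : Pool.Agent.Helper49.TA.HasHurwitz I μ a) :
    ∃ C : ℝ, 0 < C ∧ ∀ P : ℤ[X], P ≠ 0 → ∀ s : ℝ, (P.natDegree : ℝ) ≤ s →
      (∀ i, |(P.coeff i : ℝ)| ≤ Real.exp s) →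
      Real.exp (-C * (s + 1) ^ (5 / 2 : ℝ)) ≤ ‖aeval (Real.pi / μ ^ 2 : ℂ) P‖ := by
  obtain ⟨hμ, ha⟩ := h
  have hS : Differentiable ℂ (Pool.Agent.Helper49.TA.Sf I) := by
    intro z
    have h1 : DifferentiableAt ℂ (fun z : ℂ => jacobiTheta₂ z I *
        cexp (Pool.Agent.Helper49.TA.hc I * z ^ 2 / 2) / jacobiTheta₂ 0 I) z :=
      (DifferentiableAt.mul (th_diff z) (by fun_prop)).div_const _
    exact h1
  have hc1 : Pool.Agent.Helper49.TA.hc I = Real.pi := by simp [Pool.Agent.Helper49.TA.hc]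
  have hth : ∀ z, th z = th 0 * Pool.Agent.Helper49.TA.Sf I z *
      cexp (-(Real.pi * z ^ 2 / 2)) := by
    intro z
    unfold Pool.Agent.Helper49.TA.Sf
    rw [hc1]
    have h0 : jacobiTheta₂ 0 I ≠ 0 := th_zero_ne
    have e : cexp (Real.pi * z ^ 2 / 2) * cexp (-(Real.pi * z ^ 2 / 2)) = 1 := by
      rw [← Complex.exp_add, add_neg_cancel, Complex.exp_zero]
    unfold th
    calc jacobiTheta₂ z I = jacobiTheta₂ 0 I * (jacobiTheta₂ z I / jacobiTheta₂ 0 I) * 1 := by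
          field_simp
      _ = _ := by rw [← e]; ring
  obtain ⟨C, hC, h1⟩ := M_Hurwitz (Real.pi / μ ^ 2) μ hμ (by field_simp)
    (Pool.Agent.Helper49.TA.Sf I) hS hth a ha
  refine ⟨C * 2 ^ (5 / 2 : ℝ) + 1, by positivity, fun P hP s hs hcoef => ?_⟩
  have hs0 : 0 ≤ s := (Nat.cast_nonneg _).trans hs
  have hL : L1 P ≤ Real.exp (2 * s) := by
    have g1 : L1 P ≤ ∑ _i ∈ Finset.range (P.natDegree + 1), Real.exp s := by
      unfold L1
      rw [Pool.Agent.Helper14.LC.pN_eq_of_subset Pool.Agent.Helper14.LC.isNm_int P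
        (Finset.range (P.natDegree + 1)) supp_subset_range_natDegree_succ]
      exact Finset.sum_le_sum fun i _ => hcoef i
    rw [Finset.sum_const, Finset.card_range, nsmul_eq_mul] at g1
    push_cast at g1
    have g2 : (P.natDegree : ℝ) + 1 ≤ Real.exp s := by linarith [Real.add_one_le_exp s]
    calc L1 P ≤ ((P.natDegree : ℝ) + 1) * Real.exp s := g1
      _ ≤ Real.exp s * Real.exp s := mul_le_mul_of_nonneg_right g2 (Real.exp_pos _).le
      _ = Real.exp (2 * s) := by rw [← Real.exp_add]; ring_nf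
  refine le_trans (Real.exp_le_exp.2 ?_) (h1 P (2 * s) hP (by linarith) hL)
  rw [neg_mul]
  refine neg_le_neg ?_
  rw [Real.mul_rpow (by norm_num) hs0]
  have g3 : s ^ (5 / 2 : ℝ) ≤ (s + 1) ^ (5 / 2 : ℝ) :=
    Real.rpow_le_rpow hs0 (by linarith) (by norm_num)
  have g4 : 0 ≤ (s + 1) ^ (5 / 2 : ℝ) := by positivity
  have g5 : 0 ≤ C * 2 ^ (5 / 2 : ℝ) := by positivity
  have g6 := mul_le_mul_of_nonneg_left g3 g5
  linarith [show C * (2 ^ (5 / 2 : ℝ) * s ^ (5 / 2 : ℝ)) = C * 2 ^ (5 / 2 : ℝ) * s ^ (5 / 2 : ℝ) by ring,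
    show (C * 2 ^ (5 / 2 : ℝ) + 1) * (s + 1) ^ (5 / 2 : ℝ) =
      C * 2 ^ (5 / 2 : ℝ) * (s + 1) ^ (5 / 2 : ℝ) + (s + 1) ^ (5 / 2 : ℝ) by ring]

end

end Pool.Agent.Helper12.TA
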